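import Mathlib
import Pool.Agent.N715.AB.Stm

/-!
Project AC: a lower bound, polynomial in the logarithm of the degree, for the canonical heights of
points of bounded degree over abelian extensions.  Statements of the independent parts.
-/

set_option autoImplicit false
set_option linter.unusedSectionVars false

namespace Pool.Agent.N715.AC

open NumberField Module Polynomial
open Pool.Agent.W238.Leh (act canH Bds hC)
open Pool.Agent.H627.LP (FrobAt)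
open Pool.Agent.H627.LR (GR GoodK)
open Pool.Agent.H420R3 (mi nv TP ew)
open Pool.Agent.R829.BG (XD E2)
open Pool.Agent.N715.AB (ev)

noncomputable section

/-- the coefficients are algebraic integers, not all of them in `P` -/
def PPrim {K : Type} [Field K] [NumberField K] (P : Ideal (𝓞 K)) (c : K[X]) : Prop :=
  (∀ n, ∃ a : 𝓞 K, c.coeff n = (a : K)) ∧ ∃ n, ∃ a : 𝓞 K, a ∉ P ∧ c.coeff n = (a : K)

/-- a pair of conjugate elements which is a Frobenius pair at the place `v` -/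
def FP (K : Type) {L : Type} [Field K] [Field L] [NumberField L] [Algebra K L]
    (v : FinitePlace L) (Q : ℕ) (x y : L) : Prop :=
  ∃ φ : Gal(L/K), FrobAt v φ Q ∧ φ x = y

/-- the field generated by the conjugates of `x` -/
def CF (K : Type) {L : Type} [Field K] [Field L] [Algebra K L] (x : L) : IntermediateField K L :=
  IntermediateField.adjoin K (Set.range fun ρ : Gal(L/K) => ρ x)

/-- (LOC) a relation over `K` between `x` and `y` with `y` close to `x ^ Q` -/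
def LocLem : Prop :=
  ∀ (K : Type) [Field K] [NumberField K] (P : Ideal (𝓞 K)) [P.IsMaximal], P ≠ ⊥ →
    ∀ (Q A : ℕ) (g : K[X][X]), g ≠ 0 → XD A g →
    ∃ (s : ℕ) (c : K[X]), s ≤ g.natDegree ∧ (A < Q → s = 0) ∧ PPrim P c ∧
      c.natDegree ≤ A + Q * g.natDegree ∧
      ∀ (L : Type) [Field L] [NumberField L] [Algebra K L], ∀ w ∈ TP L P, ∀ x y : L,
        ev x y g = 0 → w x ≤ 1 → w (aeval x c) = 1 → w (y - x ^ Q) < 1 →
        1 ≤ s ∧ w (y - x ^ Q) ^ s ≤ Real.exp (-ew K w)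

/-- (BAD) the conjugates of a small point of large degree are rarely in few residue classes -/
def BadLem : Prop :=
  ∀ (K : Type) [Field K] [NumberField K] (L : Type) [Field L] [NumberField L] [Algebra K L]
    [IsGalois K L]
    (F : Fin (1 + 1) → MvPolynomial (Fin (1 + 1)) K) (q c a : ℕ) (A : ℝ),
    Bds F q A a → 2 ≤ q → (∀ i, (F i).IsHomogeneous q) →
    (∀ m, c + q ≤ m → ∀ p : MvPolynomial (Fin (1 + 1)) K, p.IsHomogeneous m →
      p ∈ Ideal.span (Set.range F)) →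
    ∀ (P : Ideal (𝓞 K)) [P.IsMaximal], P ≠ ⊥ → GoodK P F q →
    ∀ (x : L) (e : ℕ), 1 ≤ e →
    (∀ w ∈ TP L P, ∀ z ∈ CF K x, w z < 1 → w z ≤ Real.exp (-(ew K w / e))) →
    ∀ ω : ℝ, 0 < ω → (finrank ℚ K : ℝ) * e * ω ≤ Real.log P.absNorm →
    ∀ (u t s R : ℕ), 1 ≤ u → R = 2 * u * t * (s + 1) →
    ∀ f : K[X], PPrim P f → f.natDegree + 1 ≤ t →
    R ≤ (minpoly K x).natDegree →
    R * canH F q ![x, 1] + hC A a * (c + q : ℕ) * (1 + Nat.log 2 R : ℕ) + Real.log R <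
      s * ω / (2 * u) →
    u * ∑ v ∈ TP L P, (open Classical in if v x ≤ 1 ∧ v (aeval x f) = 1 then 0 else ew K v) ≤
      ∑ v ∈ TP L P, ew K v

/-- (TWO) the two-variable interpolation inequality for pairs of points close to the graph of
`x ↦ x ^ Q` at many places -/
def TwoLem : Prop :=
  ∀ (K : Type) [Field K] [NumberField K] (M : Type) [Field M] [NumberField M] [Algebra K M]
    (ι : Type) [Fintype ι] [DecidableEq ι]
    (F : Fin (1 + 1) → MvPolynomial (Fin (1 + 1)) K) (q c a : ℕ) (A : ℝ),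
    Bds F q A a → 2 ≤ q → (∀ i, (F i).IsHomogeneous q) →
    (∀ m, c + q ≤ m → ∀ p : MvPolynomial (Fin (1 + 1)) K, p.IsHomogeneous m →
      p ∈ Ideal.span (Set.range F)) →
    ∀ (x y : ι → M) (T : Finset (FinitePlace M)), (∀ v ∈ T, GR v F q) →
    ∀ (Q : ℕ) (g : FinitePlace M → ℝ) (Bad : FinitePlace M → Finset ι), (∀ v ∈ T, 0 < g v) →
    (∀ v ∈ T, ∀ i, i ∉ Bad v → v (x i) ≤ 1 ∧ v (y i - x i ^ Q) ≤ Real.exp (-g v)) →
    ∀ w₀ : ℝ, (∀ i, w₀ ≤ ∑ v ∈ T, if i ∉ Bad v then g v else 0) →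
    ∀ H : ℝ, (∀ i, canH F q ![x i, 1] ≤ H) → (∀ i, canH F q ![y i, 1] ≤ H) →
    ∀ m n s r : ℕ, r = finrank M (E2 K (fun i => ![x i, 1]) (fun i => ![y i, 1]) m n) → 1 ≤ r →
      s * (r * w₀ - (∑ v ∈ T, g v) * (s * (m + Q * n + 1) : ℕ)) ≤
        finrank ℚ M * (r * ((m + n) * H +
          hC A a * (c + q : ℕ) * (1 + Nat.log 2 m : ℕ) +
          hC A a * (c + q : ℕ) * (1 + Nat.log 2 n : ℕ) + Real.log r))

/-- (TRC) descent of relations by the trace -/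
def TraceDesc2 : Prop :=
  ∀ (K : Type) [Field K] [NumberField K] (L : Type) [Field L] [NumberField L] [Algebra K L]
    [IsGalois K L] (ι : Type) (x y : ι → L) (G : L[X][X]) (A b : ℕ), G ≠ 0 → G.natDegree ≤ b →
    XD A G → (∀ (σ : Gal(L/K)) (i : ι), G.evalEval (σ (x i)) (σ (y i)) = 0) →
    ∃ G' : K[X][X], G' ≠ 0 ∧ G'.natDegree ≤ b ∧ XD A G' ∧ ∀ i, ev (x i) (y i) G' = 0

/-- (RNK) the rank of the evaluation at the conjugates of points on distinct curves -/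
def RankLem : Prop :=
  ∀ (K : Type) [Field K] [NumberField K] (L : Type) [Field L] [NumberField L] [Algebra K L]
    [IsGalois K L] (J : Finset ℕ) (x y : ℕ → L) (g : ℕ → K[X][X]) (A b m n : ℕ),
    (∀ j ∈ J, Irreducible (g j) ∧ 1 ≤ (g j).natDegree ∧ (g j).natDegree ≤ b ∧ XD A (g j) ∧
      ev (x j) (y j) (g j) = 0 ∧ A * n + m * b < (minpoly K (x j)).natDegree) →
    (∀ i ∈ J, ∀ j ∈ J, i ≠ j → ¬ Associated (g i) (g j)) →
    n < ∑ j ∈ J, (g j).natDegree →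
    (m + 1) * (n + 1) ≤ finrank L (E2 K
      (fun i : {j // j ∈ J} × Gal(L/K) => ![i.2 (x i.1), 1]) (fun i => ![i.2 (y i.1), 1]) m n)

/-- (PER) the same irreducible relation at two indices -/
def PerLem : Prop :=
  ∀ (K : Type) [Field K] (L : Type) [Field L] [Algebra K L] [FiniteDimensional K L]
    (D b A W : ℕ), 1 ≤ D → ∀ (x y : ℕ → L) (J : Set ℕ),
    (∀ i j, i ∉ J → j ∉ J → i = j) →
    (∀ j, 1 ≤ j → ∃ f g : K[X], f.natDegree ≤ D ^ j ∧ g.natDegree ≤ D ^ j ∧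
      ∀ i ∈ J, i + j ∈ J → aeval (x i) g ≠ 0 ∧ aeval (y i) g ≠ 0 ∧
        x (i + j) = aeval (x i) f / aeval (x i) g ∧ y (i + j) = aeval (y i) f / aeval (y i) g) →
    (∀ i ≤ 2 * W, i ∈ J ∧ 2 * A * b * D ^ (2 * W) < (minpoly K (x i)).natDegree) →
    ∀ g : K[X][X], Irreducible g → 1 ≤ g.natDegree → g.natDegree ≤ b → XD A g →
    ∀ i k : ℕ, 1 ≤ k → i + k ≤ W → ev (x i) (y i) g = 0 → ev (x (i + k)) (y (i + k)) g = 0 →
    ∀ n, i + n * k ∈ J → ev (x (i + n * k)) (y (i + n * k)) g = 0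

/-- (PAR) the parameters -/
def Par2 : Prop :=
  ∀ (E : ℝ) (κ r a q : ℕ), 0 ≤ E → 1 ≤ κ → 1 ≤ r → 2 ≤ q →
    ∃ (j M J : ℕ) (C : ℝ), 1 ≤ j ∧ 48 * r ≤ M ∧ 0 < C ∧ ∀ N : ℕ, 2 ≤ N →
      ∃ S₁ S₂ W b Q R : ℕ, b = 12 * r * S₁ ∧ Q = N ^ j ∧
        R = 2 * (4 * r) * (2 * Q * b + 1) * (S₂ + 1) ∧ 1 ≤ S₁ ∧ b < Q ∧
        M * (Nat.log 2 b + 1) ≤ W ∧
        2 + E * (1 + Nat.log 2 (Q * b) : ℕ) + E * (1 + Nat.log 2 b : ℕ) +
          Real.log ((Q * b + 1) * (b + 1) : ℕ) < S₁ * (Real.log N / (κ * (N : ℝ) ^ a)) / (2 * r) ∧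
        2 + E * (1 + Nat.log 2 R : ℕ) + Real.log R <
          S₂ * (Real.log N / (κ * (N : ℝ) ^ a)) / (2 * (4 * r)) ∧
        2 + E * (1 + Nat.log 2 (Q * b) : ℕ) + E * (1 + Nat.log 2 b : ℕ) +
          Real.log ((Q * b + 1) * (b + 1) : ℕ) < M * Real.log N / (192 * r ^ 2 * κ) ∧
        (R : ℝ) ≤ C * (N : ℝ) ^ J ∧ (2 * (Q * b) * b * q ^ (2 * W) : ℕ) ≤ C * (N : ℝ) ^ J

/-- (IND) the numerical induction -/
def NumInd2 : Prop :=
  ∀ (R : ℕ → ℝ → Prop) (C₁ C₂ : ℝ) (κ J : ℕ), 0 < C₁ → 0 < C₂ →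
    (∀ D h, R D h → 1 ≤ D ∧ 0 < h) →
    (∀ D₀ : ℕ, ∃ c : ℝ, 0 < c ∧ ∀ D h, D ≤ D₀ → R D h → c ≤ h) →
    (∀ D h, R D h → ∃ N : ℝ, 1 ≤ N ∧ N ≤ (C₂ * (Real.log D + 1)) ^ κ ∧
      (1 / (C₁ * N ^ J) ≤ h ∨ ∃ (D' : ℕ) (h' : ℝ), (D' : ℝ) ≤ C₁ * N ^ J ∧
        h' ≤ C₁ * N ^ J * h ∧ R D' h')) →
    ∃ C : ℕ, 1 ≤ C ∧ ∀ D h, R D h → 1 / (C * (1 + Real.log D) ^ C) ≤ h

/-- (SEL) a prime of small norm whose residue characteristic does not divide `D` -/
def PrimeSel2 : Prop :=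
  ∀ κ nb : ℕ, 1 ≤ κ → nb ≠ 0 → ∃ C : ℝ, 0 < C ∧ ∀ (K : Type) [Field K] [NumberField K],
    finrank ℚ K ≤ κ → ∀ D : ℕ, 1 ≤ D →
    ∃ P : Ideal (𝓞 K), P.IsMaximal ∧ P ≠ ⊥ ∧ (nb : 𝓞 K) ∉ P ∧ (D : 𝓞 K) ∉ P ∧
      (P.absNorm : ℝ) ≤ (C * (Real.log D + 1)) ^ κ

/-- (FRB) a pair of conjugates which is a Frobenius pair at many places -/
def FrobType : Prop :=
  ∀ (K : Type) [Field K] [NumberField K] (L : Type) [Field L] [NumberField L] [Algebra K L]
    [IsGalois K L] (P : Ideal (𝓞 K)) [P.IsMaximal], P ≠ ⊥ →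
    ∀ (E : IntermediateField K L) [IsAbelianGalois K E] (x : L) (r j : ℕ),
    (minpoly E x).natDegree ≤ r →
    ∃ τ : Gal(L/K), ∀ σ : Gal(L/K), ∑ v ∈ TP L P, ew K v ≤
      r * ∑ v ∈ TP L P, (open Classical in if FP K v (P.absNorm ^ j) (σ x) (σ (τ x)) then
        ew K v else 0)

/-- (DIS) the absolute values of the elements of the field generated by the conjugates of an
element of bounded degree over a tamely ramified abelian extension -/
def DisLem : Prop :=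
  ∀ (K : Type) [Field K] [NumberField K] (L : Type) [Field L] [NumberField L] [Algebra K L]
    [IsGalois K L] (P : Ideal (𝓞 K)) [P.IsMaximal], P ≠ ⊥ →
    ∀ p : ℕ, p.Prime → (p : 𝓞 K) ∈ P →
    ∀ (E : IntermediateField K L) [IsAbelianGalois K E] (x : L) (r : ℕ),
    E ≤ IntermediateField.adjoin K {x} → (minpoly E x).natDegree ≤ r → r < p →
    (∀ u ∈ TP E P, ¬ p ∣ (mi u).ramificationIdx (𝓞 K)) →
    ∀ w ∈ TP L P, ∀ z ∈ CF K x, w z < 1 →
      w z ≤ Real.exp (-(ew K w / (r.factorial * P.absNorm ^ 2 : ℕ)))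

/-- (INT) degrees over the intersection with an abelian extension -/
def IntLem : Prop :=
  ∀ (K : Type) [Field K] [NumberField K] (L : Type) [Field L] [NumberField L] [Algebra K L]
    [IsGalois K L] (E : IntermediateField K L) [IsAbelianGalois K E] (x : L) (r : ℕ),
    (minpoly E x).natDegree ≤ r →
    (minpoly (E ⊓ IntermediateField.adjoin K {x} : IntermediateField K L) x).natDegree ≤ r

end

end Pool.Agent.N715.AC
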