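import Mathlib
import Pool.Agent.N715.AC.Stm
import Pool.Agent.N715.AB.Last

/-!
Project AC, part BAD (helper545): the conjugates of a small point of large degree are rarely in few
residue classes.
-/

set_option autoImplicit false
set_option linter.unusedSectionVars false

namespace Pool.Agent.N715.AC

namespace BadAux

open NumberField Module
open Pool.Agent.W238.Leh
open Pool.Agent.H627.LP hiding det_ineq det_ineq' local_gain
open Pool.Agent.H627.LR (res res_spec res_eq v_neg wd wd_st exists_int transport_le transport_lt GR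
  GoodK)
open Pool.Agent.H627.LU (Classes)
open Pool.Agent.H420R3 (mi nv TP ew mem_TP nv_pos v_lt_one_iff ew_pos sum_ew)
open scoped Pointwise

noncomputable section

variable {K : Type} [Field K] [NumberField K] {M : Type} [Field M] [NumberField M] [Algebra K M]
  {v : FinitePlace M}

/-- **few residue classes** for the points which are not good for `f` -/
theorem classes_bad {P : Ideal (𝓞 K)} [P.IsMaximal] (hP0 : P ≠ ⊥) (hv : v ∈ TP M P)
    {f : Polynomial K} (hf : PPrim P f) {t : ℕ} (ht : f.natDegree + 1 ≤ t) {g : ℝ}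
    {ι : Type} [Fintype ι] [DecidableEq ι] (x : ι → M) (Bad : Finset ι)
    (hBad : ∀ i, i ∉ Bad → v (x i) ≤ 1 → v (Polynomial.aeval (x i) f) < 1)
    (hx1 : ∀ i j, v (x i - x j) < 1 → v (x i - x j) ≤ Real.exp (-g))
    (hx2 : ∀ i j, v ((x i)⁻¹ - (x j)⁻¹) < 1 → v ((x i)⁻¹ - (x j)⁻¹) ≤ Real.exp (-g)) :
    Classes v (fun i => ![x i, 1]) Bad t g := by
  classical
  have hlo := H420R3.liesOver_of_mem hP0 hv
  choose c hc using hf.1
  obtain ⟨n₀, a₀, ha₀, hn₀⟩ := hf.2
  have hca : c n₀ = a₀ := RingOfIntegers.coe_injective ((hc n₀).symm.trans hn₀)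
  let : Field (𝓞 M ⧸ mi v) := Ideal.Quotient.field (mi v)
  let cm : ℕ → 𝓞 M := fun n => algebraMap (𝓞 K) (𝓞 M) (c n)
  have hcm : ∀ n, ((cm n : 𝓞 M) : M) = algebraMap K M (f.coeff n) := by
    intro n
    rw [hc]
    rfl
  set H : Polynomial (𝓞 M ⧸ mi v) := ∑ n ∈ Finset.range (f.natDegree + 1),
    Polynomial.C (Ideal.Quotient.mk (mi v) (cm n)) * Polynomial.X ^ n with hH
  have hHdeg : H.natDegree ≤ f.natDegree := by
    refine Polynomial.natDegree_sum_le_of_forall_le _ _ fun n hn => ?_
    refine (Polynomial.natDegree_C_mul_X_pow_le _ _).trans ?_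
    exact Nat.lt_succ_iff.mp (Finset.mem_range.mp hn)
  have hn₀' : n₀ ≤ f.natDegree := by
    apply Polynomial.le_natDegree_of_ne_zero
    rw [hn₀]
    intro h0
    apply ha₀
    have : a₀ = 0 :=
      RingOfIntegers.coe_injective (h0.trans (map_zero (algebraMap (𝓞 K) K)).symm)
    rw [this]
    exact P.zero_mem
  have hH0 : H ≠ 0 := by
    intro h0
    have h1 : H.coeff n₀ = Ideal.Quotient.mk (mi v) (cm n₀) := by
      rw [hH, Polynomial.finsetSum_coeff, Finset.sum_eq_single n₀]
      · rw [Polynomial.coeff_C_mul_X_pow, if_pos rfl]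
      · intro n hn hne
        rw [Polynomial.coeff_C_mul_X_pow, if_neg (Ne.symm hne)]
      · intro h
        exact absurd (Finset.mem_range.mpr (Nat.lt_succ_of_le hn₀')) h
    rw [h0, Polynomial.coeff_zero] at h1
    have h2 : cm n₀ ∈ mi v := Ideal.Quotient.eq_zero_iff_mem.mp h1.symm
    apply ha₀
    rw [hlo.over, ← hca]
    exact h2
  refine ⟨Option (𝓞 M ⧸ mi v), fun i => if v (x i) ≤ 1 then some (res v (x i)) else none,
    insert none (H.roots.toFinset.image some), ?_, ?_, ?_⟩
  · refine (Finset.card_insert_le _ _).trans ?_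
    have h1 := (Finset.card_image_le (s := H.roots.toFinset) (f := some)).trans
      ((Multiset.toFinset_card_le _).trans ((Polynomial.card_roots' H).trans hHdeg))
    omega
  · intro i hib
    change (if v (x i) ≤ 1 then some (res v (x i)) else none) ∈ _
    by_cases hi : v (x i) ≤ 1
    · rw [if_pos hi]
      apply Finset.mem_insert_of_mem
      apply Finset.mem_image_of_mem
      rw [Multiset.mem_toFinset, Polynomial.mem_roots hH0, Polynomial.IsRoot]
      obtain ⟨z, hz, hz'⟩ := res_spec v hi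
      rw [hz']
      have h1 : H.eval (Ideal.Quotient.mk (mi v) z) = Ideal.Quotient.mk (mi v)
          (∑ n ∈ Finset.range (f.natDegree + 1), cm n * z ^ n) := by
        rw [hH, Polynomial.eval_finsetSum, map_sum]
        refine Finset.sum_congr rfl fun n _ => ?_
        rw [Polynomial.eval_mul, Polynomial.eval_C, Polynomial.eval_pow, Polynomial.eval_X,
          map_mul, map_pow]
      rw [h1, Ideal.Quotient.eq_zero_iff_mem, ← v_lt_one_iff]
      have hz1 : v (z : M) ≤ 1 := H420R3.v_le_one v _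
      have h2 := hBad i hib hi
      have h3 : Polynomial.aeval (x i) f =
          ∑ n ∈ Finset.range (f.natDegree + 1), (cm n : M) * x i ^ n := by
        rw [Polynomial.aeval_eq_sum_range]
        refine Finset.sum_congr rfl fun n _ => ?_
        rw [hcm, Algebra.smul_def]
      have h5 : ((∑ n ∈ Finset.range (f.natDegree + 1), cm n * z ^ n : 𝓞 M) : M) =
          Polynomial.aeval (x i) f - ∑ n ∈ Finset.range (f.natDegree + 1),
            (cm n : M) * (x i ^ n - (z : M) ^ n) := by
        rw [h3, ← Finset.sum_sub_distrib]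
        push_cast
        exact Finset.sum_congr rfl fun n _ => by ring
      rw [h5]
      refine lt_of_le_of_lt (v_sub_le v _ _) (max_lt h2 ?_)
      refine R829.BG.v_sum_lt _ _ fun n _ => ?_
      rw [map_mul]
      exact lt_of_le_of_lt (mul_le_of_le_one_left (v_nonneg v _) (H420R3.v_le_one v _))
        (R829.BG.pow_close hi hz1 hz n)
    · rw [if_neg hi]
      exact Finset.mem_insert_self _ _
  · intro i i' _ _ hκ
    have hηpos : 0 < Real.exp (-g) := Real.exp_pos _
    intro s t
    refine (wd_st (![x i, 1]) (![x i', 1]) s t).trans ?_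
    have hwd : wd ![x i, 1] ![x i', 1] = x i - x i' := by
      simp [wd]
    rw [hwd]
    have hn : ∀ j, v (x j) ≤ nmf v ![x j, 1] := fun j => le_nmf v ![x j, 1] 0
    have hn1 : ∀ j, 1 ≤ nmf v ![x j, 1] := fun j => by
      have h1 := le_nmf v ![x j, 1] 1
      simpa using h1
    by_cases hi : v (x i) ≤ 1
    · by_cases hi' : v (x i') ≤ 1
      · simp only [if_pos hi, if_pos hi', Option.some.injEq] at hκ
        have h1 := hx1 i i' (res_eq v hi hi' hκ)
        refine h1.trans ?_
        have h2 : 1 ≤ nmf v ![x i, 1] * nmf v ![x i', 1] := one_le_mul_of_one_le_of_one_le (hn1 i)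
          (hn1 i')
        exact le_mul_of_one_le_right hηpos.le h2
      · simp [if_pos hi, if_neg hi'] at hκ
    · by_cases hi' : v (x i') ≤ 1
      · simp [if_neg hi, if_pos hi'] at hκ
      · push Not at hi hi'
        have hx0 : x i ≠ 0 := by
          intro h0
          rw [h0, map_zero] at hi
          linarith
        have hx0' : x i' ≠ 0 := by
          intro h0
          rw [h0, map_zero] at hi'
          linarith
        have h1 : x i - x i' = (x i * x i') * ((x i')⁻¹ - (x i)⁻¹) := by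
          field_simp
        have h2 : v ((x i')⁻¹ - (x i)⁻¹) < 1 := by
          refine lt_of_le_of_lt (v_sub_le v _ _) (max_lt ?_ ?_)
          · rw [map_inv₀]
            exact inv_lt_one_of_one_lt₀ hi'
          · rw [map_inv₀]
            exact inv_lt_one_of_one_lt₀ hi
        have h3 := hx2 i' i h2
        rw [h1, map_mul, map_mul, mul_comm]
        refine mul_le_mul h3 (mul_le_mul (hn i) (hn i') (v_nonneg v _) (nmf_nonneg v _)) ?_
          hηpos.le
        exact mul_nonneg (v_nonneg v _) (v_nonneg v _)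

/-- transport of the good places -/
theorem sum_transport [IsGalois K M] {P : Ideal (𝓞 K)} [P.IsMaximal] (hP0 : P ≠ ⊥)
    (σ : Gal(M/K)) (x : M) (f : Polynomial K) (e : ℝ) :
    ∑ v ∈ TP M P, (open Classical in if v x ≤ 1 ∧ v (Polynomial.aeval x f) = 1 then 0 else
        ew K v / e) =
      ∑ v ∈ TP M P, (open Classical in if v (σ x) ≤ 1 ∧ v (Polynomial.aeval (σ x) f) = 1 then 0
        else ew K v / e) := by
  classical
  have hex : ∀ w, w ∈ TP M P → ∃ v ∈ TP M P, mi v = σ • mi w := fun w hw =>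
    exists_place_smul hP0 hw σ
  obtain ⟨v₀, _⟩ := H420R3.TP_nonempty (M := M) (P := P) hP0
  have hnon : Nonempty (FinitePlace M) := ⟨v₀⟩
  choose! φ hφT hφ using hex
  have hinj : ∀ a ∈ TP M P, ∀ b ∈ TP M P, φ a = φ b → a = b := by
    intro a ha b hb hab
    have h1 := hφ a ha
    rw [hab, hφ b hb] at h1
    have h2 : mi b = mi a := smul_left_cancel σ h1
    apply FinitePlace.maximalIdeal_injective
    exact (IsDedekindDomain.HeightOneSpectrum.ext h2).symm
  have hewc : ∀ v ∈ TP M P, ∀ w ∈ TP M P, ew K v = ew K w := by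
    intro v hv w hw
    have hlov := H420R3.liesOver_of_mem hP0 hv
    have hlow := H420R3.liesOver_of_mem hP0 hw
    rw [ew_eq hP0 hv, ew_eq hP0 hw,
      ← Ideal.ramificationIdxIn_eq_ramificationIdx P (mi v) Gal(M/K),
      ← Ideal.ramificationIdxIn_eq_ramificationIdx P (mi w) Gal(M/K),
      ← Ideal.inertiaDegIn_eq_inertiaDeg P (mi v) Gal(M/K),
      ← Ideal.inertiaDegIn_eq_inertiaDeg P (mi w) Gal(M/K)]
  have himg : (TP M P).image φ = TP M P := by
    apply Finset.eq_of_subset_of_card_le
    · intro w hw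
      obtain ⟨v, hv, rfl⟩ := Finset.mem_image.mp hw
      exact hφT v hv
    · rw [Finset.card_image_of_injOn]
      intro a ha b hb hab
      exact hinj a ha b hb hab
  conv_rhs => rw [← himg]
  rw [Finset.sum_image fun a ha b hb h => hinj a ha b hb h]
  refine Finset.sum_congr rfl fun v hv => ?_
  have hmi := hφ v hv
  have hmi' : mi v = σ⁻¹ • mi (φ v) := by rw [hmi, inv_smul_smul]
  have hss : ∀ y : M, σ⁻¹ (σ y) = y := by
    intro y
    rw [← AlgEquiv.mul_apply, inv_mul_cancel]
    rfl
  have h1 : ∀ y : M, v y ≤ 1 ↔ φ v (σ y) ≤ 1 := by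
    intro y
    refine ⟨fun h => transport_le hmi h, fun h => ?_⟩
    have := transport_le hmi' h
    rwa [hss] at this
  have h2 : ∀ y : M, v y < 1 ↔ φ v (σ y) < 1 := by
    intro y
    refine ⟨fun h => transport_lt hmi h, fun h => ?_⟩
    have := transport_lt hmi' h
    rwa [hss] at this
  have h3 : ∀ y : M, v y = 1 ↔ φ v (σ y) = 1 := by
    intro y
    constructor
    · intro h
      apply le_antisymm ((h1 y).1 h.le)
      by_contra hcon
      push Not at hcon
      exact absurd ((h2 y).2 hcon) (by rw [h]; exact lt_irrefl _)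
    · intro h
      apply le_antisymm ((h1 y).2 h.le)
      by_contra hcon
      push Not at hcon
      exact absurd ((h2 y).1 hcon) (by rw [h]; exact lt_irrefl _)
  have h4 : Polynomial.aeval (σ x) f = σ (Polynomial.aeval x f) :=
    Polynomial.aeval_algHom_apply (σ : M →ₐ[K] M) x f
  rw [hewc v hv (φ v) (hφT v hv), h4]
  have h5 : (v x ≤ 1 ∧ v (Polynomial.aeval x f) = 1) ↔
      (φ v (σ x) ≤ 1 ∧ φ v (σ (Polynomial.aeval x f)) = 1) := by
    rw [h1, h3]
  simp only [h5]

end

end BadAux

open NumberField Module Polynomial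
open Pool.Agent.W238.Leh (act canH Bds hC)
open Pool.Agent.H627.LR (GR GoodK)
open Pool.Agent.H420R3 (mi nv TP ew)

noncomputable section

/-- (BAD) the conjugates of a small point of large degree are rarely in few residue classes -/
theorem badLem : BadLem := by
  classical
  intro K _ _ L _ _ _ _ F q c a A hB hq hF hc P _ hP0 hG x e he hCF ω hω0 hω u t s R hu hR f hf
    hft hRdeg hsmall
  have hfd : FiniteDimensional K L := Module.Finite.of_restrictScalars_finite ℚ K L
  by_contra hcon
  push Not at hcon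
  obtain ⟨ι, hι⟩ : ∃ ι : Finset L, ι = Finset.univ.image (fun σ : Gal(L/K) => σ x) := ⟨_, rfl⟩
  have hcard : Fintype.card ι = (minpoly K x).natDegree := by
    rw [Fintype.card_coe, hι]
    exact AB.last_card x
  have hmem : ∀ i : ι, ∃ σ : Gal(L/K), σ x = i := by
    rintro ⟨i, h1⟩
    have h2 : i ∈ Finset.univ.image (fun σ : Gal(L/K) => σ x) := hι ▸ h1
    obtain ⟨σ, _, h3⟩ := Finset.mem_image.1 h2
    exact ⟨σ, h3⟩
  have hx1 : (![x, 1] : Fin (1 + 1) → L) ≠ 0 := by
    intro h0
    have := congrFun h0 1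
    simp at this
  have he0 : (0 : ℝ) < e := by exact_mod_cast he
  have hu0 : (0 : ℝ) < u := by exact_mod_cast hu
  -- the points
  have hp : ∀ i : ι, (![(i : L), 1] : Fin (1 + 1) → L) ≠ 0 := by
    intro i h0
    have := congrFun h0 1
    simp at this
  have hp1 : ∀ i : ι, (![(i : L), 1] : Fin (1 + 1) → L) 1 = 1 := fun i => rfl
  have hinj' : Function.Injective (fun i : ι => (![(i : L), 1] : Fin (1 + 1) → L)) := by
    intro i j hij
    exact Subtype.ext (congrFun hij 0)
  have hH : ∀ i : ι, canH F q ![(i : L), 1] ≤ canH F q ![x, 1] := by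
    intro i
    obtain ⟨σ, hσ⟩ := hmem i
    have h1 := Pool.Agent.R829.DL.canH_hom (σ : L →ₐ[K] L) F q (![x, 1] : Fin (1 + 1) → L)
    have h2 : (fun j => (σ : L →ₐ[K] L) ((![x, 1] : Fin (1 + 1) → L) j)) = ![(i : L), 1] := by
      funext j
      fin_cases j
      · exact hσ
      · exact map_one σ
    rw [h2] at h1
    exact h1.le
  -- the field of the conjugates
  have hCFm : ∀ i : ι, (i : L) ∈ CF K x := by
    intro i
    obtain ⟨σ, hσ⟩ := hmem i
    exact IntermediateField.subset_adjoin K _ ⟨σ, hσ⟩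
  -- the bad points
  set Bad : FinitePlace L → Finset ι := fun v =>
    Finset.univ.filter fun i => v (i : L) ≤ 1 ∧ v (aeval (i : L) f) = 1 with hBaddef
  have hcl : ∀ v ∈ TP L P, H627.LU.Classes v (fun i : ι => ![(i : L), 1]) (Bad v) t
      (ew K v / e) := by
    intro v hv
    refine BadAux.classes_bad hP0 hv hf hft (fun i : ι => (i : L)) (Bad v) ?_ ?_ ?_
    · intro i hi hi1
      have h1 : v (aeval (i : L) f) ≤ 1 := by
        rw [Polynomial.aeval_eq_sum_range]
        refine Finset.sum_induction _ (fun y => v y ≤ 1) ?_ ?_ ?_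
        · intro a b ha hb
          exact (FinitePlace.add_le v _ _).trans (max_le ha hb)
        · rw [map_zero]
          exact zero_le_one
        · intro n _
          obtain ⟨b, hb⟩ := hf.1 n
          rw [hb, Algebra.smul_def, map_mul]
          refine mul_le_one₀ (H420R3.v_le_one v (algebraMap (𝓞 K) (𝓞 L) b)) (v.1.nonneg _) ?_
          rw [map_pow]
          exact pow_le_one₀ (v.1.nonneg _) hi1
      refine lt_of_le_of_ne h1 fun h2 => hi ?_
      rw [hBaddef]
      exact Finset.mem_filter.mpr ⟨Finset.mem_univ _, hi1, h2⟩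
    · intro i j h
      exact hCF v hv _ (sub_mem (hCFm i) (hCFm j)) h
    · intro i j h
      exact hCF v hv _ (sub_mem (inv_mem (hCFm i)) (inv_mem (hCFm j))) h
  -- the sum
  set w₀ : ℝ := ∑ v ∈ TP L P, (if v x ≤ 1 ∧ v (aeval x f) = 1 then 0 else ew K v / e) with hw₀
  have hw : ∀ i : ι, w₀ ≤ ∑ v ∈ TP L P, if i ∉ Bad v then ew K v / e else 0 := by
    intro i
    obtain ⟨σ, hσ⟩ := hmem i
    have h1 := BadAux.sum_transport hP0 σ x f (e : ℝ)
    rw [hw₀]
    refine le_of_eq ?_
    rw [h1]
    refine Finset.sum_congr rfl fun v _ => ?_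
    rw [hσ]
    have h2 : i ∈ Bad v ↔ (v (i : L) ≤ 1 ∧ v (aeval (i : L) f) = 1) := by
      rw [hBaddef, Finset.mem_filter]
      simp
    by_cases h3 : v (i : L) ≤ 1 ∧ v (aeval (i : L) f) = 1
    · rw [if_pos h3, if_neg (not_not.mpr (h2.mpr h3))]
    · rw [if_neg h3, if_pos (fun h => h3 (h2.mp h))]
  have ht : 1 ≤ t := by omega
  have hR1 : 1 ≤ R := by
    rw [hR]
    have : 0 < 2 * u * t * (s + 1) := by positivity
    omega
  have hfr : finrank L (Pool.Agent.W238.Leh.EL K
      (fun i : ι => (![(i : L), 1] : Fin (1 + 1) → L)) (R - 1)) = R := by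
    apply le_antisymm
    · have := Pool.Agent.W238.Leh.finrank_EL_le (K := K) hp1 (R - 1)
      rw [pow_one] at this
      omega
    · have := Pool.Agent.W238.Leh.le_finrank_EL (K := K) hp1 hinj' (R - 1)
      rw [hcard] at this
      omega
  have hfs : finrank L (Pool.Agent.W238.Leh.EL K
      (fun i : ι => (![(i : L), 1] : Fin (1 + 1) → L)) (1 * s)) ≤ s + 1 := by
    have := Pool.Agent.W238.Leh.finrank_EL_le (K := K) hp1 (1 * s)
    rw [pow_one, one_mul] at this
    rw [one_mul]
    exact this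
  have hmain := Pool.Agent.H627.LU.hilb_ineq hB hq hF hc hp (TP L P)
    (fun v hv => hG.gr hP0 (by omega) hv) (fun v => ew K v / e)
    (fun v _ => div_pos (H420R3.ew_pos v) he0) Bad hcl hw hH (R - 1) s (by rw [hfr]; exact hR1)
  rw [hfr] at hmain
  obtain ⟨W, hW⟩ : ∃ W, W = ∑ v ∈ TP L P, ew K v / (e : ℝ) := ⟨_, rfl⟩
  rw [← hW] at hmain
  have hWe : W * e = ∑ v ∈ TP L P, ew K v := by
    rw [hW, ← Finset.sum_div]
    field_simp
  have hw₀e : w₀ * e = ∑ v ∈ TP L P, (if v x ≤ 1 ∧ v (aeval x f) = 1 then 0 else ew K v) := by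
    rw [hw₀, Finset.sum_mul]
    refine Finset.sum_congr rfl fun v _ => ?_
    split_ifs
    · simp
    · field_simp
  have hWlt : W < u * w₀ := by
    have h1 : W * e < (u * w₀) * e := by
      rw [hWe, mul_assoc, hw₀e]
      exact hcon
    exact lt_of_mul_lt_mul_right h1 he0.le
  have hD : (0 : ℝ) < finrank ℚ L := by exact_mod_cast Module.finrank_pos
  have hWω : (finrank ℚ L : ℝ) * ω ≤ W := by
    have h1 : (finrank ℚ L : ℝ) * ω * e ≤ W * e := by
      rw [hWe, H420R3.sum_ew hP0, ← Module.finrank_mul_finrank ℚ K L]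
      push_cast
      have h2 := mul_le_mul_of_nonneg_left hω (Nat.cast_nonneg (α := ℝ) (finrank K L))
      nlinarith
    exact le_of_mul_le_mul_right h1 he0
  have hW0 : 0 < W := lt_of_lt_of_le (mul_pos hD hω0) hWω
  have hR0 : (0 : ℝ) < R := by exact_mod_cast hR1
  have hs0 : (0 : ℝ) ≤ s := Nat.cast_nonneg _
  have hfs' : ((finrank L (Pool.Agent.W238.Leh.EL K
      (fun i : ι => (![(i : L), 1] : Fin (1 + 1) → L)) (1 * s)) : ℕ) : ℝ) ≤
      s + 1 := by exact_mod_cast hfs
  have ht0 : (0 : ℝ) < t := by exact_mod_cast ht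
  have hRr : (R : ℝ) = 2 * u * t * (s + 1) := by
    rw [hR]
    push_cast
    ring
  -- the main inequality
  have h5 : (finrank ℚ L : ℝ) * (R * (s * ω / (2 * u))) ≤ s * (R * w₀ - W * (t * (finrank L
      (Pool.Agent.W238.Leh.EL K (fun i : ι => (![(i : L), 1] : Fin (1 + 1) → L)) (1 * s)) : ℕ))) := by
    have h6 : (t : ℝ) * (finrank L (Pool.Agent.W238.Leh.EL K (fun i : ι =>
      (![(i : L), 1] : Fin (1 + 1) → L)) (1 * s)) : ℕ) ≤ R / (2 * u) := by
      rw [le_div_iff₀ (by positivity), hRr]
      have := mul_le_mul_of_nonneg_left hfs' ht0.le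
      nlinarith
    have h7 := mul_le_mul_of_nonneg_left h6 hW0.le
    have h8 : R * (W / u) ≤ R * w₀ := by
      apply mul_le_mul_of_nonneg_left _ hR0.le
      rw [div_le_iff₀ hu0]
      linarith
    have h9 : R * (W / u) - W * (R / (2 * u)) = W * R / (2 * u) := by
      field_simp
      ring
    have h10 : (finrank ℚ L : ℝ) * ω * R / (2 * u) ≤ W * R / (2 * u) := by
      gcongr
    have h11 : (finrank ℚ L : ℝ) * (R * (s * ω / (2 * u))) =
        s * ((finrank ℚ L : ℝ) * ω * R / (2 * u)) := by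
      field_simp
    rw [h11]
    apply mul_le_mul_of_nonneg_left _ hs0
    linarith
  have h7 := h5.trans hmain
  have h8 := le_of_mul_le_mul_left h7 hD
  have h9 := le_of_mul_le_mul_left h8 hR0
  have h10 : (Nat.log 2 (R - 1) : ℝ) ≤ Nat.log 2 R := by
    exact_mod_cast Nat.log_mono_right (by omega)
  have hE : 0 ≤ hC A a * ((c + q : ℕ) : ℝ) := mul_nonneg hB.hC_nonneg (Nat.cast_nonneg _)
  have h11 : hC A a * (((c + q : ℕ) : ℝ) * ((1 + Nat.log 2 (R - 1) : ℕ) : ℝ)) ≤
      hC A a * (c + q : ℕ) * (1 + Nat.log 2 R : ℕ) := by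
    rw [← mul_assoc]
    apply mul_le_mul_of_nonneg_left _ hE
    push_cast
    linarith
  have hH0 := hB.canH_nonneg hq hx1
  have h12 : ((R - 1 : ℕ) : ℝ) * canH F q ![x, 1] ≤ R * canH F q ![x, 1] := by
    apply mul_le_mul_of_nonneg_right _ hH0
    exact_mod_cast Nat.sub_le _ _
  linarith

end

end Pool.Agent.N715.AC
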