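import Mathlib
import Pool.Agent.N715.AC.Stm
import Pool.Agent.R829.BH.Tame

/-!
The absolute values of the elements of the field generated by the conjugates of an element of
bounded degree over a tamely ramified abelian extension.
-/

set_option autoImplicit false
set_option linter.unusedSectionVars false

namespace Pool.Agent.N715.AC


open NumberField Module Polynomial
open Pool.Agent.W238.Leh
open Pool.Agent.H627.LP hiding det_ineq det_ineq' local_gain
open Pool.Agent.H627.LR (res res_spec res_eq)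
open Pool.Agent.H627.LU (exists_H')
open Pool.Agent.H420R3 (mi nv TP ew mem_TP v_smul nv_pos v_fixed_le v_lt_one_iff card_inertia)
open Pool.Agent.R829.BG (mul_close)
open Pool.Agent.R829.BH
open scoped Pointwise

noncomputable section

namespace Dis

section Per

variable {K L : Type} [Field K] [Field L] [Algebra K L] [FiniteDimensional K L]

lemma per_pos (x : L) (σ : Gal(L/K)) : 0 < Function.minimalPeriod σ x := by
  have hper : Function.IsPeriodicPt σ (orderOf σ) x := by
    have h1 : (σ ^ orderOf σ) x = x := by rw [pow_orderOf_eq_one]; rfl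
    have h2 : ∀ n : ℕ, (⇑σ)^[n] x = (σ ^ n) x := by
      intro n
      induction n with
      | zero => rfl
      | succ n ih => rw [Function.iterate_succ_apply', ih, pow_succ', AlgEquiv.mul_apply]
    change (⇑σ)^[orderOf σ] x = x
    rw [h2, h1]
  exact hper.minimalPeriod_pos (orderOf_pos σ)

lemma iter_eq (x : L) (σ : Gal(L/K)) (n : ℕ) : (⇑σ)^[n] x = (σ ^ n) x := by
  induction n with
  | zero => rfl
  | succ n ih => rw [Function.iterate_succ_apply', ih, pow_succ', AlgEquiv.mul_apply]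

lemma per_le (E : IntermediateField K L) (x : L) {σ : Gal(L/K)} (hσ : ∀ e ∈ E, σ e = e) :
    Function.minimalPeriod σ x ≤ (minpoly E x).natDegree := by
  classical
  have hint : IsIntegral E x := Algebra.IsIntegral.isIntegral x
  have hroot : ∀ y : L, aeval y (minpoly E x) = 0 → aeval (σ y) (minpoly E x) = 0 := by
    intro y hy
    have h1 := Polynomial.hom_eval₂ (minpoly E x) (algebraMap E L) (σ : L →+* L) y
    have h2 : (σ : L →+* L).comp (algebraMap E L) = algebraMap E L := by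
      ext e
      exact hσ e e.2
    rw [h2] at h1
    rw [aeval_def] at hy ⊢
    rw [hy, map_zero] at h1
    exact h1.symm
  have hroots : ∀ n : ℕ, aeval ((⇑σ)^[n] x) (minpoly E x) = 0 := by
    intro n
    induction n with
    | zero => exact minpoly.aeval E x
    | succ n ih =>
      rw [Function.iterate_succ_apply']
      exact hroot _ ih
  set m := Function.minimalPeriod σ x with hm
  have hne : minpoly E x ≠ 0 := minpoly.ne_zero hint
  have h1 : ((Finset.range m).image fun i => (⇑σ)^[i] x).card = m := by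
    rw [Finset.card_image_of_injOn, Finset.card_range]
    intro i hi j hj hij
    refine Function.iterate_injOn_Iio_minimalPeriod ?_ ?_ hij
    · simpa using hi
    · simpa using hj
  rw [← h1]
  have h2 : ((Finset.range m).image fun i => (⇑σ)^[i] x) ⊆ ((minpoly E x).aroots L).toFinset := by
    intro y hy
    obtain ⟨i, _, rfl⟩ := Finset.mem_image.mp hy
    rw [Multiset.mem_toFinset, mem_aroots]
    exact ⟨hne, hroots i⟩
  refine (Finset.card_le_card h2).trans ((Multiset.toFinset_card_le _).trans ?_)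
  refine (Polynomial.card_roots' _).trans ?_
  exact Polynomial.natDegree_map_le

lemma pow_fact (E : IntermediateField K L) (x : L) {r : ℕ} (hr : (minpoly E x).natDegree ≤ r)
    {σ : Gal(L/K)} (hσ : ∀ e ∈ E, σ e = e) : (σ ^ r.factorial) x = x := by
  have h1 := per_le E x hσ
  have h2 := per_pos x σ
  have h3 : Function.minimalPeriod σ x ∣ r.factorial := Nat.dvd_factorial h2 (h1.trans hr)
  have h4 := Function.isPeriodicPt_iff_minimalPeriod_dvd.mpr h3
  rw [← iter_eq]
  exact h4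

lemma fix_of (E : IntermediateField K L) (x : L) {r p : ℕ} (hr : (minpoly E x).natDegree ≤ r)
    (hrp : r < p) {σ : Gal(L/K)} (hσ : ∀ e ∈ E, σ e = e)
    (hp : ∀ l : ℕ, l.Prime → l ∣ orderOf σ → l = p) : σ x = x := by
  have h1 := per_le E x hσ
  have h2 := per_pos x σ
  have h3 : Function.minimalPeriod σ x ∣ orderOf σ := by
    apply Function.IsPeriodicPt.minimalPeriod_dvd
    change (⇑σ)^[orderOf σ] x = x
    rw [iter_eq, pow_orderOf_eq_one]
    rfl
  by_contra hne
  have h4 : Function.minimalPeriod σ x ≠ 1 := fun h =>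
    hne (Function.minimalPeriod_eq_one_iff_isFixedPt.mp h)
  obtain ⟨l, hl, hl'⟩ := Nat.exists_prime_and_dvd h4
  have h5 := hp l hl (hl'.trans h3)
  have h6 := Nat.le_of_dvd h2 hl'
  omega

lemma conj_fix {E : IntermediateField K L} [IsGalois K E] {σ : Gal(L/K)} (hσ : ∀ e ∈ E, σ e = e)
    (ρ : Gal(L/K)) : ∀ e ∈ E, (ρ⁻¹ * σ * ρ) e = e := by
  intro e he
  have h1 : ρ e ∈ E := by
    have h2 : (ρ.restrictNormal E ⟨e, he⟩ : L) = ρ e :=
      AlgEquiv.restrictNormal_commutes ρ E ⟨e, he⟩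
    rw [← h2]
    exact (ρ.restrictNormal E ⟨e, he⟩).2
  rw [AlgEquiv.mul_apply, AlgEquiv.mul_apply, hσ _ h1, ← AlgEquiv.mul_apply, inv_mul_cancel]
  rfl

lemma pow_fact_conj (E : IntermediateField K L) [IsGalois K E] (x : L) {r : ℕ}
    (hr : (minpoly E x).natDegree ≤ r) {σ : Gal(L/K)} (hσ : ∀ e ∈ E, σ e = e) (ρ : Gal(L/K)) :
    (σ ^ r.factorial) (ρ x) = ρ x := by
  have h1 := pow_fact E x hr (conj_fix hσ ρ)
  have h2 : (ρ⁻¹ * σ * ρ) ^ r.factorial = ρ⁻¹ * σ ^ r.factorial * ρ := by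
    have := conj_pow (i := r.factorial) (a := ρ⁻¹) (b := σ)
    rwa [inv_inv] at this
  rw [h2] at h1
  have h3 := congrArg (fun y => ρ y) h1
  simp only [AlgEquiv.mul_apply] at h3
  rw [← AlgEquiv.mul_apply ρ ρ⁻¹, mul_inv_cancel] at h3
  exact h3

lemma fix_of_conj (E : IntermediateField K L) [IsGalois K E] (x : L) {r p : ℕ}
    (hr : (minpoly E x).natDegree ≤ r) (hrp : r < p) {σ : Gal(L/K)} (hσ : ∀ e ∈ E, σ e = e)
    (hp : ∀ l : ℕ, l.Prime → l ∣ orderOf σ → l = p) (ρ : Gal(L/K)) : σ (ρ x) = ρ x := by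
  have h0 : orderOf (ρ⁻¹ * σ * ρ) = orderOf σ := by
    have := MulEquiv.orderOf_eq (MulAut.conj ρ⁻¹) σ
    rwa [MulAut.conj_apply, inv_inv] at this
  have h1 := fix_of E x hr hrp (conj_fix hσ ρ) (by rw [h0]; exact hp)
  have h3 := congrArg (fun y => ρ y) h1
  simp only [AlgEquiv.mul_apply] at h3
  rw [← AlgEquiv.mul_apply ρ ρ⁻¹, mul_inv_cancel] at h3
  exact h3

end Per

/-- a group with a homomorphism to a field whose kernel lies in `N`, all powers `k` in `N` -/
lemma card_le_of_hom {G F : Type} [Group G] [Finite G] [CommRing F] [IsDomain F]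
    (S N : Subgroup G) (f : S →* F)
    (k : ℕ) (hk : 1 ≤ k) (hf : ∀ δ : S, f δ = 1 → (δ : G) ∈ N)
    (hpow : ∀ δ ∈ S, δ ^ k ∈ N) : Nat.card S ≤ k * Nat.card (S ⊓ N : Subgroup G) := by
  classical
  have hfin : Finite f.toHomUnits.range := (Set.finite_range f.toHomUnits).to_subtype
  obtain ⟨⟨γ, hγm⟩, hγ⟩ := (inferInstance : IsCyclic f.toHomUnits.range).exists_generator
  obtain ⟨δ₁, hδ₁⟩ := hγm
  have hz : ∀ δ : S, ∃ j : ℤ, f.toHomUnits δ = f.toHomUnits δ₁ ^ j := by
    intro δ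
    obtain ⟨j, hj⟩ := hγ ⟨f.toHomUnits δ, ⟨δ, rfl⟩⟩
    refine ⟨j, ?_⟩
    have h1 := congrArg Subtype.val hj
    simp only [SubgroupClass.coe_zpow] at h1
    rw [hδ₁, h1]
  have hk0 : (k : ℤ) ≠ 0 := by positivity
  have key : ∀ δ : S, ∃ (j : Fin k) (n : (S ⊓ N : Subgroup G)),
      (δ : G) = (δ₁ : G) ^ (j : ℕ) * (n : G) := by
    intro δ
    obtain ⟨j, hj⟩ := hz δ
    have h0 : 0 ≤ j % k := Int.emod_nonneg _ hk0
    have h1 : j % k < k := Int.emod_lt_of_pos _ (by omega)
    refine ⟨⟨(j % k).toNat, by omega⟩, ⟨((δ₁ : G) ^ (j % k).toNat)⁻¹ * (δ : G), ?_, ?_⟩, ?_⟩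
    · exact S.mul_mem (S.inv_mem (S.pow_mem δ₁.2 _)) δ.2
    · have h2 : f (δ₁ ^ (-j) * δ) = 1 := by
        have h3 : f.toHomUnits (δ₁ ^ (-j) * δ) = 1 := by
          rw [map_mul, map_zpow, hj, ← zpow_add, neg_add_cancel, zpow_zero]
        have h4 := congrArg Units.val h3
        exact h4
      have h3 := hf _ h2
      have h4 : ((δ₁ ^ (-j) * δ : S) : G) = (δ₁ : G) ^ (-j) * (δ : G) := by push_cast; rfl
      rw [h4] at h3
      have h5 : ((δ₁ : G) ^ (j % k).toNat)⁻¹ * (δ : G) =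
          ((δ₁ : G) ^ k) ^ (j / k) * ((δ₁ : G) ^ (-j) * (δ : G)) := by
        rw [← mul_assoc, ← zpow_natCast, ← zpow_natCast, ← zpow_mul, ← zpow_add, ← zpow_neg,
          Int.toNat_of_nonneg h0]
        congr 2
        have := Int.mul_ediv_add_emod j k
        linarith
      rw [h5]
      exact N.mul_mem (N.zpow_mem (hpow _ δ₁.2) _) h3
    · simp
  choose a b hab using key
  have hinj : Function.Injective fun δ : S => (a δ, b δ) := by
    intro δ δ' h
    have h1 : a δ = a δ' := congrArg Prod.fst h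
    have h2 : b δ = b δ' := congrArg Prod.snd h
    apply Subtype.ext
    rw [hab δ, hab δ', h1, h2]
  have h1 := Nat.card_le_card_of_injective _ hinj
  rwa [Nat.card_prod, Nat.card_fin] at h1

section Res

variable {M : Type} [Field M] [NumberField M] {v : FinitePlace M}

lemma res_of_close {a : M} (ha : v a ≤ 1) {c : 𝓞 M} (h : v (a - c) < 1) :
    res v a = Ideal.Quotient.mk (mi v) c := by
  obtain ⟨b, hb, hb'⟩ := res_spec v ha
  rw [hb', Ideal.Quotient.eq, ← v_lt_one_iff]
  have h1 : ((b - c : 𝓞 M) : M) = (a - c) - (a - b) := by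
    push_cast
    ring
  rw [h1]
  exact lt_of_le_of_lt (v_sub_le v _ _) (max_lt h hb)

lemma res_one : res v (1 : M) = 1 := by
  have h := res_of_close (v := v) (a := 1) (c := 1) (by rw [map_one]) (by
    simp only [map_one, sub_self, map_zero]
    exact one_pos)
  rw [h, map_one]

lemma res_mul {a a' b : M} (ha : v a ≤ 1) (ha' : v a' ≤ 1) (hb : v b ≤ 1)
    (h : v (b - a * a') < 1) : res v b = res v a * res v a' := by
  obtain ⟨c, hc, hc'⟩ := res_spec v ha
  obtain ⟨d, hd, hd'⟩ := res_spec v ha'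
  rw [hc', hd', ← map_mul]
  apply res_of_close hb
  have h1 : b - ((c * d : 𝓞 M) : M) = (b - a * a') + (a * a' - (c : M) * (d : M)) := by
    push_cast
    ring
  rw [h1]
  exact lt_of_le_of_lt (FinitePlace.add_le v _ _) (max_lt h
    (mul_close (H420R3.v_le_one v c) ha' hc hd))

end Res

section Main

variable {K : Type} [Field K] [NumberField K] {L : Type} [Field L] [NumberField L]
  [Algebra K L] {w : FinitePlace L} {π : L}

/-- the tame character -/
def tch (hπ : π ≠ 0) (S : Subgroup Gal(L/K)) (hS : S ≤ (mi w).inertia Gal(L/K)) :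
    S →* 𝓞 L ⧸ mi w where
  toFun δ := res w (tt π (δ : Gal(L/K)))
  map_one' := by
    have h1 : tt π ((1 : S) : Gal(L/K)) = 1 := tt_one hπ
    rw [h1, res_one]
  map_mul' a b := by
    have h1 : ((a * b : S) : Gal(L/K)) = (a : Gal(L/K)) * (b : Gal(L/K)) := rfl
    rw [h1]
    exact res_mul (w_tt hπ (hS a.2)).le (w_tt hπ (hS b.2)).le
      (w_tt hπ (Subgroup.mul_mem _ (hS a.2) (hS b.2))).le (tt_mul hπ (hS a.2) (hS b.2))

lemma tch_one (hπ : π ≠ 0) {S : Subgroup Gal(L/K)} (hS : S ≤ (mi w).inertia Gal(L/K)) {δ : S}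
    (h : tch hπ S hS δ = 1) : (δ : Gal(L/K)) ∈ Kr w hπ := by
  refine ⟨hS δ.2, ?_⟩
  have h1 : res w (tt π (δ : Gal(L/K))) = res w 1 := by
    rw [res_one]
    exact h
  exact res_eq w (w_tt hπ (hS δ.2)).le (by rw [map_one]) h1

end Main

lemma p_le_absNorm {K : Type} [Field K] [NumberField K] {P : Ideal (𝓞 K)} [hP : P.IsMaximal]
    (hP0 : P ≠ ⊥) {p : ℕ} (hp : p.Prime) (hpP : (p : 𝓞 K) ∈ P) : p ≤ P.absNorm := by
  by_contra hlt
  push Not at hlt
  have h0 : P.absNorm ≠ 0 := Ideal.absNorm_ne_zero_iff_mem_nonZeroDivisors.mpr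
    (mem_nonZeroDivisors_of_ne_zero hP0)
  have hcop : Nat.Coprime p P.absNorm :=
    (Nat.Prime.coprime_iff_not_dvd hp).mpr fun h => by
      have := Nat.le_of_dvd (Nat.pos_of_ne_zero h0) h
      omega
  have h1 : IsCoprime (p : 𝓞 K) (P.absNorm : 𝓞 K) := by
    have h2 := (Nat.isCoprime_iff_coprime.mpr hcop).map (Int.castRingHom (𝓞 K))
    simpa using h2
  obtain ⟨a, b, hab⟩ := h1
  apply hP.ne_top
  rw [Ideal.eq_top_iff_one, ← hab]
  exact P.add_mem (P.mul_mem_left _ hpP) (P.mul_mem_left _ (Ideal.absNorm_mem P))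

/-- integers prime to the residue characteristic -/
lemma w_nat {M : Type} [Field M] [NumberField M] {w : FinitePlace M} {p : ℕ} (hp : p.Prime)
    (hwp : w (p : M) < 1) : ∀ n : ℕ, ¬ p ∣ n → w (n : M) = 1 := by
  intro n hn
  apply le_antisymm
  · have := H420R3.v_le_one w (n : 𝓞 M)
    simpa using this
  · by_contra hcon
    push Not at hcon
    have hcop : Nat.Coprime p n := (Nat.Prime.coprime_iff_not_dvd hp).mpr hn
    have h4 : ((p : M) * (Nat.gcdA p n : ℤ) + (n : M) * (Nat.gcdB p n : ℤ)) = 1 := by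
      have h5 := Nat.gcd_eq_gcd_ab p n
      rw [Nat.Coprime.gcd_eq_one hcop] at h5
      exact_mod_cast h5.symm
    have h5 : w (1 : M) < 1 := by
      rw [← h4]
      have hz : ∀ z : ℤ, w (z : M) ≤ 1 := fun z => by
        have := H420R3.v_le_one w (z : 𝓞 M)
        simpa using this
      refine lt_of_le_of_lt (FinitePlace.add_le w _ _) (max_lt ?_ ?_)
      · rw [map_mul]
        exact lt_of_le_of_lt (mul_le_of_le_one_right (v_nonneg w _) (hz _)) hwp
      · rw [map_mul]
        exact lt_of_le_of_lt (mul_le_of_le_one_right (v_nonneg w _) (hz _)) hcon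
    rw [map_one] at h5
    exact lt_irrefl _ h5

/-- the subgroup fixing all conjugates -/
lemma mem_fix {K L : Type} [Field K] [Field L] [Algebra K L] {x : L} {σ : Gal(L/K)}
    (h : ∀ ρ : Gal(L/K), σ (ρ x) = ρ x) : σ ∈ (CF K x).fixingSubgroup := by
  have hle : CF K x ≤ IntermediateField.fixedField (Subgroup.zpowers σ) := by
    unfold CF
    rw [IntermediateField.adjoin_le_iff]
    rintro _ ⟨ρ, rfl⟩
    change ρ x ∈ IntermediateField.fixedField (Subgroup.zpowers σ)
    rw [IntermediateField.mem_fixedField_iff]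
    intro g hg
    have h1 : Subgroup.zpowers σ ≤ MulAction.stabilizer Gal(L/K) (ρ x) := by
      rw [Subgroup.zpowers_le]
      exact h ρ
    exact h1 hg
  rw [IntermediateField.mem_fixingSubgroup_iff]
  intro y hy
  have h1 := hle hy
  rw [IntermediateField.mem_fixedField_iff] at h1
  exact h1 σ (Subgroup.mem_zpowers σ)

end Dis

open Dis in
theorem disLem : DisLem := by
  intro K _ _ L _ _ _ _ P hPm hP0 p hp hpP E _ x r hEx hr hrp hram w hw z hz hwz
  classical
  have hlo := H420R3.liesOver_of_mem hP0 hw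
  have hGE : IsGalois K E := inferInstance
  set 𝔮 : Ideal (𝓞 E) := (mi w).under (𝓞 E) with h𝔮
  have hloE : 𝔮.under (𝓞 K) = P := by
    rw [h𝔮, Ideal.under_under]
    exact hlo.over.symm
  have hEm : 𝔮.IsMaximal := Ideal.isMaximal_comap_of_isIntegral_of_isMaximal (mi w)
  have hqlo : 𝔮.LiesOver P := ⟨hloE.symm⟩
  have hq0 : 𝔮 ≠ ⊥ := Ideal.ne_bot_of_liesOver_of_ne_bot hP0 𝔮
  have hap : ¬ p ^ 1 ∣ 𝔮.ramificationIdx (𝓞 K) := by
    let u₀ : IsDedekindDomain.HeightOneSpectrum (𝓞 E) := ⟨𝔮, hEm.isPrime, hq0⟩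
    have hu : mi (FinitePlace.mk u₀) = 𝔮 := by
      unfold mi
      rw [FinitePlace.maximalIdeal_mk]
    have hT : FinitePlace.mk u₀ ∈ TP E P := by
      rw [mem_TP hP0, hu]
      exact ⟨hEm.isPrime, hqlo⟩
    have h1 := hram _ hT
    rwa [hu, ← pow_one p] at h1
  have hpN := p_le_absNorm hP0 hp hpP
  have he : 𝔮.ramificationIdx (𝓞 K) ≤ P.absNorm ^ 2 := by
    have h1 := ram_bound (K := K) (E := E) hP0 1 1 1 p le_rfl hp hpP ?_ hEm.isPrime hloE hap
    · refine h1.trans ?_
      rw [one_mul, pow_one, pow_one, sq]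
      exact Nat.mul_le_mul_right _ hpN
    · intro σ _ _ _ _
      have h2 : (Set.range fun g : Gal(E/K) => g * σ ^ 1 * g⁻¹) ⊆ {σ} := by
        rintro _ ⟨g, rfl⟩
        have h3 : g * σ = σ * g := IsMulCommutative.is_comm.comm g σ
        simp only [pow_one, Set.mem_singleton_iff]
        rw [h3, mul_assoc, mul_inv_cancel, mul_one]
      calc _ ≤ ({σ} : Set Gal(E/K)).ncard := Set.ncard_le_ncard h2 (Set.finite_singleton σ)
        _ = 1 := Set.ncard_singleton σ
  obtain ⟨J, hJI, hJfix, hJcard⟩ := exists_H' (L := E) hP0 hw hw (σ := 1)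
    (by rw [one_smul]) he
  have hJfix' : ∀ h ∈ J, ∀ e ∈ E, h e = e := fun h hh e he => hJfix h hh ⟨e, he⟩
  -- the residue characteristic
  have hwp : w (p : L) < 1 := by
    have h4 : (algebraMap (𝓞 K) (𝓞 L) (p : 𝓞 K)) ∈ mi w := by
      have h5 : (p : 𝓞 K) ∈ (mi w).under (𝓞 K) := by
        rw [← hlo.over]
        exact hpP
      exact h5
    rw [map_natCast] at h4
    have h5 := (v_lt_one_iff w _).mpr h4
    simpa using h5
  have hcop := w_nat hp hwp
  -- the uniformizer
  obtain ⟨π₀, hπ1, hπ2⟩ := Ideal.exists_mem_pow_notMem_pow_succ (mi w) (H420R3.mi_ne_bot w)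
    (Ideal.IsMaximal.ne_top inferInstance) 1
  rw [pow_one] at hπ1
  have hπ0 : (π₀ : L) ≠ 0 := by
    rw [RingOfIntegers.coe_ne_zero_iff]
    rintro rfl
    exact hπ2 (Submodule.zero_mem _)
  have hπ1' : w (π₀ : L) < 1 := (v_lt_one_iff w π₀).mpr hπ1
  have hπ2' : ¬ w (π₀ : L) ≤ (nv w ^ 2)⁻¹ := fun h => hπ2 ((H420R3.v_le_iff w π₀ 2).mp h)
  -- the group theory
  have hcard := card_le_of_hom J (CF K x).fixingSubgroup (tch hπ0 J hJI) r.factorial
    (Nat.factorial_pos r)
    (by
      intro δ hδ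
      have h1 := tch_one hπ0 hJI hδ
      apply mem_fix
      intro ρ
      refine fix_of_conj E x hr hrp (hJfix' _ δ.2) ?_ ρ
      intro l hl hdvd
      refine prime_dvd_Kr (K := K) hπ0 hπ1' hπ2' hcop hp hl (hdvd.trans ?_)
      have h2 := orderOf_dvd_natCard (⟨δ, h1⟩ : Kr (K := K) w hπ0)
      rwa [← Subgroup.orderOf_coe] at h2)
    (by
      intro δ hδ
      apply mem_fix
      intro ρ
      exact pow_fact_conj E x hr (hJfix' _ hδ) ρ)
  -- conclusion
  have h1 := v_fixed_le w (J ⊓ (CF K x).fixingSubgroup) (inf_le_left.trans hJI) (y := z)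
    (fun h hh => (IntermediateField.mem_fixingSubgroup_iff _ _).mp hh.2 z hz) hwz
  refine h1.trans ?_
  have hlog := H420R3.log_nv_pos w
  rw [← Real.exp_log (nv_pos w), ← Real.exp_nat_mul, ← Real.exp_neg, Real.exp_le_exp,
    neg_le_neg_iff, ← card_inertia hP0 hw]
  have hpos : (0 : ℝ) < (r.factorial * P.absNorm ^ 2 : ℕ) := by
    have h2 : 0 < P.absNorm := lt_of_lt_of_le hp.pos hpN
    have h3 := Nat.factorial_pos r
    positivity
  rw [div_le_iff₀ hpos]
  have h2 : (Nat.card ((mi w).inertia Gal(L/K)) : ℝ) ≤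
      Nat.card (J ⊓ (CF K x).fixingSubgroup : Subgroup Gal(L/K)) *
        (r.factorial * P.absNorm ^ 2 : ℕ) := by
    have h3 : Nat.card ((mi w).inertia Gal(L/K)) ≤
      Nat.card (J ⊓ (CF K x).fixingSubgroup : Subgroup Gal(L/K)) *
        (r.factorial * P.absNorm ^ 2) := by
      calc _ ≤ P.absNorm ^ 2 * Nat.card J := hJcard
        _ ≤ P.absNorm ^ 2 * (r.factorial *
            Nat.card (J ⊓ (CF K x).fixingSubgroup : Subgroup Gal(L/K))) :=
          Nat.mul_le_mul_left _ hcard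
        _ = _ := by ring
    exact_mod_cast h3
  calc _ ≤ (Nat.card (J ⊓ (CF K x).fixingSubgroup : Subgroup Gal(L/K)) *
        (r.factorial * P.absNorm ^ 2 : ℕ) : ℝ) * Real.log (nv w) :=
        mul_le_mul_of_nonneg_right h2 hlog.le
    _ = _ := by ring

end

end Pool.Agent.N715.AC
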