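import Mathlib
import Pool.Agent.N715.AC.Stm
import Pool.Agent.H627.LP.Few

/-!
A pair of conjugates which is a Frobenius pair at many places.
-/

set_option autoImplicit false
set_option linter.unusedSectionVars false

namespace Pool.Agent.N715.AC

open NumberField Module Polynomial
open Pool.Agent.H627.LP (FrobAt exists_place_smul)
open Pool.Agent.H420R3 (mi nv TP ew)
open scoped Pointwise

noncomputable section

namespace FrbAux

section

variable {K : Type} [Field K] [NumberField K] {L : Type} [Field L] [NumberField L] [Algebra K L]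

/-- transport of a Frobenius element by conjugation -/
lemma frob_conj {v w : FinitePlace L} {φ g : Gal(L/K)} {Q : ℕ} (h : FrobAt v φ Q)
    (hg : g • mi v = mi w) : FrobAt w (g * φ * g⁻¹) Q := by
  refine ⟨?_, fun x => ?_⟩
  · rw [← hg, smul_smul, inv_mul_cancel_right, mul_smul, h.1]
  · have h1 := h.2 (g⁻¹ • x)
    have h2 : g • (φ • (g⁻¹ • x) - (g⁻¹ • x) ^ Q) ∈ g • mi v :=
      Ideal.smul_mem_pointwise_smul_iff.mpr h1
    rw [hg, smul_sub, smul_smul, smul_smul, smul_pow', smul_inv_smul] at h2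
    exact h2

/-- transport of a Frobenius pair -/
lemma fp_conj {v w : FinitePlace L} {g : Gal(L/K)} {Q : ℕ} {x y : L} (h : FP K v Q x y)
    (hg : g • mi v = mi w) : FP K w Q (g x) (g y) := by
  obtain ⟨φ, h1, h2⟩ := h
  refine ⟨g * φ * g⁻¹, frob_conj h1 hg, ?_⟩
  rw [← h2]
  have e : (g * φ * g⁻¹ : Gal(L/K)) (g x) = (g * φ * g⁻¹ * g : Gal(L/K)) x := rfl
  rw [e, inv_mul_cancel_right]
  rfl

lemma mi_inj {v w : FinitePlace L} (h : mi v = mi w) : v = w := by
  apply FinitePlace.maximalIdeal_injective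
  exact IsDedekindDomain.HeightOneSpectrum.ext h

variable {P : Ideal (𝓞 K)} [hP : P.IsMaximal] [IsGalois K L]

/-- the weights of the places over `P` are equal -/
lemma ew_eq (hP0 : P ≠ ⊥) {v w : FinitePlace L} (hv : v ∈ TP L P) (hw : w ∈ TP L P) :
    ew K v = ew K w := by
  have hlo := Pool.Agent.H420R3.liesOver_of_mem hP0 hv
  have hlo' := Pool.Agent.H420R3.liesOver_of_mem hP0 hw
  have h1 : (mi v).ramificationIdx (𝓞 K) = (mi w).ramificationIdx (𝓞 K) := by
    rw [← Ideal.ramificationIdxIn_eq_ramificationIdx P (mi v) Gal(L/K),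
      ← Ideal.ramificationIdxIn_eq_ramificationIdx P (mi w) Gal(L/K)]
  have h2 : nv v = nv w := by
    obtain ⟨g, hg⟩ := Ideal.exists_smul_eq_of_isGaloisGroup P (mi v) (mi w) Gal(L/K)
    unfold Pool.Agent.H420R3.nv
    rw [← hg]
    congr 1
    rw [Ideal.absNorm_apply, Ideal.absNorm_apply, Submodule.cardQuot_apply,
      Submodule.cardQuot_apply]
    refine Nat.card_congr ?_
    exact (Ideal.quotientEquiv (mi v) (g • mi v) (MulSemiringAction.toRingEquiv _ _ g)
      (Ideal.pointwise_smul_def ..)).toEquiv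
  unfold Pool.Agent.H420R3.ew
  rw [h1, h2]

/-- the places over `P` are permuted -/
lemma sum_smul (hP0 : P ≠ ⊥) (g : Gal(L/K)) (S : FinitePlace L → Prop) (S' : FinitePlace L → Prop)
    (hS : ∀ v w, g • mi v = mi w → S v → S' w) :
    ∑ v ∈ TP L P, (open Classical in if S v then ew K v else 0) ≤
      ∑ v ∈ TP L P, (open Classical in if S' v then ew K v else 0) := by
  classical
  have hex : ∀ v ∈ TP L P, ∃ w ∈ TP L P, mi w = g • mi v := fun v hv =>
    exists_place_smul hP0 hv g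
  rcases (TP L P).eq_empty_or_nonempty with he | ⟨v₀, -⟩
  · rw [he, Finset.sum_empty, Finset.sum_empty]
  have : Nonempty (FinitePlace L) := ⟨v₀⟩
  choose! s hs1 hs2 using hex
  have h1 : ∑ v ∈ TP L P, (if S v then ew K v else 0) ≤
      ∑ v ∈ TP L P, (if S' (s v) then ew K (s v) else 0) := by
    refine Finset.sum_le_sum fun v hv => ?_
    by_cases h : S v
    · rw [if_pos h, if_pos (hS v (s v) (hs2 v hv).symm h), ew_eq hP0 hv (hs1 v hv)]
    · rw [if_neg h]
      split_ifs
      · exact (Pool.Agent.H420R3.ew_pos _).le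
      · exact le_rfl
  refine h1.trans (le_of_eq ?_)
  have hinj : Set.InjOn s (TP L P) := by
    intro v hv w hw hvw
    have h2 := hs2 v hv
    rw [hvw, hs2 w hw] at h2
    exact mi_inj (smul_left_cancel g h2).symm
  have himg : (TP L P).image s = TP L P := by
    refine Finset.eq_of_subset_of_card_le ?_ ?_
    · intro w hw
      obtain ⟨v, hv, rfl⟩ := Finset.mem_image.mp hw
      exact hs1 v hv
    · rw [Finset.card_image_of_injOn hinj]
  have h3 := Finset.sum_image (f := fun w => if S' w then ew K w else 0) (s := TP L P) (g := s)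
    hinj
  rw [himg] at h3
  exact h3.symm

end

end FrbAux

open FrbAux

theorem frobType : FrobType := by
  intro K _ _ L _ _ _ _ P hP hP0 E hE x r j hr
  classical
  obtain ⟨Q, hQ⟩ : ∃ Q, Q = P.absNorm ^ j := ⟨_, rfl⟩
  obtain ⟨v₀, hv₀⟩ := Pool.Agent.H420R3.TP_nonempty (M := L) (P := P) hP0
  obtain ⟨φ, hφ1, hφ2⟩ := Pool.Agent.H420R3.exists_frob (K := K) hP0 hv₀ j
  have hφ : FrobAt v₀ φ Q := by rw [hQ]; exact ⟨hφ1, hφ2⟩
  have hEgal : IsGalois K E := inferInstance
  -- the commutators fix `E`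
  have hcomm : ∀ g : Gal(L/K), φ⁻¹ * (g * φ * g⁻¹) ∈ E.fixingSubgroup := by
    intro g
    rw [← IntermediateField.restrictNormalHom_ker E, MonoidHom.mem_ker]
    simp only [map_mul, map_inv]
    have hc : ∀ a b : Gal(E/K), a * b = b * a := fun a b => IsMulCommutative.is_comm.comm a b
    rw [hc (AlgEquiv.restrictNormalHom E g) (AlgEquiv.restrictNormalHom E φ)]
    group
  -- the finite set of values
  obtain ⟨X, hX⟩ : ∃ X : Finset L, X = ((minpoly E x).rootSet L).toFinset.image fun y => φ y :=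
    ⟨_, rfl⟩
  have hint : IsIntegral E x := Algebra.IsIntegral.isIntegral x
  have hmem : ∀ h : Gal(L/K), h ∈ E.fixingSubgroup → φ (h x) ∈ X := by
    intro h hh
    rw [hX]
    refine Finset.mem_image_of_mem _ ?_
    rw [Set.mem_toFinset, Polynomial.mem_rootSet]
    refine ⟨minpoly.ne_zero hint, ?_⟩
    have h1 := (IntermediateField.mem_fixingSubgroup_iff E h).mp hh
    let h' : L ≃ₐ[E] L := (IntermediateField.fixingSubgroupEquiv E) ⟨h, hh⟩
    have h2 : h x = h' x := rfl
    have h3 := Polynomial.aeval_algHom_apply (h' : L →ₐ[E] L) x (minpoly E x)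
    rw [minpoly.aeval, map_zero] at h3
    rw [h2]
    exact h3
  have hcard : X.card ≤ r := by
    rw [hX]
    refine Finset.card_image_le.trans (le_trans ?_ hr)
    rw [← Set.ncard_eq_toFinset_card']
    exact Polynomial.ncard_rootSet_le _ _
  have hex : ∀ v ∈ TP L P, ∃ y ∈ X, FP K v Q x y := by
    intro v hv
    have hlo := Pool.Agent.H420R3.liesOver_of_mem hP0 hv
    have hlo₀ := Pool.Agent.H420R3.liesOver_of_mem hP0 hv₀
    obtain ⟨g, hg⟩ := Ideal.exists_smul_eq_of_isGaloisGroup P (mi v₀) (mi v) Gal(L/K)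
    refine ⟨(g * φ * g⁻¹) x, ?_, g * φ * g⁻¹, frob_conj hφ hg, rfl⟩
    have h1 := hmem _ (hcomm g)
    have h2 : φ ((φ⁻¹ * (g * φ * g⁻¹) : Gal(L/K)) x) = (φ * (φ⁻¹ * (g * φ * g⁻¹)) : Gal(L/K)) x :=
      rfl
    rw [h2, mul_inv_cancel_left] at h1
    exact h1
  obtain ⟨W, hW⟩ : ∃ W : L → ℝ, W = fun y => ∑ v ∈ TP L P, if FP K v Q x y then ew K v else 0 :=
    ⟨_, rfl⟩
  have hW0 : ∀ y, 0 ≤ W y := by
    intro y
    rw [hW]
    refine Finset.sum_nonneg fun v _ => ?_
    split_ifs
    · exact (Pool.Agent.H420R3.ew_pos _).le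
    · exact le_rfl
  have htot : ∑ v ∈ TP L P, ew K v ≤ ∑ y ∈ X, W y := by
    rw [hW, Finset.sum_comm]
    refine Finset.sum_le_sum fun v hv => ?_
    obtain ⟨y, hy, hfp⟩ := hex v hv
    calc ew K v = if FP K v Q x y then ew K v else 0 := by rw [if_pos hfp]
      _ ≤ _ := Finset.single_le_sum (f := fun y => if FP K v Q x y then ew K v else 0)
        (fun z _ => by
          beta_reduce
          split_ifs
          · exact (Pool.Agent.H420R3.ew_pos _).le
          · exact le_rfl) hy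
  have hne : X.Nonempty := ⟨_, hmem 1 (one_mem _)⟩
  obtain ⟨y, hy, hmax⟩ := Finset.exists_max_image X W hne
  have h1 : ∑ v ∈ TP L P, ew K v ≤ r * W y := by
    refine htot.trans ((Finset.sum_le_card_nsmul X W (W y) hmax).trans ?_)
    rw [nsmul_eq_mul]
    exact mul_le_mul_of_nonneg_right (by exact_mod_cast hcard) (hW0 y)
  have hpos : 0 < ∑ v ∈ TP L P, ew K v :=
    Finset.sum_pos (fun v _ => Pool.Agent.H420R3.ew_pos v) ⟨v₀, hv₀⟩
  have hWy : W y ≠ 0 := by
    intro h0
    rw [h0, mul_zero] at h1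
    linarith
  rw [hW] at hWy
  obtain ⟨v₁, -, hv₁⟩ := Finset.exists_ne_zero_of_sum_ne_zero hWy
  have hfp : FP K v₁ Q x y := by
    by_contra h
    rw [if_neg h] at hv₁
    exact hv₁ rfl
  obtain ⟨τ, -, hτ⟩ := hfp
  refine ⟨τ, fun σ => h1.trans ?_⟩
  refine mul_le_mul_of_nonneg_left ?_ (Nat.cast_nonneg r)
  rw [hW, ← hQ, hτ]
  have h2 := sum_smul (K := K) (L := L) hP0 σ (fun v => FP K v Q x y)
    (fun v => FP K v Q (σ x) (σ y)) (fun v w hvw h => fp_conj h hvw)
  convert h2 using 2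

end

end Pool.Agent.N715.AC
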