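import Pool.Agent.N715.AC.Stm

/-!
# Project AC: degrees over the intersection with a Galois extension, theorem `intLem : IntLem` (helper803)
-/

set_option autoImplicit false

namespace Pool.Agent.N715.AC

open Polynomial IntermediateField

namespace IntL

variable {K L : Type} [Field K] [Field L] [Algebra K L] [FiniteDimensional K L] [IsGalois K L]

lemma fix_inf (E F : IntermediateField K L) :
    (E ⊓ F).fixingSubgroup = E.fixingSubgroup ⊔ F.fixingSubgroup := by
  have h := (IsGalois.intermediateFieldEquivSubgroup (F := K) (E := L)).map_inf E F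
  exact congrArg OrderDual.ofDual h

lemma roots_sub (E : IntermediateField K L) [IsGalois K E] (x y : L)
    (hy : aeval y (minpoly (E ⊓ IntermediateField.adjoin K {x} : IntermediateField K L) x) = 0) :
    aeval y (minpoly E x) = 0 := by
  obtain ⟨τ, h1, hτ⟩ : ∃ τ : L ≃ₐ[K] L,
      τ ∈ (E ⊓ IntermediateField.adjoin K {x} : IntermediateField K L).fixingSubgroup ∧ τ x = y := by
    obtain ⟨σ, hσ⟩ := minpoly.exists_algEquiv_of_root'
      (K := (E ⊓ IntermediateField.adjoin K {x} : IntermediateField K L)) (L := L) (x := y) (y := x)
      (Algebra.IsAlgebraic.isAlgebraic x) hy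
    refine ⟨σ.restrictScalars K, ?_, hσ⟩
    rw [IntermediateField.mem_fixingSubgroup_iff]
    intro z hz
    exact σ.commutes ⟨z, hz⟩
  rw [fix_inf, ← SetLike.mem_coe, Subgroup.normal_mul] at h1
  obtain ⟨h, hh, u, hu, hhu⟩ := Set.mem_mul.1 h1
  have hux : u x = x := by
    rw [SetLike.mem_coe, IntermediateField.mem_fixingSubgroup_iff] at hu
    exact hu x (IntermediateField.mem_adjoin_simple_self K x)
  have hy' : h x = y := by
    have h2 : (h * u) x = y := by
      rw [hhu]
      exact hτ
    rw [AlgEquiv.mul_apply, hux] at h2
    exact h2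
  rw [SetLike.mem_coe, IntermediateField.mem_fixingSubgroup_iff] at hh
  let h' : L →ₐ[E] L :=
    { (h : L →+* L) with commutes' := fun z => hh (z : L) z.2 }
  have h3 : h' x = y := hy'
  rw [← h3, aeval_algHom_apply, minpoly.aeval, map_zero]

lemma deg_le (E : IntermediateField K L) [IsGalois K E] (x : L) :
    (minpoly (E ⊓ IntermediateField.adjoin K {x} : IntermediateField K L) x).natDegree ≤
      (minpoly E x).natDegree := by
  classical
  have hsep : (minpoly (E ⊓ IntermediateField.adjoin K {x} : IntermediateField K L) x).Separable :=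
    Algebra.IsSeparable.isSeparable _ x
  have hspl := Normal.splits (F := (E ⊓ IntermediateField.adjoin K {x} : IntermediateField K L))
    (K := L) inferInstance x
  rw [← card_rootSet_eq_natDegree hsep hspl]
  have hne : minpoly E x ≠ 0 := minpoly.ne_zero (Algebra.IsIntegral.isIntegral x)
  have h1 : (minpoly (E ⊓ IntermediateField.adjoin K {x} : IntermediateField K L) x).rootSet L ⊆
      (minpoly E x).rootSet L := by
    intro y hy
    rw [mem_rootSet_of_ne hne]
    exact roots_sub E x y (mem_rootSet.1 hy).2
  calc Fintype.card ((minpoly (E ⊓ IntermediateField.adjoin K {x} : IntermediateField K L) x).rootSet L)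
      ≤ Fintype.card ((minpoly E x).rootSet L) := Set.card_le_card h1
    _ ≤ (minpoly E x).natDegree :=
        (card_rootSet_eq_natDegree (Algebra.IsSeparable.isSeparable E x)
          (Normal.splits (F := E) (K := L) inferInstance x)).le

end IntL

theorem intLem : IntLem := by
  intro K _ _ L _ _ _ _ E _ x r hr
  have : FiniteDimensional K L := Module.Finite.of_restrictScalars_finite ℚ K L
  exact (IntL.deg_le E x).trans hr

end Pool.Agent.N715.AC
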