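import Mathlib
import Pool.Agent.N715.AC.Stm
import Pool.Agent.N715.AB.Orb
import Pool.Agent.N715.AB.Chn

/-!
Orbits of pairs of conjugates; factors of relations.
-/

set_option autoImplicit false
set_option linter.unusedSectionVars false

namespace Pool.Agent.N715.AC

open NumberField Module Polynomial
open Pool.Agent.W238.Leh
open Pool.Agent.H627.LP (Wnd FrobAt)
open Pool.Agent.R829.DL (fod fod_iter canH_hom)
open Pool.Agent.R829.BG (ax JJ ax_vec XD)
open Pool.Agent.N715.AB (ev fod_le_affine)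
open Pool.Agent.N715.AB.Chn (evH ev_eq ev_C)

noncomputable section

section cf

variable {K L : Type} [Field K] [Field L] [Algebra K L]

lemma CF_mem (x : L) (ρ : Gal(L/K)) : ρ x ∈ CF K x :=
  IntermediateField.subset_adjoin K _ ⟨ρ, rfl⟩

lemma CF_self (x : L) : x ∈ CF K x := CF_mem x 1

lemma CF_stable {x z : L} (σ : Gal(L/K)) (hz : z ∈ CF K x) : σ z ∈ CF K x := by
  have h1 : (CF K x).map (σ : L →ₐ[K] L) ≤ CF K x := by
    unfold CF
    rw [IntermediateField.adjoin_map, IntermediateField.adjoin_le_iff]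
    rintro _ ⟨_, ⟨ρ, rfl⟩, rfl⟩
    exact CF_mem x (σ * ρ)
  exact h1 ⟨z, hz, rfl⟩

lemma CF_le {x z : L} (hz : z ∈ CF K x) : CF K z ≤ CF K x := by
  unfold CF
  rw [IntermediateField.adjoin_le_iff]
  rintro _ ⟨ρ, rfl⟩
  exact CF_stable ρ hz

lemma adjoin_le_CF (x : L) : IntermediateField.adjoin K {x} ≤ CF K x := by
  rw [IntermediateField.adjoin_le_iff]
  intro y hy
  rw [Set.mem_singleton_iff.mp hy]
  exact CF_self x

lemma eq_on_adjoin {x z : L} (hz : z ∈ IntermediateField.adjoin K {x}) {g g' : Gal(L/K)}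
    (h : g x = g' x) : g z = g' z := by
  let S : IntermediateField K L :=
    (AlgHom.equalizer (g : L →ₐ[K] L) (g' : L →ₐ[K] L)).toIntermediateField (by
      intro y hy
      have hy' : g y = g' y := hy
      change g y⁻¹ = g' y⁻¹
      rw [map_inv₀, map_inv₀, hy'])
  have h1 : IntermediateField.adjoin K {x} ≤ S := by
    rw [IntermediateField.adjoin_le_iff]
    rintro _ rfl
    exact h
  exact h1 hz

lemma ev_gal (σ : Gal(L/K)) {x y : L} {G : K[X][X]} (h : ev x y G = 0) :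
    ev (σ x) (σ y) G = 0 := by
  have h1 : evH K (σ x) (σ y) G = σ (evH K x y G) := by
    have h2 : evH K (σ x) (σ y) = ((σ : L →+* L)).comp (evH K x y) := by
      apply Polynomial.ringHom_ext'
      · apply Polynomial.ringHom_ext'
        · ext c
          simp [evH]
        · simp [evH]
      · simp [evH]
    rw [h2]
    rfl
  rw [ev_eq, h1, ← ev_eq, h, map_zero]

/-- an irreducible factor through a point -/
lemma exists_factor [FiniteDimensional K L] {Γ : K[X][X]} (hΓ : Γ ≠ 0) {A b : ℕ}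
    (hb : Γ.natDegree ≤ b) (hA : XD A Γ) {x y : L} (hmin : A < (minpoly K x).natDegree)
    (h0 : ev x y Γ = 0) :
    ∃ g : K[X][X], Irreducible g ∧ g ∣ Γ ∧ 1 ≤ g.natDegree ∧ g.natDegree ≤ b ∧ XD A g ∧
      ev x y g = 0 := by
  classical
  set t := UniqueFactorizationMonoid.factors Γ with ht
  have hirr : ∀ g ∈ t, Irreducible g := fun g hg =>
    UniqueFactorizationMonoid.irreducible_of_factor g hg
  have hass : Associated t.prod Γ := UniqueFactorizationMonoid.factors_prod hΓ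
  have hdvd : ∀ g ∈ t, g ∣ Γ := fun g hg => (Multiset.dvd_prod hg).trans hass.dvd
  obtain ⟨u, hu⟩ := hass
  have h1 : evH K x y t.prod = 0 := by
    have h2 := h0
    rw [ev_eq, ← hu, map_mul, mul_eq_zero] at h2
    rcases h2 with h2 | h2
    · exact h2
    · exact absurd h2 (u.isUnit.map (evH K x y)).ne_zero
  rw [map_multiset_prod, Multiset.prod_eq_zero_iff, Multiset.mem_map] at h1
  obtain ⟨g, hg, hg0⟩ := h1
  have hXD : XD A g := by
    obtain ⟨q, hq⟩ := hdvd g hg
    have hg' : g ≠ 0 := (hirr g hg).ne_zero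
    have hq0 : q ≠ 0 := by
      rintro rfl
      exact hΓ (by rw [hq, mul_zero])
    exact (XD.of_mul hg' hq0 (hq ▸ hA)).1
  refine ⟨g, hirr g hg, hdvd g hg, ?_, (natDegree_le_of_dvd (hdvd g hg) hΓ).trans hb, hXD, hg0⟩
  by_contra hlt
  obtain ⟨c, hc⟩ := natDegree_eq_zero.1 (show g.natDegree = 0 by omega)
  have hc0 : c ≠ 0 := by
    rintro rfl
    apply (hirr g hg).ne_zero
    rw [← hc, C_0]
  have hcA : c.natDegree ≤ A := by
    have := hXD 0
    rwa [← hc, coeff_C_zero] at this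
  have h3 : aeval x c = 0 := by
    rw [← ev_C x y, hc]
    exact hg0
  have h4 := natDegree_le_natDegree (minpoly.degree_le_of_ne_zero K x hc0 h3)
  omega

/-- the product of distinct factors divides -/
lemma sum_natDegree_le {Γ : K[X][X]} (hΓ : Γ ≠ 0) (J : Finset ℕ) (g : ℕ → K[X][X])
    (hg : ∀ j ∈ J, Irreducible (g j) ∧ g j ∣ Γ)
    (hne : ∀ i ∈ J, ∀ j ∈ J, i ≠ j → ¬ Associated (g i) (g j)) :
    ∑ j ∈ J, (g j).natDegree ≤ Γ.natDegree := by
  classical
  have h1 : ∏ j ∈ J, g j ∣ Γ := by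
    apply Finset.prod_dvd_of_isRelPrime
    · intro i hi j hj hij
      exact ((hg i hi).1.isRelPrime_iff_not_dvd).mpr fun hd =>
        hne i hi j hj hij (((hg i hi).1.associated_of_dvd (hg j hj).1) hd)
    · exact fun j hj => (hg j hj).2
  have h2 : (∏ j ∈ J, g j).natDegree = ∑ j ∈ J, (g j).natDegree :=
    natDegree_prod _ _ fun j hj => (hg j hj).1.ne_zero
  rw [← h2]
  exact natDegree_le_of_dvd h1 hΓ

end cf

section orb

variable {K : Type} [Field K] [NumberField K] {L : Type} [Field L] [NumberField L] [Algebra K L]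
variable {F : Fin (1 + 1) → MvPolynomial (Fin (1 + 1)) K} {q c a : ℕ} {A : ℝ}

lemma ax_mem (hB : Bds F q A a) (hF : ∀ i, (F i).IsHomogeneous q) {x : Fin (1 + 1) → L}
    (hx : x ≠ 0) (h0 : 0 ∈ JJ F x) (i : ℕ) :
    ax F x i ∈ IntermediateField.adjoin K {ax F x 0} := by
  have h1 : fod K ((act F)^[i] x) ≤ fod K ((act F)^[0] x) := fod_iter hB hF hx (Nat.zero_le i)
  have h2 : ((act F)^[0] x) 1 ≠ 0 := h0
  rw [fod_le_affine h2] at h1
  exact h1 (IntermediateField.subset_adjoin K _ ⟨(0, 1), rfl⟩)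

lemma FP_iter (hB : Bds F q A a) (hF : ∀ i, (F i).IsHomogeneous q) {x : Fin (1 + 1) → L}
    (hx : x ≠ 0) (h0 : 0 ∈ JJ F x) (i : ℕ) {v : FinitePlace L} {Q : ℕ} {σ τ : Gal(L/K)}
    (h : FP K v Q (σ (ax F x 0)) (σ (τ (ax F x 0)))) :
    FP K v Q (σ (ax F x i)) (σ (τ (ax F x i))) := by
  obtain ⟨φ, h1, h2⟩ := h
  refine ⟨φ, h1, ?_⟩
  exact eq_on_adjoin (g := φ * σ) (g' := σ * τ) (ax_mem hB hF hx h0 i) h2

lemma canH_conj (σ : Gal(L/K)) (z : L) : canH F q ![σ z, 1] = canH F q ![z, 1] := by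
  have h2 : (![σ z, 1] : Fin (1 + 1) → L) =
      fun t => (σ : L →ₐ[K] L) ((![z, 1] : Fin (1 + 1) → L) t) := by
    funext t
    fin_cases t
    · rfl
    · exact (map_one σ).symm
  rw [h2, canH_hom]

lemma canH_ax (hB : Bds F q A a) (hq : 2 ≤ q) (hF : ∀ i, (F i).IsHomogeneous q)
    {x : Fin (1 + 1) → L} (hx : x ≠ 0) {i : ℕ} (hi : i ∈ JJ F x) :
    canH F q ![ax F x i, 1] = q ^ i * canH F q x := by
  have hi' : ((act F)^[i] x) 1 ≠ 0 := hi
  rw [ax_vec hi, canH_smul hF (inv_ne_zero hi'), hB.canH_iter hq hx]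

end orb

end

end Pool.Agent.N715.AC
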