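import Mathlib
import Pool.Agent.N715.AC.Stm
import Pool.Agent.N715.AB.Orb

/-!
Use of the two-variable inequality.
-/

set_option autoImplicit false
set_option linter.unusedSectionVars false

namespace Pool.Agent.N715.AC

open NumberField Module
open Pool.Agent.W238.Leh
open Pool.Agent.H627.LR (GR GoodK)
open Pool.Agent.H420R3 (mi nv TP ew sum_ew ew_pos)
open Pool.Agent.R829.BG (E2 finrank_E2_le)

noncomputable section

variable {K : Type} [Field K] [NumberField K] {M : Type} [Field M] [NumberField M] [Algebra K M]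
  {ι : Type} [Fintype ι] [DecidableEq ι]
variable {F : Fin (1 + 1) → MvPolynomial (Fin (1 + 1)) K} {q c a : ℕ} {A : ℝ}

lemma norm_two {P : Ideal (𝓞 K)} [hP : P.IsMaximal] (hP0 : P ≠ ⊥) : 2 ≤ P.absNorm := by
  have h0 : P.absNorm ≠ 0 := fun h => hP0 (Ideal.absNorm_eq_zero_iff.mp h)
  have h1 : P.absNorm ≠ 1 := fun h => hP.ne_top (Ideal.absNorm_eq_one_iff.mp h)
  omega

lemma log_norm_pos {P : Ideal (𝓞 K)} [hP : P.IsMaximal] (hP0 : P ≠ ⊥) :
    0 < Real.log P.absNorm :=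
  Real.log_pos (by exact_mod_cast norm_two hP0)

/-- if the rank is maximal, the gain is bounded -/
theorem two_apply (hT : TwoLem) (hB : Bds F q A a) (hq : 2 ≤ q)
    (hF : ∀ i, (F i).IsHomogeneous q)
    (hc : ∀ m, c + q ≤ m → ∀ p : MvPolynomial (Fin (1 + 1)) K, p.IsHomogeneous m →
      p ∈ Ideal.span (Set.range F))
    {P : Ideal (𝓞 K)} [hP : P.IsMaximal] (hP0 : P ≠ ⊥) (hG : GoodK P F q)
    (x y : ι → M) {Q r : ℕ} (hQ : 1 ≤ Q) (hr : 1 ≤ r) {e : ℝ} (he : 0 < e)
    (Bad : FinitePlace M → Finset ι)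
    (hclose : ∀ v ∈ TP M P, ∀ i, i ∉ Bad v →
      v (x i) ≤ 1 ∧ v (y i - x i ^ Q) ≤ Real.exp (-(ew K v / e)))
    (hprop : ∀ i, 3 * ∑ v ∈ TP M P, ew K v ≤
      4 * r * ∑ v ∈ TP M P, if i ∉ Bad v then ew K v else 0)
    {H : ℝ} (hH0 : 0 ≤ H) (hHx : ∀ i, canH F q ![x i, 1] ≤ H) (hHy : ∀ i, canH F q ![y i, 1] ≤ H)
    {m n s : ℕ} (hm : m = Q * n) (hn : 12 * r * s ≤ n)
    (hrk : (m + 1) * (n + 1) ≤ finrank M (E2 K (fun i => ![x i, 1]) (fun i => ![y i, 1]) m n)) :
    s * Real.log P.absNorm / (2 * r * e) ≤ finrank ℚ K * ((m + n) * H +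
      hC A a * (c + q : ℕ) * (1 + Nat.log 2 m : ℕ) +
      hC A a * (c + q : ℕ) * (1 + Nat.log 2 n : ℕ) + Real.log ((m + 1) * (n + 1) : ℕ)) := by
  classical
  have hfd : FiniteDimensional K M := Pool.Agent.R829.DL.fd_inter K M
  obtain ⟨R, hR⟩ : ∃ R, R = (m + 1) * (n + 1) := ⟨_, rfl⟩
  have hRe : R = finrank M (E2 K (fun i => ![x i, 1]) (fun i => ![y i, 1]) m n) := by
    rw [hR]
    exact le_antisymm hrk (finrank_E2_le _ _ _ _)
  have hR1 : 1 ≤ R := by
    rw [hR]
    exact Nat.one_le_iff_ne_zero.mpr (by positivity)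
  have hR0 : (0 : ℝ) < R := by exact_mod_cast hR1
  obtain ⟨G, hGd⟩ : ∃ G : ℝ, G = ∑ v ∈ TP M P, ew K v / e := ⟨_, rfl⟩
  have hG1 : G = (finrank K M : ℝ) * Real.log P.absNorm / e := by
    rw [hGd, ← Finset.sum_div, sum_ew hP0]
  have hr0 : (0 : ℝ) < r := by exact_mod_cast hr
  have hKM : (0 : ℝ) < finrank K M := by exact_mod_cast finrank_pos
  have hPn : 0 < Real.log P.absNorm := log_norm_pos hP0
  have hG0 : 0 < G := by
    rw [hG1]
    positivity
  have hmain := hT K M ι F q c a A hB hq hF hc x y (TP M P)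
    (fun v hv => hG.gr hP0 (by omega) hv) Q (fun v => ew K v / e) Bad
    (fun v _ => div_pos (ew_pos v) he) hclose (3 * G / (4 * r)) (fun i => by
      have h1 := hprop i
      have h2 : ∑ v ∈ TP M P, (if i ∉ Bad v then ew K v / e else 0) =
          (∑ v ∈ TP M P, if i ∉ Bad v then ew K v else 0) / e := by
        rw [Finset.sum_div]
        refine Finset.sum_congr rfl fun v _ => ?_
        split_ifs
        · rw [zero_div]
        · rfl
      rw [h2, hGd, ← Finset.sum_div, div_le_div_iff₀ (by positivity) he]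
      calc 3 * ((∑ v ∈ TP M P, ew K v) / e) * e = 3 * ∑ v ∈ TP M P, ew K v := by field_simp
        _ ≤ 4 * r * ∑ v ∈ TP M P, if i ∉ Bad v then ew K v else 0 := h1
        _ = _ := by ring) H hHx hHy m n s R hRe hR1
  rw [← hGd] at hmain
  -- the dimension of the exceptional space
  have hdim : (4 * r * (s * (m + Q * n + 1)) : ℕ) ≤ R := by
    rcases Nat.eq_zero_or_pos s with rfl | hs
    · simp
    have hn1 : 1 ≤ n := by
      have : 1 ≤ 12 * r * s := Nat.mul_pos (by omega) hs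
      omega
    have hQn : 1 ≤ Q * n := Nat.mul_pos hQ hn1
    have h1 : m + Q * n + 1 ≤ 3 * (Q * n) := by omega
    calc 4 * r * (s * (m + Q * n + 1)) ≤ 4 * r * (s * (3 * (Q * n))) := by gcongr
      _ = (12 * r * s) * (Q * n) := by ring
      _ ≤ n * (Q * n) := Nat.mul_le_mul_right _ hn
      _ ≤ R := by
        rw [hR, hm]
        nlinarith
  have hdim' : ((s * (m + Q * n + 1) : ℕ) : ℝ) ≤ R / (4 * r) := by
    rw [le_div_iff₀ (by positivity)]
    have : ((4 * r * (s * (m + Q * n + 1)) : ℕ) : ℝ) ≤ R := by exact_mod_cast hdim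
    push_cast at this ⊢
    linarith
  have hs0 : (0 : ℝ) ≤ s := Nat.cast_nonneg s
  have hlow : s * (R * G / (2 * r)) ≤
      s * (R * (3 * G / (4 * r)) - G * (s * (m + Q * n + 1) : ℕ)) := by
    apply mul_le_mul_of_nonneg_left _ hs0
    have h1 : G * (s * (m + Q * n + 1) : ℕ) ≤ G * (R / (4 * r)) :=
      mul_le_mul_of_nonneg_left hdim' hG0.le
    have h2 : R * (3 * G / (4 * r)) - G * (R / (4 * r)) = R * G / (2 * r) := by
      field_simp
      ring
    linarith
  have hfin := hlow.trans hmain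
  obtain ⟨Z, hZ⟩ : ∃ Z : ℝ, Z = (m + n) * H + hC A a * (c + q : ℕ) * (1 + Nat.log 2 m : ℕ) +
          hC A a * (c + q : ℕ) * (1 + Nat.log 2 n : ℕ) + Real.log R := ⟨_, rfl⟩
  rw [← hZ] at hfin
  rw [← hR, ← hZ]
  have h1 : (finrank ℚ M : ℝ) = finrank ℚ K * finrank K M := by
    exact_mod_cast (finrank_mul_finrank ℚ K M).symm
  rw [h1, hG1] at hfin
  have h2 : s * (R * (finrank K M * Real.log P.absNorm / e) / (2 * r)) =
      (R * finrank K M) * (s * Real.log P.absNorm / (2 * r * e)) := by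
    field_simp
  have h3 : (finrank ℚ K : ℝ) * finrank K M * (R * Z) =
      (R * finrank K M) * (finrank ℚ K * Z) := by ring
  rw [h2, h3] at hfin
  exact le_of_mul_le_mul_left hfin (by positivity)

end

end Pool.Agent.N715.AC
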