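import Mathlib
import Pool.Agent.N715.AC.Two2
import Pool.Agent.N715.AC.Orb2

/-!
The local part: a small point of large degree does not exist.
-/

set_option autoImplicit false
set_option linter.unusedSectionVars false

namespace Pool.Agent.N715.AC

open NumberField Module Polynomial
open Pool.Agent.W238.Leh
open Pool.Agent.H627.LP (Wnd FrobAt)
open Pool.Agent.H627.LR (GR GoodK)
open Pool.Agent.H420R3 (mi nv TP ew sum_ew ew_pos)
open Pool.Agent.R829.DL (fod fod_iter canH_hom)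
open Pool.Agent.R829.BG (ax JJ ax_vec XD E2 exists_orb hgt_gal hgt_tendsto exists_rel)
open Pool.Agent.N715.AB (ev ResLem HgtLem fod_inf finrank_fod exists_frac)
open Pool.Agent.N715.AB.Chn (evH ev_eq)

noncomputable section

lemma comb {α : Type} (T : Finset α) (e : α → ℝ) (he : ∀ v ∈ T, 0 < e v) {r : ℕ} (hr : 1 ≤ r)
    (p g : α → Prop) [DecidablePred p] [DecidablePred g] [DecidablePred fun v => p v ∧ g v]
    (h1 : ∑ v ∈ T, e v ≤ r * ∑ v ∈ T, if p v then e v else 0)
    (h2 : (4 * r : ℕ) * ∑ v ∈ T, (if g v then 0 else e v) ≤ ∑ v ∈ T, e v) :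
    3 * ∑ v ∈ T, e v ≤ 4 * r * ∑ v ∈ T, if p v ∧ g v then e v else 0 := by
  have h3 : ∑ v ∈ T, (if p v then e v else 0) ≤
      ∑ v ∈ T, (if p v ∧ g v then e v else 0) + ∑ v ∈ T, (if g v then 0 else e v) := by
    rw [← Finset.sum_add_distrib]
    refine Finset.sum_le_sum fun v hv => ?_
    have := he v hv
    by_cases hp : p v <;> by_cases hg : g v <;> simp [hp, hg, this.le]
  have hr0 : (1 : ℝ) ≤ r := by exact_mod_cast hr
  push_cast at h2
  nlinarith

lemma exists_of_comb {α : Type} (T : Finset α) (e : α → ℝ) {r : ℕ} (p : α → Prop)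
    [DecidablePred p] (hT : 0 < ∑ v ∈ T, e v)
    (h : 3 * ∑ v ∈ T, e v ≤ 4 * r * ∑ v ∈ T, if p v then e v else 0) : ∃ v ∈ T, p v := by
  by_contra hcon
  push Not at hcon
  rw [Finset.sum_eq_zero (s := T) (f := fun v => if p v then e v else 0)
    (fun v hv => if_neg (hcon v hv)), mul_zero] at h
  linarith

variable {K : Type} [Field K] [NumberField K] {L : Type} [Field L] [NumberField L] [Algebra K L]

lemma pprim_one {P : Ideal (𝓞 K)} [hP : P.IsMaximal] : PPrim P (1 : K[X]) := by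
  refine ⟨fun n => ?_, 0, 1, ?_, by simp⟩
  · rw [Polynomial.coeff_one]
    split_ifs
    · exact ⟨1, by simp⟩
    · exact ⟨0, by simp⟩
  · exact fun h => hP.ne_top ((Ideal.eq_top_iff_one P).mpr h)

lemma le_of_pow_le {z g : ℝ} {s : ℕ} (hs : 1 ≤ s) (h : z ^ s ≤ Real.exp (-g)) :
    z ≤ Real.exp (-(g / s)) := by
  have hs0 : (0 : ℝ) < s := by exact_mod_cast hs
  have h1 : Real.exp (-g) = Real.exp (-(g / s)) ^ s := by
    rw [← Real.exp_nat_mul]
    congr 1
    field_simp
  rw [h1] at h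
  exact le_of_pow_le_pow_left₀ (by omega) (Real.exp_pos _).le h

open Classical in
/-- **the local part** -/
theorem local_two (hLoc : LocLem) (hBad : BadLem) (hTwo : TwoLem)
    (hTrc : TraceDesc2) (hRnk : RankLem) (hPer : PerLem) (hHG : HgtLem)
    {F : Fin (1 + 1) → MvPolynomial (Fin (1 + 1)) K} {q c a : ℕ} {A : ℝ} (hB : Bds F q A a)
    (hq : 2 ≤ q) (hF : ∀ i, (F i).IsHomogeneous q)
    (hc : ∀ m, c + q ≤ m → ∀ p : MvPolynomial (Fin (1 + 1)) K, p.IsHomogeneous m →
      p ∈ Ideal.span (Set.range F)) [IsGalois K L]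
    {P : Ideal (𝓞 K)} [hP : P.IsMaximal] (hP0 : P ≠ ⊥) (hG : GoodK P F q)
    {x : Fin (1 + 1) → L} (hx : x ≠ 0) (hw : Wnd F x) (hpos : 0 < canH F q x)
    {τ : Gal(L/K)} {r e Q b S₁ S₂ W M R : ℕ} (hr : 1 ≤ r) (he : 1 ≤ e)
    (hFP : ∀ σ : Gal(L/K), ∑ v ∈ TP L P, ew K v ≤
      r * ∑ v ∈ TP L P, (if FP K v Q (σ (ax F x 0)) (σ (τ (ax F x 0))) then ew K v else 0))
    (hdis : ∀ w ∈ TP L P, ∀ z ∈ CF K (ax F x 0), w z < 1 → w z ≤ Real.exp (-(ew K w / e)))
    {ω : ℝ} (hω0 : 0 < ω) (hω : (finrank ℚ K : ℝ) * e * ω ≤ Real.log P.absNorm)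
    (hb : b = 12 * r * S₁) (hS₁ : 1 ≤ S₁) (hR : R = 2 * (4 * r) * (2 * Q * b + 1) * (S₂ + 1))
    (hbQ : b < Q) (hM : 48 * r ≤ M) (hW : M * (Nat.log 2 b + 1) ≤ W)
    (h2 : 1 + hC A a * (c + q : ℕ) * (1 + Nat.log 2 (Q * b) : ℕ) +
      hC A a * (c + q : ℕ) * (1 + Nat.log 2 b : ℕ) +
        Real.log ((Q * b + 1) * (b + 1) : ℕ) < S₁ * ω / (2 * r))
    (h3 : 1 + hC A a * (c + q : ℕ) * (1 + Nat.log 2 R : ℕ) + Real.log R <
      S₂ * ω / (2 * (4 * r)))
    (h4 : 1 + hC A a * (c + q : ℕ) * (1 + Nat.log 2 (Q * b) : ℕ) +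
      hC A a * (c + q : ℕ) * (1 + Nat.log 2 b : ℕ) +
        Real.log ((Q * b + 1) * (b + 1) : ℕ) <
          M * Real.log P.absNorm / (192 * r ^ 2 * finrank ℚ K))
    (hdR : R ≤ finrank K (fod K ((act F)^[2 * W] x)))
    (hdeg : 2 * (Q * b) * b * q ^ (2 * W) < finrank K (fod K ((act F)^[2 * W] x)))
    (hh : R * ((q : ℝ) ^ W * canH F q x) ≤ 1) : False := by
  have hfd : FiniteDimensional K L := Pool.Agent.R829.DL.fd_inter K L
  have hq1 : (1 : ℝ) ≤ q := by exact_mod_cast (by omega : 1 ≤ q)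
  have hQ1 : 1 ≤ Q := by omega
  have hb1 : 1 ≤ b := by
    rw [hb]
    exact Nat.mul_pos (by omega) hS₁
  have hr0 : (0 : ℝ) < r := by exact_mod_cast hr
  have hκ0 : (0 : ℝ) < finrank ℚ K := by exact_mod_cast finrank_pos
  have hQb1 : 1 ≤ Q * b := Nat.mul_pos hQ1 hb1
  -- degrees
  have hDi : ∀ i ≤ 2 * W, finrank K (fod K ((act F)^[2 * W] x)) ≤
      finrank K (fod K ((act F)^[i] x)) := by
    intro i hi
    have h1 : fod K ((act F)^[2 * W] x) ≤ fod K ((act F)^[i] x) := fod_iter hB hF hx hi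
    exact LinearMap.finrank_le_finrank_of_injective
      (f := (IntermediateField.inclusion h1).toLinearMap)
      (IntermediateField.inclusion_injective h1)
  have hqW : 1 ≤ q ^ (2 * W) := Nat.one_le_pow _ _ (by omega)
  have hbig : 2 ≤ finrank K (fod K ((act F)^[2 * W] x)) := by
    have e1 : 1 ≤ 2 * (Q * b) * b * q ^ (2 * W) := by
      have : 1 ≤ (Q * b) * b := Nat.mul_pos hQb1 hb1
      have h5 : 2 * (Q * b) * b * q ^ (2 * W) = 2 * ((Q * b) * b) * q ^ (2 * W) := by ring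
      rw [h5]
      exact Nat.mul_pos (by omega) hqW
    omega
  have hJ : ∀ i ≤ 2 * W, i ∈ JJ F x := by
    intro i hi h0
    have h1 := hDi i hi
    rw [fod_inf h0] at h1
    omega
  have hmin : ∀ i ≤ 2 * W, finrank K (fod K ((act F)^[i] x)) =
      (minpoly K (ax F x i)).natDegree := fun i hi => finrank_fod (hJ i hi)
  have hJ0 : 0 ∈ JJ F x := hJ 0 (by omega)
  obtain ⟨X, hX⟩ : ∃ X : ℕ → L, X = ax F x := ⟨_, rfl⟩
  rw [← hX] at hFP hdis hmin
  have hXm : ∀ i, X i ∈ IntermediateField.adjoin K {X 0} := by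
    intro i
    rw [hX]
    exact ax_mem hB hF hx hJ0 i
  have hXC : ∀ i, X i ∈ CF K (X 0) := fun i => adjoin_le_CF _ (hXm i)
  -- heights
  obtain ⟨H, hH⟩ : ∃ H : ℝ, H = (q : ℝ) ^ W * canH F q x := ⟨_, rfl⟩
  rw [← hH] at hh
  have hH0 : 0 < H := by rw [hH]; positivity
  have hcan : ∀ i ≤ W, canH F q ![X i, 1] ≤ H := by
    intro i hi
    rw [hX, canH_ax hB hq hF hx (hJ i (by omega)), hH]
    apply mul_le_mul_of_nonneg_right _ hpos.le
    exact pow_le_pow_right₀ hq1 hi
  have hRbig : Q * b + b ≤ R := by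
    have e1 : b ≤ Q * b := Nat.le_mul_of_pos_left _ hQ1
    have e2 : Q * b + b ≤ 2 * Q * b + 1 := by
      have : 2 * Q * b = 2 * (Q * b) := by ring
      omega
    rw [hR]
    calc Q * b + b ≤ 1 * (2 * Q * b + 1) * 1 := by omega
      _ ≤ 2 * (4 * r) * (2 * Q * b + 1) * (S₂ + 1) := by gcongr <;> omega
  have hh' : ((Q * b : ℕ) + (b : ℕ) : ℝ) * H ≤ 1 := by
    refine le_trans (mul_le_mul_of_nonneg_right ?_ hH0.le) hh
    exact_mod_cast hRbig
  -- few conjugates are in the bad classes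
  have hbad : ∀ i ≤ W, ∀ σ : Gal(L/K), ∀ f : K[X], PPrim P f → f.natDegree ≤ 2 * Q * b →
      ((4 * r : ℕ) : ℝ) * ∑ v ∈ TP L P, (if v (σ (X i)) ≤ 1 ∧ v (aeval (σ (X i)) f) = 1 then 0
        else ew K v) ≤ ∑ v ∈ TP L P, ew K v := by
    intro i hi σ f hf hfd'
    have e1 := hBad K L F q c a A hB hq hF hc P hP0 hG (σ (X i)) e he
      (fun w hw' z hz hz1 => hdis w hw' z (CF_le (CF_stable σ (hXC i)) hz) hz1) ω hω0 hω
      (4 * r) (2 * Q * b + 1) S₂ R (by omega) (by rw [hR]) f hf (by omega) (by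
        rw [minpoly.algEquiv_eq, ← hmin i (by omega)]
        exact hdR.trans (hDi i (by omega))) (by
        rw [canH_conj]
        have e2 : (R : ℝ) * canH F q ![X i, 1] ≤ 1 :=
          le_trans (mul_le_mul_of_nonneg_left (hcan i hi) (Nat.cast_nonneg _)) hh
        push_cast at h3 ⊢
        linarith)
    exact e1
  -- the good places
  have hgood : ∀ i ≤ W, ∀ σ : Gal(L/K), ∀ f : K[X], PPrim P f → f.natDegree ≤ 2 * Q * b →
      3 * ∑ v ∈ TP L P, ew K v ≤ 4 * r * ∑ v ∈ TP L P,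
        if FP K v Q (σ (X i)) (σ (τ (X i))) ∧ (v (σ (X i)) ≤ 1 ∧ v (aeval (σ (X i)) f) = 1)
          then ew K v else 0 := by
    intro i hi σ f hf hfd'
    refine comb (TP L P) (fun v => ew K v) (fun v _ => ew_pos v) hr _ _ ?_ (hbad i hi σ f hf hfd')
    refine (hFP σ).trans ?_
    apply mul_le_mul_of_nonneg_left _ hr0.le
    refine Finset.sum_le_sum fun v _ => ?_
    have := ew_pos (K := K) v
    by_cases h5 : FP K v Q (σ (X 0)) (σ (τ (X 0)))
    · have h6 : FP K v Q (σ (X i)) (σ (τ (X i))) := by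
        rw [hX] at h5 ⊢
        exact FP_iter hB hF hx hJ0 i h5
      rw [if_pos h5, if_pos h6]
    · rw [if_neg h5]
      split_ifs
      · exact this.le
      · exact le_rfl
  have hsum0 : 0 < ∑ v ∈ TP L P, ew K v := by
    rw [sum_ew hP0]
    have := log_norm_pos (K := K) hP0
    have h5 : (0 : ℝ) < finrank K L := by exact_mod_cast finrank_pos
    positivity
  -- Frobenius pairs are close
  have hFPlt : ∀ i, ∀ σ : Gal(L/K), ∀ v ∈ TP L P, FP K v Q (σ (X i)) (σ (τ (X i))) →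
      v (σ (X i)) ≤ 1 → v (σ (τ (X i)) - σ (X i) ^ Q) < 1 := by
    rintro i σ v hv ⟨φ, h5, h6⟩ h7
    rw [← h6]
    exact h5.lt h7
  -- the relation over `L`
  obtain ⟨G, hG0, hG1, hG2, hG3⟩ := exists_rel (K := K)
    (ι := {i // i ∈ Finset.range (W + 1)} × Gal(L/K)) (x := fun iσ => iσ.2 (X iσ.1))
    (y := fun iσ => iσ.2 (τ (X iσ.1))) (m := Q * b) (n := b) (by
      by_contra hcon
      push Not at hcon
      have e1 := two_apply hTwo hB hq hF hc hP0 hG (fun iσ => iσ.2 (X iσ.1))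
        (fun iσ : {i // i ∈ Finset.range (W + 1)} × Gal(L/K) => iσ.2 (τ (X iσ.1))) hQ1 hr
        (e := (e : ℝ)) (by exact_mod_cast he)
        (fun v => Finset.univ.filter fun iσ : {i // i ∈ Finset.range (W + 1)} × Gal(L/K) =>
          ¬ (FP K v Q (iσ.2 (X iσ.1)) (iσ.2 (τ (X iσ.1))) ∧
            (v (iσ.2 (X iσ.1)) ≤ 1 ∧ v (aeval (iσ.2 (X iσ.1)) (1 : K[X])) = 1)))
        (fun v hv iσ hi => by
          rw [Finset.mem_filter] at hi
          push Not at hi
          obtain ⟨h5, h6, -⟩ := hi (Finset.mem_univ _)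
          refine ⟨h6, hdis v hv _ ?_ (hFPlt _ _ v hv h5 h6)⟩
          exact sub_mem (CF_stable _ (CF_stable _ (hXC _))) (pow_mem (CF_stable _ (hXC _)) _))
        (fun iσ => by
          have h5 := hgood iσ.1 (by have := Finset.mem_range.mp iσ.1.2; omega) iσ.2 1 pprim_one
            (by simp)
          refine h5.trans (le_of_eq ?_)
          congr 1
          refine Finset.sum_congr rfl fun v _ => ?_
          simp only [Finset.mem_filter, Finset.mem_univ, true_and, not_not])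
        hH0.le (fun iσ => by
          rw [canH_conj]
          exact hcan _ (by have := Finset.mem_range.mp iσ.1.2; omega))
        (fun iσ => by
          rw [canH_conj, canH_conj]
          exact hcan _ (by have := Finset.mem_range.mp iσ.1.2; omega))
        (m := Q * b) (n := b) (s := S₁) rfl (by rw [hb]) hcon
      have e2 : (finrank ℚ K : ℝ) * (S₁ * ω / (2 * r)) ≤
          S₁ * Real.log P.absNorm / (2 * r * e) := by
        have he0 : (0 : ℝ) < e := by exact_mod_cast he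
        rw [mul_div_assoc', div_le_div_iff₀ (by positivity) (by positivity)]
        have h5 := mul_le_mul_of_nonneg_left hω (show (0 : ℝ) ≤ S₁ * (2 * r) by positivity)
        nlinarith
      have e3 := e2.trans e1
      have e4 := le_of_mul_le_mul_left e3 hκ0
      push_cast at e4 h2 hh'
      linarith)
  -- the relation over `K`
  obtain ⟨Γ, hΓ0, hΓ1, hΓ2, hΓ3⟩ := hTrc K L {i // i ∈ Finset.range (W + 1)} (fun i => X i)
    (fun i => τ (X i)) G (Q * b) b hG0 hG1 hG2 (fun σ i => hG3 (i, σ))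
  have hΓ4 : ∀ i ≤ W, ev (X i) (τ (X i)) Γ = 0 := fun i hi =>
    hΓ3 ⟨i, Finset.mem_range.mpr (by omega)⟩
  have hdeg' : ∀ i ≤ 2 * W, 2 * (Q * b) * b * q ^ (2 * W) < (minpoly K (X i)).natDegree := by
    intro i hi
    rw [← hmin i hi]
    exact lt_of_lt_of_le hdeg (hDi i hi)
  have hdegQ : ∀ i ≤ 2 * W, 2 * (Q * b) * b < (minpoly K (X i)).natDegree := by
    intro i hi
    refine lt_of_le_of_lt ?_ (hdeg' i hi)
    exact Nat.le_mul_of_pos_right _ hqW
  have hQbb : Q * b ≤ 2 * (Q * b) * b := by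
    have : Q * b ≤ (Q * b) * b := Nat.le_mul_of_pos_right _ hb1
    have h5 : 2 * (Q * b) * b = 2 * ((Q * b) * b) := by ring
    omega
  -- the irreducible relations
  have hfac : ∀ i, i ≤ W → ∃ g : K[X][X], Irreducible g ∧ g ∣ Γ ∧ 1 ≤ g.natDegree ∧
      g.natDegree ≤ b ∧ XD (Q * b) g ∧ ev (X i) (τ (X i)) g = 0 := fun i hi =>
    exists_factor hΓ0 hΓ1 hΓ2 (lt_of_le_of_lt hQbb (hdegQ i (by omega))) (hΓ4 i hi)
  choose! g hg1 hg2 hg3 hg4 hg5 hg6 using hfac
  have hnd : ∀ i ≤ W, Q * b + Q * (g i).natDegree ≤ 2 * Q * b := by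
    intro i hi
    have : Q * (g i).natDegree ≤ Q * b := Nat.mul_le_mul_left _ (hg4 i hi)
    have h5 : 2 * Q * b = Q * b + Q * b := by ring
    omega
  by_cases hAs : ∃ i i', i < i' ∧ i' ≤ W ∧ Associated (g i) (g i')
  · -- a periodic relation
    obtain ⟨i, i', hii, hi', hass⟩ := hAs
    have hi : i ≤ W := by omega
    obtain ⟨k, hk⟩ : ∃ k, i' = i + k := ⟨i' - i, by omega⟩
    have hk1 : 1 ≤ k := by omega
    have hv' : ev (X i') (τ (X i')) (g i) = 0 := by
      obtain ⟨u, hu⟩ := hass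
      have h5 := hg6 i' hi'
      rw [ev_eq, ← hu, map_mul, mul_eq_zero] at h5
      rcases h5 with h5 | h5
      · exact h5
      · exact absurd h5 (u.isUnit.map (evH K (X i') (τ (X i')))).ne_zero
    have hO := exists_orb hB hq hF hx hw τ
    have hper := hPer K L q b (Q * b) W (by omega) X (fun i => τ (X i)) (JJ F x)
      (fun i j hi hj => hO.miss i j hi hj) (fun j _ => by
        rw [hX]
        exact exists_frac hF x τ j)
      (fun i hi => ⟨hJ i hi, hdeg' i hi⟩) (g i) (hg1 i hi) (hg3 i hi) (hg4 i hi) (hg5 i hi) i k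
      hk1 (by omega) (hg6 i hi) (by rw [← hk]; exact hv')
    have hXg : XD (g i).natDegree (g i) := by
      refine hHG K L (g i) (hg1 i hi) (hg3 i hi) fun B => ?_
      obtain ⟨s, hs'⟩ := hgt_tendsto hB hq hx hpos B
      obtain ⟨n, hn, hns⟩ : ∃ n, i + n * k ∈ JJ F x ∧ s ≤ i + n * k := by
        have hnk : ∀ n, n ≤ n * k := fun n => Nat.le_mul_of_pos_right _ (by omega)
        by_cases h1 : i + s * k ∈ JJ F x
        · exact ⟨s, h1, by have := hnk s; omega⟩
        · refine ⟨s + 1, ?_, by have := hnk (s + 1); omega⟩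
          by_contra h2
          have h3 := hO.miss _ _ h1 h2
          have h4 : (s + 1) * k = s * k + k := by ring
          omega
      refine ⟨X (i + n * k), τ (X (i + n * k)), hper n hn, hgt_gal τ _, ?_⟩
      rw [hX]
      exact hs' _ hn hns
    obtain ⟨s, f, -, h6, h7, h8, h9⟩ := hLoc K P hP0 Q (g i).natDegree (g i) (hg1 i hi).ne_zero hXg
    have hs0 := h6 (lt_of_le_of_lt (hg4 i hi) hbQ)
    have hfd' : f.natDegree ≤ 2 * Q * b := by
      refine h8.trans (le_trans ?_ (hnd i hi))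
      apply Nat.add_le_add_right
      exact (hg4 i hi).trans (Nat.le_mul_of_pos_left _ hQ1)
    have h10 := hgood i hi 1 f h7 hfd'
    obtain ⟨v, hv, h11, h12, h13⟩ := exists_of_comb (TP L P) (fun v => ew K v) _ hsum0 h10
    have h14 := h9 L v hv (X i) (τ (X i)) (hg6 i hi) h12 h13 (hFPlt i 1 v hv h11 h12)
    omega
  · -- many different relations
    push Not at hAs
    have hloc := fun i (hi : i ≤ W) => hLoc K P hP0 Q (Q * b) (g i) (hg1 i hi).ne_zero (hg5 i hi)
    choose! s f hs1 hs2 hs3 hs4 hs5 using hloc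
    have hfd' : ∀ i ≤ W, (f i).natDegree ≤ 2 * Q * b := fun i hi => (hs4 i hi).trans (hnd i hi)
    have hspos : ∀ i ≤ W, 1 ≤ s i := by
      intro i hi
      have h10 := hgood i hi 1 (f i) (hs3 i hi) (hfd' i hi)
      obtain ⟨v, hv, h11, h12, h13⟩ := exists_of_comb (TP L P) (fun v => ew K v) _ hsum0 h10
      exact (hs5 i hi L v hv (X i) (τ (X i)) (hg6 i hi) h12 h13 (hFPlt i 1 v hv h11 h12)).1
    -- comparable multiplicities
    obtain ⟨u, -, hu⟩ := Finset.exists_le_card_fiber_of_mul_le_card_of_maps_to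
      (s := Finset.range (W + 1)) (t := Finset.range (Nat.log 2 b + 1))
      (f := fun i => Nat.log 2 (s i)) (n := M) (by
        intro i hi
        have hi' : i ≤ W := by
          have := Finset.mem_range.mp hi
          omega
        rw [Finset.mem_range]
        have : Nat.log 2 (s i) ≤ Nat.log 2 b :=
          Nat.log_mono_right ((hs1 i hi').trans (hg4 i hi'))
        omega) ⟨0, by simp⟩ (by
        rw [Finset.card_range, Finset.card_range, mul_comm]
        omega)
    obtain ⟨J, hJJ⟩ : ∃ J, J = (Finset.range (W + 1)).filter fun i => Nat.log 2 (s i) = u :=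
      ⟨_, rfl⟩
    have hJM : M ≤ J.card := by
      rw [hJJ]
      exact hu
    have hJW : ∀ j ∈ J, j ≤ W := by
      intro j hj
      rw [hJJ] at hj
      have := Finset.mem_range.mp (Finset.mem_filter.mp hj).1
      omega
    have hJs : ∀ j ∈ J, 2 ^ u ≤ s j ∧ s j ≤ 2 ^ (u + 1) := by
      intro j hj
      have h5 : Nat.log 2 (s j) = u := by
        rw [hJJ] at hj
        exact (Finset.mem_filter.mp hj).2
      have h6 := hspos j (hJW j hj)
      refine ⟨?_, ?_⟩
      · rw [← h5]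
        exact Nat.pow_log_le_self 2 (by omega)
      · rw [← h5]
        exact (Nat.lt_pow_succ_log_self (by norm_num) (s j)).le
    have hne : ∀ i ∈ J, ∀ j ∈ J, i ≠ j → ¬ Associated (g i) (g j) := by
      intro i hi j hj hij
      rcases lt_or_gt_of_ne hij with h | h
      · exact hAs i j h (hJW j hj)
      · exact fun h' => hAs j i h (hJW i hi) h'.symm
    obtain ⟨β, hβ⟩ : ∃ β, β = ∑ j ∈ J, (g j).natDegree := ⟨_, rfl⟩
    have hβb : β ≤ b := by
      rw [hβ]
      exact (sum_natDegree_le hΓ0 J g (fun j hj => ⟨hg1 j (hJW j hj), hg2 j (hJW j hj)⟩)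
        hne).trans hΓ1
    have hβM : M * 2 ^ u ≤ β := by
      rw [hβ]
      calc M * 2 ^ u ≤ J.card * 2 ^ u := Nat.mul_le_mul_right _ hJM
        _ = ∑ j ∈ J, 2 ^ u := by rw [Finset.sum_const, smul_eq_mul]
        _ ≤ ∑ j ∈ J, (g j).natDegree := Finset.sum_le_sum fun j hj =>
            (hJs j hj).1.trans (hs1 j (hJW j hj))
    obtain ⟨n, hn⟩ : ∃ n, β = n + 1 := by
      have h5 : 1 ≤ 2 ^ u := Nat.one_le_pow _ _ (by norm_num)
      have h6 : 1 ≤ M * 2 ^ u := Nat.mul_pos (by omega) h5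
      exact ⟨β - 1, by omega⟩
    obtain ⟨t, ht⟩ : ∃ t, t = n / (12 * r) := ⟨_, rfl⟩
    have hnb : n ≤ b := by omega
    have hQn : Q * n ≤ Q * b := Nat.mul_le_mul_left _ hnb
    have hrk := hRnk K L J X (fun i => τ (X i)) g (Q * b) b (Q * n) n (fun j hj => by
      have hj' := hJW j hj
      refine ⟨hg1 j hj', hg3 j hj', hg4 j hj', hg5 j hj', hg6 j hj', ?_⟩
      refine lt_of_le_of_lt ?_ (hdegQ j (by omega))
      have e1 : Q * b * n ≤ Q * b * b := Nat.mul_le_mul_left _ hnb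
      have e2 : Q * n * b ≤ Q * b * b := Nat.mul_le_mul_right _ hQn
      have e3 : 2 * (Q * b) * b = Q * b * b + Q * b * b := by ring
      omega) hne (by omega)
    have hs₁0 : (0 : ℝ) < ((2 ^ (u + 1) : ℕ) : ℝ) := by positivity
    have e1 := two_apply hTwo hB hq hF hc hP0 hG
      (fun iσ : {j // j ∈ J} × Gal(L/K) => iσ.2 (X iσ.1))
      (fun iσ : {j // j ∈ J} × Gal(L/K) => iσ.2 (τ (X iσ.1))) hQ1 hr
      (e := ((2 ^ (u + 1) : ℕ) : ℝ)) hs₁0
      (fun v => Finset.univ.filter fun iσ : {j // j ∈ J} × Gal(L/K) =>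
        ¬ (FP K v Q (iσ.2 (X iσ.1)) (iσ.2 (τ (X iσ.1))) ∧
          (v (iσ.2 (X iσ.1)) ≤ 1 ∧ v (aeval (iσ.2 (X iσ.1)) (f iσ.1)) = 1)))
      (fun v hv iσ hi => by
        rw [Finset.mem_filter] at hi
        push Not at hi
        obtain ⟨h5, h6, h7⟩ := hi (Finset.mem_univ _)
        refine ⟨h6, ?_⟩
        have hj := hJW _ iσ.1.2
        have h8 := hFPlt _ _ v hv h5 h6
        have h9 := (hs5 _ hj L v hv _ _ (ev_gal iσ.2 (hg6 _ hj)) h6 h7 h8).2
        apply le_of_pow_le (Nat.one_le_pow _ _ (by norm_num))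
        refine le_trans (pow_le_pow_of_le_one (apply_nonneg v _) h8.le (hJs _ iσ.1.2).2) h9)
      (fun iσ => by
        have hj := hJW _ iσ.1.2
        have h5 := hgood iσ.1 hj iσ.2 (f iσ.1) (hs3 _ hj) (hfd' _ hj)
        refine h5.trans (le_of_eq ?_)
        congr 1
        refine Finset.sum_congr rfl fun v _ => ?_
        simp only [Finset.mem_filter, Finset.mem_univ, true_and, not_not])
      hH0.le (fun iσ => by
        rw [canH_conj]
        exact hcan _ (hJW _ iσ.1.2))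
      (fun iσ => by
        rw [canH_conj, canH_conj]
        exact hcan _ (hJW _ iσ.1.2))
      (m := Q * n) (n := n) (s := t) rfl (by
        rw [ht]
        exact Nat.mul_div_le n (12 * r)) hrk
    -- the numerical contradiction
    have hu1 : 1 ≤ 2 ^ u := Nat.one_le_pow _ _ (by norm_num)
    have ht1 : M * 2 ^ u ≤ 48 * r * t := by
      have h5 : 12 * r * t + 12 * r > n := by
        rw [ht]
        have := Nat.lt_mul_div_succ n (show 0 < 12 * r by omega)
        have h6 : 12 * r * (n / (12 * r) + 1) = 12 * r * (n / (12 * r)) + 12 * r := by ring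
        omega
      have h6 : 48 * r ≤ M * 2 ^ u := by
        calc 48 * r = 48 * r * 1 := by ring
          _ ≤ M * 2 ^ u := Nat.mul_le_mul hM hu1
      have h7 : 48 * r * t = 4 * (12 * r * t) := by ring
      omega
    have ht2 : (M : ℝ) / (96 * r) ≤ t / ((2 ^ (u + 1) : ℕ) : ℝ) := by
      rw [div_le_div_iff₀ (by positivity) hs₁0]
      have h5 : M * 2 ^ (u + 1) ≤ t * (96 * r) := by
        calc M * 2 ^ (u + 1) = 2 * (M * 2 ^ u) := by ring
          _ ≤ 2 * (48 * r * t) := Nat.mul_le_mul_left _ ht1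
          _ = t * (96 * r) := by ring
      exact_mod_cast h5
    have hPn := log_norm_pos (K := K) hP0
    have e2 : (M : ℝ) * Real.log P.absNorm / (192 * r ^ 2) ≤
        t * Real.log P.absNorm / (2 * r * ((2 ^ (u + 1) : ℕ) : ℝ)) := by
      have h5 : t * Real.log P.absNorm / (2 * r * ((2 ^ (u + 1) : ℕ) : ℝ)) =
          t / ((2 ^ (u + 1) : ℕ) : ℝ) * (Real.log P.absNorm / (2 * r)) := by
        field_simp
      have h6 : (M : ℝ) * Real.log P.absNorm / (192 * r ^ 2) =
          (M : ℝ) / (96 * r) * (Real.log P.absNorm / (2 * r)) := by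
        field_simp
        ring
      rw [h5, h6]
      exact mul_le_mul_of_nonneg_right ht2 (by positivity)
    have hE0 : 0 ≤ hC A a * (c + q : ℕ) := mul_nonneg hB.hC_nonneg (Nat.cast_nonneg _)
    have e3 : ((Q * n : ℕ) + (n : ℕ) : ℝ) * H ≤ 1 := by
      refine le_trans (mul_le_mul_of_nonneg_right ?_ hH0.le) hh'
      have : Q * n + n ≤ Q * b + b := by omega
      exact_mod_cast this
    have e4 : hC A a * (c + q : ℕ) * (1 + Nat.log 2 (Q * n) : ℕ) ≤
        hC A a * (c + q : ℕ) * (1 + Nat.log 2 (Q * b) : ℕ) := by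
      apply mul_le_mul_of_nonneg_left _ hE0
      have : Nat.log 2 (Q * n) ≤ Nat.log 2 (Q * b) := Nat.log_mono_right hQn
      exact_mod_cast (by omega : 1 + Nat.log 2 (Q * n) ≤ 1 + Nat.log 2 (Q * b))
    have e5 : hC A a * (c + q : ℕ) * (1 + Nat.log 2 n : ℕ) ≤
        hC A a * (c + q : ℕ) * (1 + Nat.log 2 b : ℕ) := by
      apply mul_le_mul_of_nonneg_left _ hE0
      have : Nat.log 2 n ≤ Nat.log 2 b := Nat.log_mono_right hnb
      exact_mod_cast (by omega : 1 + Nat.log 2 n ≤ 1 + Nat.log 2 b)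
    have e6 : Real.log ((Q * n + 1) * (n + 1) : ℕ) ≤ Real.log ((Q * b + 1) * (b + 1) : ℕ) := by
      apply Real.log_le_log (by positivity)
      exact_mod_cast Nat.mul_le_mul (by omega) (by omega)
    have e7 := e2.trans e1
    have e8 : (M : ℝ) * Real.log P.absNorm / (192 * r ^ 2) =
        finrank ℚ K * (M * Real.log P.absNorm / (192 * r ^ 2 * finrank ℚ K)) := by
      field_simp
    rw [e8] at e7
    have e9 := le_of_mul_le_mul_left e7 hκ0
    linarith

end

end Pool.Agent.N715.AC
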