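import Mathlib
import Pool.Agent.N715.AC.Stm

/-!
Project AC, part LOC: a relation over `K` between `x` and `y` with `y` close to `x ^ Q`.
-/

set_option autoImplicit false
set_option linter.unusedSectionVars false

namespace Pool.Agent.N715.AC

open NumberField Module Polynomial IsDedekindDomain
open Pool.Agent.H420R3 (mi nv TP ew)
open Pool.Agent.R829.BG (XD)
open Pool.Agent.N715.AB (ev)

noncomputable section

namespace LocA

section scale

variable {K : Type} [Field K] [NumberField K]

lemma exists_place (P : Ideal (𝓞 K)) [P.IsMaximal] (hP0 : P ≠ ⊥) :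
    ∃ v : FinitePlace K, mi v = P := by
  let w : HeightOneSpectrum (𝓞 K) := ⟨P, inferInstance, hP0⟩
  refine ⟨FinitePlace.mk w, ?_⟩
  unfold mi
  rw [FinitePlace.maximalIdeal_mk]

/-- scaling a finite family -/
lemma exists_scale (P : Ideal (𝓞 K)) [P.IsMaximal] (hP0 : P ≠ ⊥) {ι : Type} (S : Finset ι)
    (a : ι → K) (h : ∃ i ∈ S, a i ≠ 0) :
    ∃ β : K, (∀ i ∈ S, ∃ b : 𝓞 K, β * a i = (b : K)) ∧
      ∃ i ∈ S, ∃ b : 𝓞 K, b ∉ P ∧ β * a i = (b : K) := by
  classical
  obtain ⟨v, hv⟩ := exists_place P hP0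
  obtain ⟨j, hj, hj0⟩ := h
  obtain ⟨i₀, hi₀, hmax⟩ := S.exists_max_image (fun i => v (a i)) ⟨j, hj⟩
  have h0 : a i₀ ≠ 0 := by
    intro h
    have h1 := hmax j hj
    simp only [h, map_zero] at h1
    have h2 : 0 < v (a j) := FinitePlace.pos_iff.2 hj0
    linarith
  have hfr : ∀ i, ∃ n d : 𝓞 K, i ∈ S → d ∉ P ∧ a i / a i₀ = (n : K) / (d : K) := by
    intro i
    by_cases hi : i ∈ S
    · have h1 : v (a i / a i₀) ≤ 1 := by
        rw [map_div₀, div_le_one (FinitePlace.pos_iff.2 h0)]
        exact hmax i hi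
      obtain ⟨n, d, hd, hnd⟩ := Pool.Agent.H420R3.exists_frac v h1
      rw [hv] at hd
      exact ⟨n, d, fun _ => ⟨hd, hnd⟩⟩
    · exact ⟨0, 0, fun h => absurd h hi⟩
  choose n d hnd using hfr
  set D : 𝓞 K := ∏ i ∈ S, d i with hD
  have hDP : D ∉ P := by
    rw [hD, Ideal.IsPrime.prod_mem_iff]
    rintro ⟨i, hi, hd⟩
    exact (hnd i hi).1 hd
  refine ⟨(D : K) / a i₀, ?_, i₀, hi₀, D, hDP, by rw [div_mul_cancel₀ _ h0]⟩
  intro i hi
  obtain ⟨h1, h2⟩ := hnd i hi
  refine ⟨(∏ j ∈ S.erase i, d j) * n i, ?_⟩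
  have hcm : ∀ a b : 𝓞 K, ((a * b : 𝓞 K) : K) = a * b := fun a b =>
    map_mul (algebraMap (𝓞 K) K) a b
  have hdi : (d i : K) ≠ 0 := by
    rw [RingOfIntegers.coe_ne_zero_iff]
    rintro h
    rw [h] at h1
    exact h1 P.zero_mem
  have h3 : (D : K) = ((∏ j ∈ S.erase i, d j : 𝓞 K) : K) * (d i : K) := by
    rw [hD, ← Finset.prod_erase_mul S d hi, hcm]
  rw [div_mul_eq_mul_div, mul_div_assoc, h2, h3, hcm]
  field_simp

/-- integral and primitive polynomials -/
lemma exists_int (P : Ideal (𝓞 K)) [P.IsMaximal] (hP0 : P ≠ ⊥) (g : K[X][X]) (hg : g ≠ 0) :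
    ∃ (β : K) (G : (𝓞 K)[X][X]), G.map (mapRingHom (algebraMap (𝓞 K) K)) = C (C β) * g ∧
      (∃ k n, (G.coeff k).coeff n ∉ P) ∧ β ≠ 0 := by
  classical
  obtain ⟨A, hA⟩ : ∃ A : ℕ, ∀ k, (g.coeff k).natDegree ≤ A := by
    refine ⟨∑ k ∈ Finset.range (g.natDegree + 1), (g.coeff k).natDegree, fun k => ?_⟩
    by_cases hk : k ∈ Finset.range (g.natDegree + 1)
    · exact Finset.single_le_sum (f := fun k => (g.coeff k).natDegree) (fun _ _ => Nat.zero_le _) hk
    · rw [Finset.mem_range, not_lt] at hk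
      rw [coeff_eq_zero_of_natDegree_lt (by omega), natDegree_zero]
      exact Nat.zero_le _
  set S : Finset (ℕ × ℕ) := Finset.range (g.natDegree + 1) ×ˢ Finset.range (A + 1) with hS
  have hout : ∀ k n, (k, n) ∉ S → (g.coeff k).coeff n = 0 := by
    intro k n h
    rw [hS, Finset.mem_product, Finset.mem_range, Finset.mem_range, not_and_or] at h
    rcases h with h | h
    · have h1 : g.coeff k = 0 := coeff_eq_zero_of_natDegree_lt (by omega)
      rw [h1, coeff_zero]
    · have := hA k
      exact coeff_eq_zero_of_natDegree_lt (by omega)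
  obtain ⟨β, h1, h2⟩ := exists_scale P hP0 S (fun x => (g.coeff x.1).coeff x.2) (by
    by_contra hcon
    push Not at hcon
    apply hg
    ext k n
    by_cases h : (k, n) ∈ S
    · exact hcon _ h
    · exact hout k n h)
  have hall : ∀ k n, ∃ b : 𝓞 K, β * (g.coeff k).coeff n = (b : K) := by
    intro k n
    by_cases h : (k, n) ∈ S
    · exact h1 _ h
    · exact ⟨0, by rw [hout k n h]; simp⟩
  obtain ⟨G, hG⟩ : ∃ G : (𝓞 K)[X][X],
      G.map (mapRingHom (algebraMap (𝓞 K) K)) = C (C β) * g := by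
    rw [← Polynomial.mem_lifts, Polynomial.lifts_iff_coeff_lifts]
    intro k
    rw [coeff_C_mul]
    have h3 : C β * g.coeff k ∈ lifts (algebraMap (𝓞 K) K) := by
      rw [lifts_iff_coeff_lifts]
      intro n
      rw [coeff_C_mul]
      obtain ⟨b, hb⟩ := hall k n
      exact ⟨b, hb.symm⟩
    obtain ⟨q, hq⟩ := (mem_lifts _).1 h3
    exact ⟨q, hq⟩
  obtain ⟨⟨k, n⟩, -, b, hb, hb'⟩ := h2
  have hco : ((G.coeff k).coeff n : K) = β * (g.coeff k).coeff n := by
    have h3 := congrArg (fun p => (p.coeff k).coeff n) hG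
    simp only [coeff_map, coeff_C_mul, coe_mapRingHom] at h3
    exact h3
  refine ⟨β, G, hG, ⟨k, n, ?_⟩, ?_⟩
  · have h4 : (G.coeff k).coeff n = b := by
      apply RingOfIntegers.coe_injective
      exact hco.trans hb'
    rw [h4]
    exact hb
  · rintro rfl
    apply hb
    have h4 : b = 0 := by
      apply RingOfIntegers.coe_injective
      refine hb'.symm.trans ?_
      simp
    rw [h4]
    exact P.zero_mem

end scale

section taylor

variable {R : Type} [CommRing R] [IsDomain R]

/-- the degrees of the coefficients after the substitution `Y + X ^ Q` -/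
lemma natDegree_taylor_coeff {A Q b : ℕ} {G : R[X][X]} (hA : ∀ k, (G.coeff k).natDegree ≤ A)
    (hb : G.natDegree ≤ b) (k : ℕ) : ((taylor (X ^ Q) G).coeff k).natDegree ≤ A + Q * b := by
  rw [taylor_coeff, eval_eq_sum_range]
  refine natDegree_sum_le_of_forall_le _ _ fun l hl => ?_
  rw [Finset.mem_range] at hl
  have hl' : l ≤ b := by
    have h1 : (hasseDeriv k G).natDegree ≤ G.natDegree :=
      (natDegree_hasseDeriv_le G k).trans (Nat.sub_le _ _)
    omega
  refine natDegree_mul_le.trans ?_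
  have h2 : ((hasseDeriv k G).coeff l).natDegree ≤ A := by
    rw [hasseDeriv_coeff]
    refine natDegree_mul_le.trans ?_
    rw [natDegree_natCast, zero_add]
    exact hA _
  have h3 : (((X : R[X]) ^ Q) ^ l).natDegree ≤ Q * b := by
    rw [← pow_mul]
    refine (natDegree_X_pow_le _).trans ?_
    exact Nat.mul_le_mul_left _ hl'
  omega

/-- if `A < Q` the constant coefficient contains all coefficients -/
lemma coeff_eval_X_pow {A Q : ℕ} {G : R[X][X]} (hA : ∀ k, (G.coeff k).natDegree ≤ A)
    (hQ : A < Q) {k n : ℕ} (hn : n ≤ A) :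
    (G.eval (X ^ Q)).coeff (n + Q * k) = (G.coeff k).coeff n := by
  rw [eval_eq_sum_range' (n := G.natDegree + k + 1) (by omega), finsetSum_coeff,
    Finset.sum_eq_single k]
  · rw [← pow_mul, coeff_mul_X_pow]
  · intro l _ hl
    rw [← pow_mul, coeff_mul_X_pow']
    split_ifs with h
    · apply coeff_eq_zero_of_natDegree_lt
      have h1 := hA l
      rcases Nat.lt_or_gt_of_ne hl with h2 | h2
      · have h3 : Q * (l + 1) ≤ Q * k := Nat.mul_le_mul_left _ h2
        rw [Nat.mul_add, Nat.mul_one] at h3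
        omega
      · exfalso
        have h3 : Q * (k + 1) ≤ Q * l := Nat.mul_le_mul_left _ h2
        rw [Nat.mul_add, Nat.mul_one] at h3
        omega
    · rfl
  · intro h
    exfalso
    apply h
    rw [Finset.mem_range]
    omega

lemma map_taylor' {S : Type} [CommRing S] (f : R →+* S) (r : R) (G : R[X]) :
    (taylor r G).map f = taylor (f r) (G.map f) := by
  rw [taylor_apply, taylor_apply, Polynomial.map_comp]
  simp

/-- not all coefficients are in the ideal after the substitution -/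
lemma exists_taylor {P : Ideal R} (r : R[X]) {G : R[X][X]} (h : ∃ k n, (G.coeff k).coeff n ∉ P) :
    ∃ k n, ((taylor r G).coeff k).coeff n ∉ P := by
  by_contra hcon
  push Not at hcon
  obtain ⟨k, n, hkn⟩ := h
  have h1 : ((taylor r G).map (mapRingHom (Ideal.Quotient.mk P))) = 0 := by
    ext i j
    rw [coeff_map, coe_mapRingHom, coeff_map, coeff_zero, coeff_zero,
      Ideal.Quotient.eq_zero_iff_mem]
    exact hcon i j
  rw [map_taylor', taylor_eq_zero] at h1
  apply hkn
  rw [← Ideal.Quotient.eq_zero_iff_mem]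
  have h2 := congrArg (fun p => (p.coeff k).coeff n) h1
  simpa using h2

end taylor

section eval

variable {K : Type} [Field K] [NumberField K] {L : Type} [Field L] [NumberField L] [Algebra K L]

lemma eval_taylor {β : K} {g : K[X][X]} {G : (𝓞 K)[X][X]}
    (hG : G.map (mapRingHom (algebraMap (𝓞 K) K)) = C (C β) * g) {x y : L}
    (h : ev x y g = 0) (Q : ℕ) :
    ((taylor (X ^ Q) G).map (eval₂RingHom (algebraMap (𝓞 K) L) x)).eval (y - x ^ Q) = 0 := by
  rw [map_taylor', taylor_eval]
  have h1 : (eval₂RingHom (algebraMap (𝓞 K) L) x) (X ^ Q) = x ^ Q := by simp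
  rw [h1, sub_add_cancel]
  have h2 : (eval₂RingHom (algebraMap K L) x).comp (mapRingHom (algebraMap (𝓞 K) K)) =
      eval₂RingHom (algebraMap (𝓞 K) L) x := by
    apply Polynomial.ringHom_ext
    · intro a
      simp [← IsScalarTower.algebraMap_apply]
    · simp
  rw [← h2, ← Polynomial.map_map, hG, Polynomial.map_mul, eval_mul]
  have h3 : (g.map (eval₂RingHom (algebraMap K L) x)).eval y = ev x y g := by
    unfold ev
    rw [← map_evalRingHom_eval, Polynomial.map_map]
    congr 2
    apply Polynomial.ringHom_ext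
    · intro a
      simp
    · simp
  rw [h3, h, mul_zero]

/-- values of integral polynomials -/
lemma v_eval_le (w : FinitePlace L) {x : L} (hx : w x ≤ 1) (f : (𝓞 K)[X]) {B : ℝ} (hB : 0 ≤ B)
    (hf : ∀ n, w (algebraMap (𝓞 K) L (f.coeff n)) ≤ B) :
    w (f.eval₂ (algebraMap (𝓞 K) L) x) ≤ B := by
  rw [eval₂_eq_sum_range]
  refine Pool.Agent.W238.Leh.v_sum_le w _ _ hB fun i _ => ?_
  rw [map_mul, map_pow]
  have h1 : w x ^ i ≤ 1 := pow_le_one₀ (apply_nonneg w x) hx
  calc w (algebraMap (𝓞 K) L (f.coeff i)) * w x ^ i ≤ B * 1 :=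
        mul_le_mul (hf i) h1 (pow_nonneg (apply_nonneg w x) _) hB
    _ = B := mul_one B

lemma v_int (w : FinitePlace L) (a : 𝓞 K) : w (algebraMap (𝓞 K) L a) ≤ 1 := by
  have h := Pool.Agent.H420R3.v_le_one w (algebraMap (𝓞 K) (𝓞 L) a)
  exact h

end eval

end LocA

open LocA

/-- (LOC) -/
theorem locLem : LocLem := by
  classical
  intro K _ _ P _ hP0 Q A g hg hA
  obtain ⟨β, G, hG, hprim, hβ⟩ := exists_int P hP0 g hg
  have hinj : Function.Injective (algebraMap (𝓞 K) K) := RingOfIntegers.coe_injective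
  have hinj' : Function.Injective (mapRingHom (algebraMap (𝓞 K) K)) := map_injective _ hinj
  have hβ' : (C (C β) : K[X][X]) ≠ 0 := by simpa using hβ
  have hdeg : G.natDegree = g.natDegree := by
    have h1 : (G.map (mapRingHom (algebraMap (𝓞 K) K))).natDegree = g.natDegree := by
      rw [hG, natDegree_C_mul_of_mul_ne_zero]
      exact mul_ne_zero (by simpa using hβ) (leadingCoeff_ne_zero.2 hg)
    rwa [natDegree_map_eq_of_injective hinj'] at h1
  have hGA : ∀ k, (G.coeff k).natDegree ≤ A := by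
    intro k
    have h1 : (G.coeff k).map (algebraMap (𝓞 K) K) = C β * g.coeff k := by
      have h2 := congrArg (fun p => p.coeff k) hG
      simpa using h2
    have h2 : ((G.coeff k).map (algebraMap (𝓞 K) K)).natDegree ≤ A := by
      rw [h1]
      exact (natDegree_C_mul_le _ _).trans (hA k)
    rwa [natDegree_map_eq_of_injective hinj] at h2
  set T : (𝓞 K)[X][X] := taylor (X ^ Q) G with hT
  have hex : ∃ k, ∃ n, (T.coeff k).coeff n ∉ P := exists_taylor _ hprim
  set s : ℕ := Nat.find hex with hs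
  have hspec : ∃ n, (T.coeff s).coeff n ∉ P := Nat.find_spec hex
  have hmin : ∀ k < s, ∀ n, (T.coeff k).coeff n ∈ P := by
    intro k hk n
    by_contra hcon
    exact Nat.find_min hex hk ⟨n, hcon⟩
  refine ⟨s, (T.coeff s).map (algebraMap (𝓞 K) K), ?_, ?_, ?_, ?_, ?_⟩
  · -- the degree
    by_contra hcon
    push Not at hcon
    obtain ⟨n, hn⟩ := hspec
    apply hn
    rw [coeff_eq_zero_of_natDegree_lt (p := T) (by rw [hT, natDegree_taylor, hdeg]; exact hcon)]
    simp
  · intro hAQ
    obtain ⟨k, n, hkn⟩ := hprim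
    have hn : n ≤ A := by
      by_contra hcon
      apply hkn
      rw [coeff_eq_zero_of_natDegree_lt (by have := hGA k; omega)]
      exact P.zero_mem
    have h1 : ∃ n, (T.coeff 0).coeff n ∉ P := by
      refine ⟨n + Q * k, ?_⟩
      rw [hT, taylor_coeff_zero, coeff_eval_X_pow hGA hAQ hn]
      exact hkn
    have h2 : s ≤ 0 := Nat.find_min' hex h1
    omega
  · refine ⟨fun n => ⟨(T.coeff s).coeff n, coeff_map _ _⟩, ?_⟩
    obtain ⟨n, hn⟩ := hspec
    exact ⟨n, (T.coeff s).coeff n, hn, coeff_map _ _⟩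
  · rw [natDegree_map_eq_of_injective hinj]
    exact natDegree_taylor_coeff hGA hdeg.le s
  · intro L _ _ _ w hw x y hev hx hc hφ
    have hcw : aeval x ((T.coeff s).map (algebraMap (𝓞 K) K)) =
        (T.coeff s).eval₂ (algebraMap (𝓞 K) L) x := by
      rw [aeval_def, eval₂_map, ← IsScalarTower.algebraMap_eq]
    rw [hcw] at hc
    have h0 := eval_taylor hG hev Q
    rw [← hT] at h0
    set φ : L := y - x ^ Q with hφd
    set e : ℕ → L := fun k => (T.coeff k).eval₂ (algebraMap (𝓞 K) L) x with he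
    rw [eval_eq_sum_range' (n := (T.map (eval₂RingHom (algebraMap (𝓞 K) L) x)).natDegree + s + 1)
      (by omega)] at h0
    have hmem : s ∈ Finset.range
        ((T.map (eval₂RingHom (algebraMap (𝓞 K) L) x)).natDegree + s + 1) := by
      rw [Finset.mem_range]; omega
    rw [← Finset.add_sum_erase _ _ hmem] at h0
    simp only [coeff_map, coe_eval₂RingHom] at h0
    have h1 : e s * φ ^ s = -∑ k ∈ (Finset.range
        ((T.map (eval₂RingHom (algebraMap (𝓞 K) L) x)).natDegree + s + 1)).erase s,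
        e k * φ ^ k := eq_neg_of_add_eq_zero_left h0
    have hφ0 : 0 ≤ w φ := apply_nonneg w φ
    have hB : w (e s * φ ^ s) ≤ max (Real.exp (-ew K w)) (w φ ^ (s + 1)) := by
      rw [h1, Pool.Agent.H420R3.v_neg]
      refine Pool.Agent.W238.Leh.v_sum_le w _ _ (le_max_of_le_left (Real.exp_pos _).le) ?_
      intro k hk
      rw [map_mul, map_pow]
      have hk' : k ≠ s := (Finset.mem_erase.1 hk).1
      rcases Nat.lt_or_gt_of_ne hk' with h | h
      · refine le_max_of_le_left ?_
        have h2 : w (e k) ≤ Real.exp (-ew K w) :=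
          v_eval_le w hx _ (Real.exp_pos _).le fun n =>
            Pool.Agent.H420R3.v_le_of_mem_P hP0 hw (hmin k h n)
        calc w (e k) * w φ ^ k ≤ Real.exp (-ew K w) * 1 :=
              mul_le_mul h2 (pow_le_one₀ hφ0 hφ.le) (pow_nonneg hφ0 _) (Real.exp_pos _).le
          _ = _ := mul_one _
      · refine le_max_of_le_right ?_
        have h2 : w (e k) ≤ 1 := v_eval_le w hx _ zero_le_one fun n => v_int w _
        calc w (e k) * w φ ^ k ≤ 1 * w φ ^ (s + 1) :=
              mul_le_mul h2 (pow_le_pow_of_le_one hφ0 hφ.le h) (pow_nonneg hφ0 _) zero_le_one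
          _ = _ := one_mul _
    rw [map_mul, map_pow, he] at hB
    simp only [] at hB
    rw [hc, one_mul] at hB
    have hexp : Real.exp (-ew K w) < 1 := by
      rw [Real.exp_lt_one_iff]
      linarith [Pool.Agent.H420R3.ew_pos (K := K) w]
    constructor
    · by_contra hcon
      have hs0 : s = 0 := by omega
      rw [hs0, pow_zero, zero_add, pow_one] at hB
      have := max_lt hexp hφ
      linarith
    · rcases le_max_iff.1 hB with h | h
      · exact h
      · rcases hφ0.eq_or_lt with h2 | h2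
        · rw [← h2] at h ⊢
          rw [zero_pow (Nat.succ_ne_zero s)] at h
          exact h.trans (Real.exp_pos _).le
        · exfalso
          rw [pow_succ] at h
          have h3 : 0 < w φ ^ s := pow_pos h2 s
          nlinarith

end

end Pool.Agent.N715.AC
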