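import Mathlib
import Pool.Agent.N715.AC.Stm

/-!
Project AC (helper715), part PAR: the choice of the parameters.  By helper232.
-/

set_option autoImplicit false

namespace Pool.Agent.N715.AC

namespace ParAux

/-- `log₂` of a number `≤ c · N ^ e` -/
theorem log2_le (n : ℕ) (hn : n ≠ 0) (x : ℝ) (hx : Real.log n ≤ x) :
    ((Nat.log 2 n : ℕ) : ℝ) ≤ 2 * x := by
  have h1 : (2 : ℕ) ^ Nat.log 2 n ≤ n := Nat.pow_log_le_self 2 hn
  have h2 : Real.log ((2 : ℝ) ^ Nat.log 2 n) ≤ Real.log n := by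
    apply Real.log_le_log (by positivity)
    exact_mod_cast h1
  rw [Real.log_pow] at h2
  have h3 := Real.log_two_gt_d9
  have h4 : (0 : ℝ) ≤ (Nat.log 2 n : ℕ) := Nat.cast_nonneg _
  nlinarith

/-- the choice of `j` -/
theorem exJ (c₀ a : ℕ) : ∃ i : ℕ, 1 ≤ a + i ∧ c₀ * (a + i) < 2 ^ i := by
  set c := c₀ * (a + 1) + 1 with hc
  refine ⟨4 * c, by omega, ?_⟩
  have h1 : 2 * c < 2 ^ (2 * c) := Nat.lt_two_pow_self
  have h2 : (2 : ℕ) ^ (4 * c) = 2 ^ (2 * c) * 2 ^ (2 * c) := by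
    rw [← pow_add]; congr 1; omega
  rw [h2]
  have h3 : (2 * c + 1) * (2 * c + 1) ≤ 2 ^ (2 * c) * 2 ^ (2 * c) := Nat.mul_le_mul h1 h1
  have h4 : c₀ * (a + 4 * c) ≤ (c₀ * (a + 1)) * (4 * c + 1) := by
    have : a + 4 * c ≤ (a + 1) * (4 * c + 1) := by nlinarith
    calc c₀ * (a + 4 * c) ≤ c₀ * ((a + 1) * (4 * c + 1)) := Nat.mul_le_mul_left _ this
      _ = _ := by ring
  have h5 : (c₀ * (a + 1)) * (4 * c + 1) ≤ c * (4 * c + 1) := Nat.mul_le_mul_right _ (by omega)
  have h6 : c * (4 * c + 1) < (2 * c + 1) * (2 * c + 1) := by nlinarith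
  omega

/-- the choice of `S₂` -/
theorem exT (A B : ℝ) (hA : 0 ≤ A) (hB : 0 ≤ B) (d : ℕ) (hd : 1 ≤ d) :
    ∃ t : ℕ, 1 ≤ t ∧ A + B * Real.log t < t / d := by
  obtain ⟨u, hu⟩ := exists_nat_gt (d * (A + 2 * B) + 1 : ℝ)
  have hd' : (1 : ℝ) ≤ d := by exact_mod_cast hd
  have hu1 : (1 : ℝ) < u := by
    have : (0 : ℝ) ≤ d * (A + 2 * B) := by positivity
    linarith
  refine ⟨u ^ 2, ?_, ?_⟩
  · have : 1 < u := by exact_mod_cast hu1
    nlinarith
  · rw [lt_div_iff₀ (by linarith)]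
    push_cast
    rw [Real.log_pow]
    have h1 : Real.log u ≤ u := Real.log_le_self (by linarith)
    have h2 : A + B * ((2 : ℕ) * Real.log u) ≤ (A + 2 * B) * u := by
      push_cast
      have : B * Real.log u ≤ B * u := mul_le_mul_of_nonneg_left h1 hB
      nlinarith
    have h3 : (A + B * ((2 : ℕ) * Real.log u)) * d ≤ (d * (A + 2 * B)) * u := by
      nlinarith
    nlinarith

end ParAux

open ParAux

theorem par2 : Par2 := by
  intro E κ r a q hE hκ hr hq
  -- the constant `K₁`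
  obtain ⟨K₁, hK₁⟩ := exists_nat_gt (13 + 13 * E : ℝ)
  have hK₁1 : 1 ≤ K₁ := by
    have : (0 : ℝ) < K₁ := by linarith
    have : 0 < K₁ := by exact_mod_cast this
    omega
  obtain ⟨i, hi1, hi⟩ := exJ (24 * r ^ 2 * κ * K₁) a
  set j := a + i with hj
  set s := 2 * r * κ * j * K₁ with hs
  have hs1 : 1 ≤ s := by
    rw [hs]
    have h1 : 0 < 2 * r * κ * j * K₁ := by positivity
    omega
  set M := 192 * r ^ 2 * κ * j * K₁ with hM
  have hM1 : 48 * r ≤ M := by
    rw [hM]
    have h1 : 1 ≤ r * κ * j * K₁ := by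
      have : 0 < r * κ * j * K₁ := by positivity
      omega
    calc 48 * r ≤ 192 * r * (r * κ * j * K₁) := by nlinarith
      _ = _ := by ring
  obtain ⟨t, ht1, ht⟩ := exT (3 + 2 * E + (2 * E + 1) * (2 * Real.log (48 * r : ℕ) + 3 * j))
    ((2 * E + 1) * 2) (by positivity) (by positivity) (8 * r * κ) (by
      have : 0 < 8 * r * κ := by positivity
      omega)
  refine ⟨j, M, 1 + 3 * j + (j + 1) * (2 * M * q), (48 * r * t : ℕ), hi1, hM1, ?_, ?_⟩
  · have : 0 < 48 * r * t := by positivity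
    exact_mod_cast this
  intro N hN
  set L := Real.log N with hL
  have hN0 : (0 : ℝ) < N := by positivity
  have hN2 : (2 : ℝ) ≤ N := by exact_mod_cast hN
  have hL1 : 2 / 3 < L := by
    have h1 := Real.log_two_gt_d9
    have h2 : Real.log 2 ≤ L := Real.log_le_log (by norm_num) hN2
    linarith
  have hL0 : 0 < L := by linarith
  have hj1 : (1 : ℝ) ≤ j := by exact_mod_cast hi1
  have hr1 : (1 : ℝ) ≤ r := by exact_mod_cast hr
  have hκ1 : (1 : ℝ) ≤ κ := by exact_mod_cast hκ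
  have hNp : ∀ e : ℕ, 1 ≤ N ^ e := fun e => Nat.one_le_pow _ _ (by omega)
  set b := 12 * r * (s * N ^ a) with hb
  set Q := N ^ j with hQ
  have hb1 : 1 ≤ b := by
    have : 0 < 12 * r * (s * N ^ a) := by positivity
    omega
  have hQ1 : 1 ≤ Q := hNp j
  have hbQ : b < Q := by
    have h1 : 12 * r * s = 24 * r ^ 2 * κ * K₁ * j := by rw [hs]; ring
    have h2 : 12 * r * s < N ^ i := by
      rw [h1]
      exact lt_of_lt_of_le hi (Nat.pow_le_pow_left hN i)
    calc b = (12 * r * s) * N ^ a := by rw [hb]; ring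
      _ < N ^ i * N ^ a := Nat.mul_lt_mul_of_pos_right h2 (hNp a)
      _ = Q := by rw [hQ, hj, pow_add]; ring
  -- logarithms
  have hlQ : Real.log Q = j * L := by rw [hQ]; push_cast; rw [Real.log_pow]
  have hlb : Real.log b ≤ j * L := by
    rw [← hlQ]
    exact Real.log_le_log (by exact_mod_cast hb1) (by exact_mod_cast hbQ.le)
  have hlQb : Real.log (Q * b : ℕ) ≤ 2 * (j * L) := by
    have h1 : Real.log (Q * b : ℕ) = Real.log Q + Real.log b := by
      push_cast
      rw [Real.log_mul (by positivity) (by positivity)]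
    rw [h1, hlQ]; linarith
  have hl3 : Real.log ((Q * b + 1) * (b + 1) : ℕ) ≤ 2 * L + 3 * (j * L) := by
    have h1 : (Q * b + 1) * (b + 1) ≤ N ^ 2 * (Q * (Q * Q)) := by
      have h2 : Q * b + 1 ≤ N * (Q * Q) := by
        have : 1 ≤ Q * b := Nat.mul_pos hQ1 hb1
        have h3 : Q * b ≤ Q * Q := Nat.mul_le_mul_left _ hbQ.le
        nlinarith
      have h4 : b + 1 ≤ N * Q := by nlinarith
      calc (Q * b + 1) * (b + 1) ≤ (N * (Q * Q)) * (N * Q) := Nat.mul_le_mul h2 h4
        _ = _ := by ring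
    have h5 : Real.log ((Q * b + 1) * (b + 1) : ℕ) ≤ Real.log (N ^ 2 * (Q * (Q * Q)) : ℕ) :=
      Real.log_le_log (by positivity) (by exact_mod_cast h1)
    refine h5.trans ?_
    push_cast
    rw [Real.log_mul (by positivity) (by positivity), Real.log_mul (by positivity) (by positivity),
      Real.log_mul (by positivity) (by positivity), Real.log_pow, hlQ]
    push_cast
    rw [← hL]; linarith
  have hjL : L ≤ j * L := by nlinarith
  -- the left hand side of (I1) and (I3)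
  have hI : 2 + E * (1 + Nat.log 2 (Q * b) : ℕ) + E * (1 + Nat.log 2 b : ℕ) +
      Real.log ((Q * b + 1) * (b + 1) : ℕ) < j * K₁ * L := by
    have h1 := log2_le (Q * b) (by positivity) _ hlQb
    have h2 := log2_le b (by omega) _ hlb
    have h3 : E * (1 + Nat.log 2 (Q * b) : ℕ) ≤ E * (1 + 2 * (2 * (j * L))) := by
      apply mul_le_mul_of_nonneg_left _ hE
      push_cast; linarith
    have h4 : E * (1 + Nat.log 2 b : ℕ) ≤ E * (1 + 2 * (j * L)) := by
      apply mul_le_mul_of_nonneg_left _ hE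
      push_cast; linarith
    have h5 : E ≤ 2 * (E * (j * L)) := by nlinarith [mul_nonneg hE hL0.le]
    have h6 : (j * L) * (13 + 13 * E) < (j * L) * K₁ :=
      mul_lt_mul_of_pos_left hK₁ (by positivity)
    have h7 : 2 ≤ 3 * (j * L) := by nlinarith
    have h8 : 0 ≤ E * (j * L) := by positivity
    nlinarith
  have hpa : (0 : ℝ) < (N : ℝ) ^ a := by positivity
  set R := 2 * (4 * r) * (2 * Q * b + 1) * (t * N ^ a + 1) with hR
  have hR1 : 1 ≤ R := by
    have : 0 < R := by positivity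
    omega
  have hRle : R ≤ 48 * r * t * N ^ (3 * j) := by
    have h1 : 2 * Q * b + 1 ≤ 3 * (Q * Q) := by
      have : 1 ≤ Q * Q := Nat.mul_pos hQ1 hQ1
      have h3 : Q * b ≤ Q * Q := Nat.mul_le_mul_left _ hbQ.le
      nlinarith
    have h2 : t * N ^ a + 1 ≤ 2 * t * Q := by
      have h3 : N ^ a ≤ Q := by rw [hQ]; exact Nat.pow_le_pow_right (by omega) (by omega)
      have h4 : t * N ^ a ≤ t * Q := Nat.mul_le_mul_left _ h3
      have h5 : 1 ≤ t * Q := Nat.mul_pos ht1 hQ1
      nlinarith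
    calc R ≤ 2 * (4 * r) * (3 * (Q * Q)) * (2 * t * Q) := by
          rw [hR]; exact Nat.mul_le_mul (Nat.mul_le_mul_left _ h1) h2
      _ = 48 * r * t * N ^ (3 * j) := by rw [hQ]; ring
  have hlR : Real.log R ≤ Real.log (48 * r : ℕ) + Real.log t + 3 * (j * L) := by
    have h1 : Real.log R ≤ Real.log (48 * r * t * N ^ (3 * j) : ℕ) :=
      Real.log_le_log (by exact_mod_cast hR1) (by exact_mod_cast hRle)
    refine h1.trans ?_
    have h2 : ((48 * r * t * N ^ (3 * j) : ℕ) : ℝ) = ((48 * r : ℕ) : ℝ) * t * (N : ℝ) ^ (3 * j) := by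
      push_cast; ring
    have ht0 : (t : ℝ) ≠ 0 := by positivity
    rw [h2, Real.log_mul (by positivity) (by positivity), Real.log_mul (by positivity) ht0,
      Real.log_pow]
    push_cast
    rw [← hL]; linarith
  refine ⟨s * N ^ a, t * N ^ a, M * (Nat.log 2 b + 1), b, Q, R, rfl, rfl, rfl, ?_, hbQ, le_rfl,
    ?_, ?_, ?_, ?_, ?_⟩
  · exact Nat.mul_pos hs1 (hNp a)
  · refine hI.trans_le (le_of_eq ?_)
    rw [hs]; push_cast
    field_simp
  · have h1 := log2_le R (by omega) _ hlR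
    have h2 : E * (1 + Nat.log 2 R : ℕ) ≤
        E * (1 + 2 * (Real.log (48 * r : ℕ) + Real.log t + 3 * (j * L))) := by
      apply mul_le_mul_of_nonneg_left _ hE
      push_cast
      push_cast at h1
      linarith
    have h3 : L * (3 + 2 * E + (2 * E + 1) * (2 * Real.log (48 * r : ℕ) + 3 * j) +
        (2 * E + 1) * 2 * Real.log t) < L * (t / (8 * r * κ : ℕ)) :=
      mul_lt_mul_of_pos_left ht hL0
    have h4 : ((t * N ^ a : ℕ) : ℝ) * (L / (κ * (N : ℝ) ^ a)) / (2 * (4 * r)) =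
        L * (t / (8 * r * κ : ℕ)) := by
      push_cast
      field_simp
      ring
    rw [h4]
    refine lt_of_le_of_lt ?_ h3
    have h5 : 0 ≤ Real.log (48 * r : ℕ) := Real.log_natCast_nonneg _
    have h6 : 0 ≤ Real.log t := Real.log_natCast_nonneg _
    set X := Real.log (48 * r : ℕ)
    set Y := Real.log t
    have h7 : X ≤ 2 * (L * X) := by nlinarith
    have h8 : Y ≤ 2 * (L * Y) := by nlinarith
    have h9 : E * X ≤ 2 * (L * (E * X)) := by nlinarith [mul_nonneg hE h5]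
    have h10 : E * Y ≤ 2 * (L * (E * Y)) := by nlinarith [mul_nonneg hE h6]
    have h11 : E ≤ 2 * (L * E) := by nlinarith
    nlinarith
  · refine hI.trans_le (le_of_eq ?_)
    rw [hM]; push_cast
    field_simp
  · have h1 : (R : ℝ) ≤ ((48 * r * t : ℕ) : ℝ) * (N : ℝ) ^ (3 * j) := by
      have : (R : ℝ) ≤ ((48 * r * t * N ^ (3 * j) : ℕ) : ℝ) := by exact_mod_cast hRle
      refine this.trans (le_of_eq ?_)
      push_cast; ring
    refine h1.trans ?_
    apply mul_le_mul_of_nonneg_left _ (by positivity)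
    exact pow_le_pow_right₀ (by linarith) (by nlinarith [Nat.zero_le ((j + 1) * (2 * M * q))])
  · have h0 : 2 * (Q * b) * b * q ^ (2 * (M * (Nat.log 2 b + 1))) ≤
        N ^ (1 + 3 * j + (j + 1) * (2 * M * q)) := by
      have h1 : q ^ (2 * (M * (Nat.log 2 b + 1))) ≤ N ^ ((j + 1) * (2 * M * q)) := by
        have h2 : q ≤ 2 ^ q := Nat.lt_two_pow_self.le
        calc q ^ (2 * (M * (Nat.log 2 b + 1))) ≤ (2 ^ q) ^ (2 * (M * (Nat.log 2 b + 1))) :=
              Nat.pow_le_pow_left h2 _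
          _ = (2 ^ Nat.log 2 b * 2) ^ (2 * M * q) := by
              rw [← pow_succ, ← pow_mul, ← pow_mul]; congr 1; ring
          _ ≤ (N ^ j * N) ^ (2 * M * q) := by
              apply Nat.pow_le_pow_left
              apply Nat.mul_le_mul _ hN
              exact (Nat.pow_log_le_self 2 (by omega)).trans hbQ.le
          _ = _ := by rw [← pow_succ, ← pow_mul]
      have h3 : 2 * (Q * b) * b ≤ N ^ (1 + 3 * j) := by
        calc 2 * (Q * b) * b ≤ N * (Q * Q) * Q := by
              apply Nat.mul_le_mul (Nat.mul_le_mul hN (Nat.mul_le_mul_left _ hbQ.le)) hbQ.le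
          _ = _ := by rw [hQ]; ring
      calc _ ≤ N ^ (1 + 3 * j) * N ^ ((j + 1) * (2 * M * q)) := Nat.mul_le_mul h3 h1
        _ = _ := by rw [← pow_add]
    have h1 : ((2 * (Q * b) * b * q ^ (2 * (M * (Nat.log 2 b + 1))) : ℕ) : ℝ) ≤
        (N : ℝ) ^ (1 + 3 * j + (j + 1) * (2 * M * q)) := by exact_mod_cast h0
    refine h1.trans ?_
    have h2 : (1 : ℝ) ≤ ((48 * r * t : ℕ) : ℝ) := by
      have : 0 < 48 * r * t := by positivity
      exact_mod_cast this
    exact le_mul_of_one_le_left (by positivity) h2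

end Pool.Agent.N715.AC
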