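import Pool.Agent.N715.AC.Stm
import Pool.Agent.N715.AB.Chn

/-!
Project AC, part PER: the same irreducible relation at two indices of an orbit of pairs of points
holds on an arithmetic progression of indices.
-/

set_option autoImplicit false
set_option linter.unusedSectionVars false

namespace Pool.Agent.N715.AC

open Polynomial
open Pool.Agent.R829.BG (XD subs natDegree_subs XD_subs eval_subs)
open Pool.Agent.N715.AB (ev ResLem)
open Pool.Agent.N715.AB.Chn (evH ev_eq ev_C ev_subs)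

theorem perLem (hR : ResLem) : PerLem := by
  intro K _ L _ _ _ D b A W hD x y J hmiss hstep hwin g hg hg1 hgb hgA i κ hκ1 hib hv hv'
  -- the step as a statement on relations
  have hback : ∀ j (f h : K[X]), (∀ i ∈ J, i + j ∈ J → aeval (x i) h ≠ 0 ∧ aeval (y i) h ≠ 0 ∧
      x (i + j) = aeval (x i) f / aeval (x i) h ∧ y (i + j) = aeval (y i) f / aeval (y i) h) →
      ∀ i ∈ J, i + j ∈ J → (ev (x i) (y i) (subs f h A b g) = 0 ↔
        ev (x (i + j)) (y (i + j)) g = 0) := by
    intro j f h hfh i hi hij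
    obtain ⟨h1, h2, h3, h4⟩ := hfh i hi hij
    rw [ev_subs hgb hgA h1 h2, ← h3, ← h4, mul_eq_zero]
    constructor
    · rintro (h | h)
      · exact absurd h (mul_ne_zero (pow_ne_zero _ h1) (pow_ne_zero _ h2))
      · exact h
    · exact Or.inr
  -- divisibility
  have hdvd : ∀ j, 1 ≤ j → j ≤ 2 * W → ∀ f h : K[X], f.natDegree ≤ D ^ j → h.natDegree ≤ D ^ j →
      (∀ i ∈ J, i + j ∈ J → aeval (x i) h ≠ 0 ∧ aeval (y i) h ≠ 0 ∧
      x (i + j) = aeval (x i) f / aeval (x i) h ∧ y (i + j) = aeval (y i) f / aeval (y i) h) →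
      ∀ i, i + j ≤ 2 * W → ev (x i) (y i) g = 0 → ev (x (i + j)) (y (i + j)) g = 0 →
        g ∣ subs f h A b g := by
    intro j hj1 hj f h hf hh hfh i hij hv hv'
    by_contra hnd
    obtain ⟨c, U, V, hc, hcd, hcUV⟩ := hR K g (subs f h A b g) A (A * D ^ j) b (b * D ^ j) hg hg1
      hgb hgA (natDegree_subs hf hh A b g) (XD_subs hf hh A b g) hnd
    have hi := hwin i (by omega)
    have e1 := (hback j f h hfh i hi.1 (hwin (i + j) hij).1).2 hv'
    have e2 : aeval (x i) c = 0 := by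
      rw [← ev_C (x i) (y i), hcUV, ev_eq, map_add, map_mul, map_mul, ← ev_eq (x i) (y i) g,
        ← ev_eq (x i) (y i) (subs f h A b g), hv, e1, mul_zero, mul_zero, add_zero]
    have e3 := natDegree_le_natDegree (minpoly.degree_le_of_ne_zero K (x i) hc e2)
    have e4 : D ^ j ≤ D ^ (2 * W) := Nat.pow_le_pow_right hD hj
    have e5 : A * (b * D ^ j) + A * D ^ j * b = 2 * A * b * D ^ j := by ring
    have e6 : 2 * A * b * D ^ j ≤ 2 * A * b * D ^ (2 * W) := Nat.mul_le_mul_left _ e4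
    have := hi.2
    omega
  obtain ⟨f₁, h₁, hf₁, hh₁, hs₁⟩ := hstep κ (by omega)
  obtain ⟨f₂, h₂, hf₂, hh₂, hs₂⟩ := hstep (2 * κ) (by omega)
  have hd₁ : g ∣ subs f₁ h₁ A b g := hdvd κ (by omega) (by omega) f₁ h₁ hf₁ hh₁ hs₁ i (by omega)
    hv hv'
  have hz : ∀ (Φ : K[X][X]) (i : ℕ), g ∣ Φ → ev (x i) (y i) g = 0 → ev (x i) (y i) Φ = 0 := by
    rintro Φ i ⟨q, rfl⟩ h
    rw [ev_eq] at h ⊢
    rw [map_mul, h, zero_mul]
  have hv2 : ev (x (i + κ + κ)) (y (i + κ + κ)) g = 0 :=
    (hback κ f₁ h₁ hs₁ (i + κ) (hwin _ (by omega)).1 (hwin _ (by omega)).1).1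
      (hz _ _ hd₁ hv')
  have hd₂ : g ∣ subs f₂ h₂ A b g := by
    refine hdvd (2 * κ) (by omega) (by omega) f₂ h₂ hf₂ hh₂ hs₂ i (by omega) hv ?_
    rw [show i + 2 * κ = i + κ + κ by ring]
    exact hv2
  intro n
  induction n using Nat.strong_induction_on with
  | _ n ih =>
    intro hn
    rcases n with _ | _ | n
    · simpa using hv
    · simpa using hv'
    · have e2 : i + (n + 1 + 1) * κ = i + (n + 1) * κ + κ := by ring
      have e3 : i + (n + 1 + 1) * κ = i + n * κ + 2 * κ := by ring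
      by_cases hm : i + (n + 1) * κ ∈ J
      · have h1 := ih (n + 1) (by omega) hm
        rw [e2] at hn ⊢
        exact (hback κ f₁ h₁ hs₁ _ hm hn).1 (hz _ _ hd₁ h1)
      · have hm' : i + n * κ ∈ J := by
          by_contra hcon
          have h1 := hmiss _ _ hm hcon
          have h2 : (n + 1) * κ = n * κ + κ := by ring
          omega
        have h1 := ih n (by omega) hm'
        rw [e3] at hn ⊢
        exact (hback (2 * κ) f₂ h₂ hs₂ _ hm' hn).1 (hz _ _ hd₂ h1)

end Pool.Agent.N715.AC
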