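import Mathlib
import Pool.Agent.N715.AC.Stm
import Pool.Agent.N715.AB.Base
import Pool.Agent.N715.AB.Orb

/-!
Points over extensions: embeddings, fields of definition, ramification in towers.
-/

set_option autoImplicit false
set_option linter.unusedSectionVars false

namespace Pool.Agent.N715.AC

open NumberField Module
open Pool.Agent.W238.Leh
open Pool.Agent.H627.LP (Wnd act_iter_smul)
open Pool.Agent.H420R3 (mi nv TP)
open Pool.Agent.R829.DL (fod fod_iter fod_smul exists_rep canH_hom act_map iter_map inc)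
open Pool.Agent.N715.AB (fod_inf fod_le_affine)

noncomputable section

section up

variable {K : Type} [Field K] [NumberField K] {L M : Type} [Field L] [NumberField L]
  [Algebra K L] [Field M] [NumberField M] [Algebra K M]
  {G : Fin (1 + 1) → MvPolynomial (Fin (1 + 1)) K} {q a : ℕ} {A : ℝ}

lemma Wnd_up (hB : Bds G q A a) (φ : L →ₐ[K] M) {x : Fin (1 + 1) → L} (hx : x ≠ 0)
    (hw : Wnd G x) : Wnd G (fun i => φ (x i)) := by
  rintro ⟨m, n, hmn, c, hc, h⟩
  rw [iter_map, iter_map] at h
  have h0 : (act G)^[m] x ≠ 0 := hB.iter_ne_zero hx m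
  obtain ⟨t, ht⟩ := Function.ne_iff.mp h0
  have ht' : ((act G)^[m] x) t ≠ 0 := ht
  have hφt : φ (((act G)^[m] x) t) ≠ 0 := (map_ne_zero φ).mpr ht'
  have hc' : c = φ (((act G)^[n] x) t / ((act G)^[m] x) t) := by
    have h1 := congrFun h t
    simp only [Pi.smul_apply, smul_eq_mul] at h1
    rw [map_div₀, h1, mul_div_cancel_right₀ _ hφt]
  refine hw ⟨m, n, hmn, ((act G)^[n] x) t / ((act G)^[m] x) t, ?_, ?_⟩
  · intro h1
    rw [h1, map_zero] at hc'
    exact hc hc'
  · funext i
    have h1 := congrFun h i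
    simp only [Pi.smul_apply, smul_eq_mul] at h1 ⊢
    rw [hc', ← map_mul] at h1
    exact φ.injective h1

end up

section down

variable {K k L : Type} [Field K] [NumberField K] [Field k] [NumberField k] [Field L]
  [NumberField L] [Algebra K k] [Algebra K L] [Algebra k L] [IsScalarTower K k L]
  {G : Fin (1 + 1) → MvPolynomial (Fin (1 + 1)) K} {q : ℕ}

/-- the point over its field of definition -/
lemma exists_down (hG : ∀ i, (G i).IsHomogeneous q) {x : Fin (1 + 1) → L} (hx : x ≠ 0)
    (hw : Wnd G x) : ∃ y : Fin (1 + 1) → fod k x, y ≠ 0 ∧ Wnd G y ∧ canH G q x = canH G q y := by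
  obtain ⟨y, c, hc, hxy, ⟨t, ht⟩, -⟩ := exists_rep (K := K) (k := k) hx rfl
  have hy0 : y ≠ 0 := by
    intro h
    rw [h] at ht
    exact zero_ne_one ht
  refine ⟨y, hy0, ?_, ?_⟩
  · rintro ⟨m, n, hmn, d, hd, hd'⟩
    apply hw
    have h1 : ∀ n, (act G)^[n] x = c ^ (q ^ n) • fun i => inc K (fod k x) ((act G)^[n] y i) := by
      intro n
      conv_lhs => rw [hxy]
      rw [act_iter_smul hG, iter_map]
    have hd0 : inc K (fod k x) d ≠ 0 := (map_ne_zero _).mpr hd
    refine ⟨m, n, hmn, c ^ (q ^ n) * inc K (fod k x) d * (c ^ (q ^ m))⁻¹, ?_, ?_⟩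
    · exact mul_ne_zero (mul_ne_zero (pow_ne_zero _ hc) hd0) (inv_ne_zero (pow_ne_zero _ hc))
    · rw [h1, h1, hd', smul_smul, inv_mul_cancel_right₀ (pow_ne_zero _ hc)]
      funext i
      simp only [Pi.smul_apply, smul_eq_mul, map_mul]
      ring
  · conv_lhs => rw [hxy]
    rw [canH_smul hG hc, canH_hom]

end down

section fodmap

variable {k L M : Type} [Field k] [Field L] [Field M] [Algebra k L] [Algebra k M]

lemma fod_map (φ : L →ₐ[k] M) (x : Fin (1 + 1) → L) :
    fod k (fun i => φ (x i)) = (fod k x).map φ := by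
  unfold fod
  rw [IntermediateField.adjoin_map]
  congr 1
  ext z
  constructor
  · rintro ⟨ij, rfl⟩
    exact ⟨x ij.1 / x ij.2, ⟨ij, rfl⟩, map_div₀ φ _ _⟩
  · rintro ⟨_, ⟨ij, rfl⟩, rfl⟩
    exact ⟨ij, (map_div₀ φ _ _).symm⟩

lemma finrank_fod_map (φ : L →ₐ[k] M) (x : Fin (1 + 1) → L) :
    finrank k (fod k (fun i => φ (x i))) = finrank k (fod k x) := by
  rw [fod_map]
  exact ((IntermediateField.equivMap (fod k x) φ).toLinearEquiv.finrank_eq).symm

/-- ratios of elements of the field of definition -/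
lemma ratio_mem {x : Fin (1 + 1) → L} {E : IntermediateField k L} (hE : fod k x ≤ E)
    (i j : Fin (1 + 1)) : x i / x j ∈ E :=
  hE (IntermediateField.subset_adjoin k _ ⟨(i, j), rfl⟩)

end fodmap

section minp

variable {k L : Type} [Field k] [Field L] [Algebra k L] [FiniteDimensional k L]

/-- degrees over an intermediate field of elements of `k(x)` -/
lemma minpoly_le {E : IntermediateField k L} {x z : L} {r : ℕ}
    (hx : (minpoly E x).natDegree ≤ r) (hz : z ∈ IntermediateField.adjoin k {x}) :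
    (minpoly E z).natDegree ≤ r := by
  have h1 : z ∈ IntermediateField.adjoin E {x} := by
    have h2 : IntermediateField.adjoin k {x} ≤
        (IntermediateField.adjoin E {x}).restrictScalars k := by
      rw [IntermediateField.adjoin_le_iff]
      intro y hy
      rw [Set.mem_singleton_iff.mp hy]
      exact IntermediateField.subset_adjoin E _ rfl
    exact h2 hz
  have hfd : FiniteDimensional E L := FiniteDimensional.right k E L
  have h3 : IntermediateField.adjoin E {z} ≤ IntermediateField.adjoin E {x} := by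
    rw [IntermediateField.adjoin_le_iff]
    intro y hy
    rw [Set.mem_singleton_iff.mp hy]
    exact h1
  have h4 : finrank E (IntermediateField.adjoin E {z}) ≤
      finrank E (IntermediateField.adjoin E {x}) :=
    LinearMap.finrank_le_finrank_of_injective
      (f := (IntermediateField.inclusion h3).toLinearMap)
      (IntermediateField.inclusion_injective h3)
  rw [IntermediateField.adjoin.finrank (Algebra.IsIntegral.isIntegral z),
    IntermediateField.adjoin.finrank (Algebra.IsIntegral.isIntegral x)] at h4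
  exact h4.trans hx

lemma minpoly_le_fod {E : IntermediateField k L} {x : Fin (1 + 1) → L} {r : ℕ} (hr : 1 ≤ r)
    (hx : x 1 ≠ 0 → (minpoly E (x 0 / x 1)).natDegree ≤ r) {z : L} (hz : z ∈ fod k x) :
    (minpoly E z).natDegree ≤ r := by
  by_cases h1 : x 1 = 0
  · have h2 : fod k x = ⊥ := by
      have h3 := fod_inf (K := k) h1
      exact IntermediateField.finrank_eq_one_iff.mp h3
    rw [h2, IntermediateField.mem_bot] at hz
    obtain ⟨c, rfl⟩ := hz
    have h3 : (algebraMap k L c) = algebraMap E L (algebraMap k E c) :=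
      IsScalarTower.algebraMap_apply k E L c
    rw [h3, minpoly.eq_X_sub_C, Polynomial.natDegree_X_sub_C]
    exact hr
  · rw [fod_le_affine h1] at hz
    exact minpoly_le (hx h1) hz

end minp

section tower

variable {k M : Type} [Field k] [NumberField k] [Field M] [NumberField M] [Algebra k M]
  {P : Ideal (𝓞 k)} [hP : P.IsMaximal]

/-- ramification indices of Galois extensions divide the degree -/
lemma ram_dvd [IsGalois k M] (hP0 : P ≠ ⊥) {u : FinitePlace M} (hu : u ∈ TP M P) :
    (mi u).ramificationIdx (𝓞 k) ∣ finrank k M := by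
  have hlo := H420R3.liesOver_of_mem hP0 hu
  have h1 := Ideal.ncard_primesOver_mul_ramificationIdxIn_mul_inertiaDegIn P (𝓞 M) Gal(M/k)
  have h2 : P.ramificationIdxIn (𝓞 M) = (mi u).ramificationIdx (𝓞 k) :=
    Ideal.ramificationIdxIn_eq_ramificationIdx P (mi u) Gal(M/k)
  have h3 : Nat.card Gal(M/k) = finrank k M := IsGalois.card_aut_eq_finrank k M
  rw [h2, h3] at h1
  rw [← h1]
  exact (Dvd.intro _ rfl).mul_left _

variable {N : Type} [Field N] [NumberField N] [Algebra k N]

/-- ramification indices in towers -/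
lemma ram_tower (hP0 : P ≠ ⊥) (φ : M →ₐ[k] N) {u : FinitePlace M} (hu : u ∈ TP M P) :
    ∃ 𝔓 : Ideal (𝓞 N), 𝔓.IsPrime ∧ 𝔓.under (𝓞 k) = P ∧
      (mi u).ramificationIdx (𝓞 k) ∣ 𝔓.ramificationIdx (𝓞 k) := by
  let _ : Algebra M N := φ.toRingHom.toAlgebra
  have htow : IsScalarTower k M N := IsScalarTower.of_algebraMap_eq fun z => (φ.commutes z).symm
  have hlo := H420R3.liesOver_of_mem hP0 hu
  obtain ⟨𝔓, h1, h2⟩ := Ideal.exists_maximal_ideal_liesOver_of_isIntegral (S := 𝓞 N) (mi u)
  have h3 : 𝔓.LiesOver P := Ideal.LiesOver.trans 𝔓 (mi u) P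
  refine ⟨𝔓, h1.isPrime, h3.over.symm, ?_⟩
  exact Ideal.ramificationIdx_below_dvd (R := 𝓞 k) (q := mi u) (r := 𝔓)

end tower

end

end Pool.Agent.N715.AC
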