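import Pool.Agent.N715.AC.Stm
import Pool.Agent.N715.AB.Trc
import Pool.Agent.N715.AB.Chn

/-!
# Project AC: descent of relations by the trace and the rank of the evaluation (helper721)
-/

set_option autoImplicit false
set_option linter.unusedSectionVars false

namespace Pool.Agent.N715.AC

open NumberField Module Polynomial
open Pool.Agent.R829.BG (XD E2 bp bp_coeff_eq bp_XD bp_natDegree evalEval_eq)
open Pool.Agent.N715.AB (ev ResLem)

noncomputable section

theorem traceDesc2 : TraceDesc2 := by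
  intro K _ _ L _ _ _ _ ι x y G A b hG hb hA h
  classical
  -- a nonzero coefficient
  obtain ⟨n₀, hn₀⟩ : ∃ n, G.coeff n ≠ 0 := by
    by_contra hcon
    push Not at hcon
    exact hG (Polynomial.ext (by simpa using hcon))
  obtain ⟨m₀, hm₀⟩ : ∃ m, (G.coeff n₀).coeff m ≠ 0 := by
    by_contra hcon
    push Not at hcon
    exact hn₀ (Polynomial.ext (by simpa using hcon))
  have hn₀b : n₀ < b + 1 := Nat.lt_succ_of_le ((le_natDegree_of_ne_zero hn₀).trans hb)
  have hm₀A : m₀ < A + 1 := Nat.lt_succ_of_le ((le_natDegree_of_ne_zero hm₀).trans (hA n₀))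
  have : FiniteDimensional K L := Module.Finite.of_restrictScalars_finite ℚ K L
  obtain ⟨lam, hlam⟩ : ∃ lam : L, Algebra.trace K L (lam * (G.coeff n₀).coeff m₀) ≠ 0 := by
    by_contra hcon
    push Not at hcon
    refine hm₀ ((traceForm_nondegenerate K L).1 _ fun y => ?_)
    rw [Algebra.traceForm_apply, mul_comm]
    exact hcon y
  set u : Fin (A + 1) × Fin (b + 1) → K := fun ij =>
    Algebra.trace K L (lam * (G.coeff (ij.2 : ℕ)).coeff (ij.1 : ℕ)) with hu
  have hcoef : ∀ n < b + 1, ∀ m < A + 1, ((bp u).coeff n).coeff m =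
      Algebra.trace K L (lam * (G.coeff n).coeff m) := fun n hn m hm =>
    bp_coeff_eq u ⟨m, hm⟩ ⟨n, hn⟩
  have h1 : (bp u).natDegree ≤ b := bp_natDegree u
  have h2 : XD A (bp u) := bp_XD u
  refine ⟨bp u, ?_, h1, h2, fun i => ?_⟩
  · intro h0
    have := hcoef n₀ hn₀b m₀ hm₀A
    rw [h0] at this
    simp only [coeff_zero] at this
    exact hlam this.symm
  rw [AB.ev_eq h1 h2]
  have e1 : ∑ n ∈ Finset.range (b + 1), (∑ m ∈ Finset.range (A + 1),
      algebraMap K L (((bp u).coeff n).coeff m) * x i ^ m) * (y i) ^ n =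
      ∑ σ : Gal(L/K), σ (lam * G.evalEval (σ⁻¹ (x i)) (σ⁻¹ (y i))) := by
    have e2 : ∀ σ : Gal(L/K), σ (lam * G.evalEval (σ⁻¹ (x i)) (σ⁻¹ (y i))) =
        ∑ n ∈ Finset.range (b + 1), (∑ m ∈ Finset.range (A + 1),
          σ (lam * (G.coeff n).coeff m) * x i ^ m) * (y i) ^ n := by
      intro σ
      have e3 : ∀ z : L, σ (σ⁻¹ z) = z := fun z => AlgEquiv.apply_symm_apply σ z
      rw [evalEval_eq hb hA, map_mul, map_sum, Finset.mul_sum]
      refine Finset.sum_congr rfl fun n _ => ?_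
      rw [map_mul, map_pow, e3, map_sum, ← mul_assoc, Finset.mul_sum]
      congr 1
      refine Finset.sum_congr rfl fun m _ => ?_
      rw [map_mul, map_mul, map_pow, e3, mul_assoc]
    rw [Finset.sum_congr rfl fun σ _ => e2 σ, Finset.sum_comm]
    refine Finset.sum_congr rfl fun n hn => ?_
    rw [← Finset.sum_mul]
    congr 1
    rw [Finset.sum_comm]
    refine Finset.sum_congr rfl fun m hm => ?_
    rw [← Finset.sum_mul]
    congr 1
    rw [hcoef n (Finset.mem_range.1 hn) m (Finset.mem_range.1 hm), trace_eq_sum_automorphisms]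
  rw [e1]
  refine Finset.sum_eq_zero fun σ _ => ?_
  rw [h σ⁻¹ i, mul_zero, map_zero]

theorem rankLem (hR : ResLem) : RankLem := by
  intro K _ _ L _ _ _ _ J x y g A b m n hg hass hn
  classical
  by_contra hlt
  push Not at hlt
  obtain ⟨G, hG0, hGn, hGm, hGz⟩ := Pool.Agent.R829.BG.exists_rel (K := K) hlt
  obtain ⟨G', hG'0, hG'n, hG'm, hG'z⟩ := traceDesc2 K L {j // j ∈ J} (fun j => x j) (fun j => y j)
    G m n hG0 hGn hGm (fun σ i => hGz (i, σ))
  have hdvd : ∀ j ∈ J, g j ∣ G' := by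
    intro j hj
    obtain ⟨h1, h2, h3, h4, h5, h6⟩ := hg j hj
    by_contra hnd
    obtain ⟨c, U, V, hc, hcd, hcUV⟩ := hR K (g j) G' A m b n h1 h2 h3 h4 hG'n hG'm hnd
    have e2 : aeval (x j) c = 0 := by
      have h7 := hG'z ⟨j, hj⟩
      simp only at h7
      rw [AB.Chn.ev_eq] at h5 h7
      rw [← AB.Chn.ev_C (x j) (y j), hcUV, AB.Chn.ev_eq, map_add, map_mul, map_mul, h5, h7,
        mul_zero, mul_zero, add_zero]
    have e3 := natDegree_le_natDegree (minpoly.degree_le_of_ne_zero K (x j) hc e2)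
    omega
  have hprod : ∏ j ∈ J, g j ∣ G' := by
    refine Finset.prod_dvd_of_isRelPrime ?_ hdvd
    intro i hi j hj hij
    have h1 := (hg i hi).1
    have h2 := (hg j hj).1
    refine (h1.isRelPrime_iff_not_dvd).2 fun hd => ?_
    exact hass i hi j hj hij (h1.associated_of_dvd h2 hd)
  have h0 : ∏ j ∈ J, g j ≠ 0 := Finset.prod_ne_zero_iff.2 fun j hj => (hg j hj).1.ne_zero
  have h1 := natDegree_le_of_dvd hprod hG'0
  rw [natDegree_prod _ _ fun j hj => (hg j hj).1.ne_zero] at h1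
  omega

end

end Pool.Agent.N715.AC
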