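import Mathlib
import Pool.Agent.N715.AC.Key3
import Pool.Agent.N715.AC.Pts
import Pool.Agent.N715.AC.Loc
import Pool.Agent.N715.AC.Bad
import Pool.Agent.N715.AC.Two
import Pool.Agent.N715.AC.Rnk
import Pool.Agent.N715.AC.Per
import Pool.Agent.N715.AC.Par
import Pool.Agent.N715.AC.Frb
import Pool.Agent.N715.AC.Dis
import Pool.Agent.N715.AC.Int
import Pool.Agent.N715.AB.Hgt
import Pool.Agent.N715.AB.Res
import Pool.Agent.H420R3.Main

/-!
The lower bound for points of bounded degree over abelian extensions.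
-/

set_option autoImplicit false
set_option linter.unusedSectionVars false

namespace Pool.Agent.N715.AC

open NumberField Module Filter Topology
open Pool.Agent.W238.Leh
open Pool.Agent.H627.LP (Wnd act_iter_smul)
open Pool.Agent.H420R3 (mi nv TP NC)
open Pool.Agent.R829.DL (fod fod_iter fod_smul exists_rep canH_hom act_map iter_map)
open Pool.Agent.N715.AB (bch act_bch_iter canH_bch Wnd_bch exists_model GD)

noncomputable section

/-- degrees and heights of the wandering points of bounded degree over abelian extensions -/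
def Pt (K : Type) [Field K] [NumberField K] (G : Fin (1 + 1) → MvPolynomial (Fin (1 + 1)) K)
    (q B r D : ℕ) (h : ℝ) : Prop :=
  ∃ (k : Type) (_ : Field k) (_ : NumberField k) (_ : Algebra K k) (L : Type) (_ : Field L)
    (_ : NumberField L) (_ : Algebra k L) (_ : Algebra K L) (_ : IsScalarTower K k L)
    (_ : IsGalois k L) (E : IntermediateField k L) (_ : IsAbelianGalois k E)
    (x : Fin (1 + 1) → L),
    finrank K k ≤ B ∧ x ≠ 0 ∧ (x 1 ≠ 0 → (minpoly E (x 0 / x 1)).natDegree ≤ r) ∧ Wnd G x ∧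
    finrank k (fod k x) = D ∧ canH G q x = h

lemma mono_bd {D : ℕ} {C C' : ℕ} (hC : 1 ≤ C) (hCC : C ≤ C') :
    1 / ((C' : ℝ) * (1 + Real.log D) ^ C') ≤ 1 / (C * (1 + Real.log D) ^ C) := by
  have h0 : 0 ≤ Real.log D := Real.log_natCast_nonneg D
  have h1 : (1 : ℝ) ≤ 1 + Real.log D := by linarith
  have hC0 : (0 : ℝ) < C := by exact_mod_cast hC
  apply div_le_div_of_nonneg_left zero_le_one (by positivity)
  apply mul_le_mul (by exact_mod_cast hCC) (pow_le_pow_right₀ h1 hCC) (by positivity)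
    (by positivity)

lemma mono_bd' {N : ℝ} (hN : 1 ≤ N) {C C' : ℕ} (hC : 1 ≤ C) (hCC : C ≤ C') :
    1 / ((C' : ℝ) * N ^ C') ≤ 1 / (C * N ^ C) := by
  have hC0 : (0 : ℝ) < C := by exact_mod_cast hC
  apply div_le_div_of_nonneg_left zero_le_one (by positivity)
  apply mul_le_mul (by exact_mod_cast hCC) (pow_le_pow_right₀ hN hCC) (by positivity)
    (by positivity)

/-- **the lower bound** -/
theorem main (hInd : NumInd2) (hSel : PrimeSel2)
    (K : Type) [Field K] [NumberField K] (q : ℕ) (hq : 2 ≤ q)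
    (F : Fin (1 + 1) → MvPolynomial (Fin (1 + 1)) K) (hF : ∀ i, (F i).IsHomogeneous q)
    (hmor : ∀ z : Fin (1 + 1) → AlgebraicClosure K, (∀ i, MvPolynomial.aeval z (F i) = 0) → z = 0)
    (B r : ℕ) :
    ∃ C : ℕ, 1 ≤ C ∧ ∀ (k E L : Type) [Field k] [NumberField k] [Field E] [NumberField E] [Field L]
      [NumberField L] [Algebra K k] [Algebra k E] [Algebra E L] [Algebra K L] [Algebra k L]
      [IsScalarTower K k L] [IsScalarTower k E L] [IsAbelianGalois k E],
      finrank K k ≤ B → finrank E L ≤ r →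
      ∀ x : Fin (1 + 1) → L, x ≠ 0 → Wnd F x →
      ∃ h : ℝ, Tendsto (fun n : ℕ => Height.logHeight ((act F)^[n] x) /
          ((finrank ℚ L : ℝ) * (q : ℝ) ^ n)) atTop (𝓝 h) ∧
        1 / (C * (1 + Real.log (finrank k (fod k x))) ^ C) ≤ h ∧
        ∀ P : Ideal (𝓞 k), P.IsMaximal → P ≠ ⊥ → (C : 𝓞 k) ∉ P →
          (∀ 𝔓 : Ideal (𝓞 E), 𝔓.IsPrime → 𝔓.under (𝓞 k) = P →
            Nat.Coprime (𝔓.ramificationIdx (𝓞 k)) P.absNorm) →
          1 / (C * (P.absNorm : ℝ) ^ C) ≤ h := by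
  classical
  obtain ⟨b, c, a, nb, A, hb0, hmod⟩ := exists_model K q hq F hF hmor (B + 1)
  obtain ⟨G, hG⟩ : ∃ G : Fin (1 + 1) → MvPolynomial (Fin (1 + 1)) K,
    G = fun i => MvPolynomial.C (b : K) * F i := ⟨_, rfl⟩
  rw [← hG] at hmod
  have hhom : ∀ i, (G i).IsHomogeneous q := by
    intro i
    have h7 := (MvPolynomial.isHomogeneous_C (Fin (1 + 1)) (b : K)).mul (hF i)
    rw [zero_add] at h7
    rw [hG]
    exact h7
  have hmor' : ∀ z : Fin (1 + 1) → AlgebraicClosure K, (∀ i, MvPolynomial.aeval z (G i) = 0) →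
      z = 0 := by
    intro z hz
    apply hmor
    intro i
    have h1 := hz i
    simp only [hG, map_mul, MvPolynomial.aeval_C] at h1
    refine (mul_eq_zero.mp h1).resolve_left ?_
    exact (FaithfulSMul.algebraMap_eq_zero_iff K (AlgebraicClosure K)).not.mpr
      (RingOfIntegers.coe_ne_zero_iff.mpr hb0)
  have hGDK : GD K G q c a nb A (finrank ℚ K * (B + 1)) := by
    have h1 := hmod K (by rw [finrank_self]; omega)
    have h2 : bch K G = G := by
      funext i
      exact MvPolynomial.map_id _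
    rwa [h2] at h1
  have hB := hGDK.hB
  obtain ⟨κ, hκd⟩ : ∃ κ, κ = finrank ℚ K * (B + 1) := ⟨_, rfl⟩
  rw [← hκd] at hmod
  have hκ : 1 ≤ κ := by
    rw [hκd]
    exact Nat.mul_pos finrank_pos (by omega)
  obtain ⟨s, hs⟩ : ∃ s, s = r + 1 := ⟨_, rfl⟩
  have hs1 : 1 ≤ s := by omega
  obtain ⟨C₁, J, hC₁, hkey⟩ := key3 locLem badLem twoLem traceDesc2 (rankLem AB.resLem)
    (perLem AB.resLem) (AB.hgtLem AB.resLem) par2 frobType disLem intLem q c a nb A κ s hκ hs1 hq
    hB.hC_nonneg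
  obtain ⟨nc, hnc⟩ : ∃ nc, nc = nb * s.factorial := ⟨_, rfl⟩
  have hnc0 : nc ≠ 0 := by
    rw [hnc]
    exact mul_ne_zero hGDK.hnb (Nat.factorial_ne_zero s)
  obtain ⟨C₂, hC₂, hsel⟩ := hSel κ nc hκ hnc0
  obtain ⟨C₀, hC₀, hgen⟩ := general K 1 q hq G hhom hmor' 1 one_pos
  -- lower bounds in terms of the field of definition
  have hlow : ∀ (k L : Type) [Field k] [NumberField k] [Field L] [NumberField L] [Algebra K k]
      [Algebra k L] [Algebra K L] [IsScalarTower K k L] (x : Fin (1 + 1) → L), x ≠ 0 → Wnd G x →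
      Real.exp (-(C₀ * ((finrank K k * finrank k (fod k x) : ℕ) : ℝ) ^ (((1 : ℕ) : ℝ) + 1))) ≤
        canH G q x := by
    intro k L _ _ _ _ _ _ _ _ x hx hw
    obtain ⟨y, hy, hyw, hyc⟩ := exists_down (k := k) hhom hx hw
    have h1 := (hgen (fod k x)).2.2.2 y hy hyw
    rw [hyc]
    rwa [← finrank_mul_finrank K k (fod k x)] at h1
  have hpos : ∀ D h, Pt K G q (B + 1) s D h → 1 ≤ D ∧ 0 < h := by
    rintro D h ⟨k, _, _, _, L, _, _, _, _, _, _, E, _, x, hk, hx, -, hw, rfl, rfl⟩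
    have hfd : FiniteDimensional k L := Pool.Agent.R829.DL.fd_inter k L
    exact ⟨finrank_pos, lt_of_lt_of_le (Real.exp_pos _) (hlow k L x hx hw)⟩
  have hNor : ∀ D₀ : ℕ, ∃ c : ℝ, 0 < c ∧ ∀ D h, D ≤ D₀ → Pt K G q (B + 1) s D h → c ≤ h := by
    intro D₀
    refine ⟨Real.exp (-(C₀ * (((B + 1) * D₀ : ℕ) : ℝ) ^ (((1 : ℕ) : ℝ) + 1))), Real.exp_pos _, ?_⟩
    rintro D h hD ⟨k, _, _, _, L, _, _, _, _, _, _, E, _, x, hk, hx, -, hw, rfl, rfl⟩
    refine le_trans ?_ (hlow k L x hx hw)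
    apply Real.exp_le_exp.mpr
    apply neg_le_neg
    apply mul_le_mul_of_nonneg_left _ hC₀.le
    apply Real.rpow_le_rpow (by positivity) _ (by positivity)
    exact_mod_cast Nat.mul_le_mul hk hD
  -- the dichotomy for one prime
  have hdich : ∀ (k L : Type) [Field k] [NumberField k] [Field L] [NumberField L] [Algebra K k]
      [Algebra k L] [Algebra K L] [IsScalarTower K k L] [IsGalois k L] (E : IntermediateField k L)
      [IsAbelianGalois k E] (x : Fin (1 + 1) → L), finrank K k ≤ B + 1 → x ≠ 0 →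
      (x 1 ≠ 0 → (minpoly E (x 0 / x 1)).natDegree ≤ s) → Wnd G x →
      ∀ (P : Ideal (𝓞 k)) [P.IsMaximal], P ≠ ⊥ → (nc : 𝓞 k) ∉ P →
      (∀ p : ℕ, p.Prime → (p : 𝓞 k) ∈ P →
          ∀ u ∈ TP (E ⊓ IntermediateField.adjoin k {x 0 / x 1} : IntermediateField k L) P,
          ¬ p ∣ (mi u).ramificationIdx (𝓞 k)) →
      1 / (C₁ * (P.absNorm : ℝ) ^ J) ≤ canH G q x ∨
        ∃ (D' : ℕ) (h' : ℝ), (D' : ℝ) ≤ C₁ * (P.absNorm : ℝ) ^ J ∧
          h' ≤ C₁ * (P.absNorm : ℝ) ^ J * canH G q x ∧ Pt K G q (B + 1) s D' h' := by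
    intro k L _ _ _ _ _ _ _ _ _ E _ x hk hx hmp hw P _ hP0 hncP htame
    have hfd : FiniteDimensional k L := Pool.Agent.R829.DL.fd_inter k L
    have h0 : 0 < canH G q x := lt_of_lt_of_le (Real.exp_pos _) (hlow k L x hx hw)
    have hnbP : (nb : 𝓞 k) ∉ P := by
      intro h
      apply hncP
      rw [hnc, Nat.cast_mul]
      exact Ideal.mul_mem_right _ _ h
    have hfP : (s.factorial : 𝓞 k) ∉ P := by
      intro h
      apply hncP
      rw [hnc, Nat.cast_mul]
      exact Ideal.mul_mem_left _ _ h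
    have h1 := hkey k L (bch k G) (hmod k hk) E x hx (Wnd_bch hw) (by rwa [canH_bch]) hmp P hP0
      hnbP hfP htame
    rw [canH_bch] at h1
    rcases h1 with h1 | ⟨W, hW1, hW2⟩
    · exact Or.inl h1
    · right
      rw [act_bch_iter] at hW2
      refine ⟨_, (q : ℝ) ^ (2 * W) * canH G q x, hW2, mul_le_mul_of_nonneg_right hW1 h0.le, ?_⟩
      have hcan : canH G q ((act G)^[2 * W] x) = (q : ℝ) ^ (2 * W) * canH G q x :=
        hB.canH_iter hq hx (2 * W)
      refine ⟨k, inferInstance, inferInstance, inferInstance, L, inferInstance, inferInstance,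
        inferInstance, inferInstance, inferInstance, inferInstance, E, inferInstance,
        (act G)^[2 * W] x, hk, hB.iter_ne_zero hx _, fun _ => ?_, ?_, rfl, hcan⟩
      · exact minpoly_le_fod hs1 hmp (ratio_mem (fod_iter (K := K) (k := k) hB hhom hx
          (Nat.zero_le (2 * W))) 0 1)
      · rintro ⟨m, n, hmn, d, hd, hd'⟩
        rw [← Function.iterate_add_apply, ← Function.iterate_add_apply] at hd'
        exact hw ⟨m + 2 * W, n + 2 * W, by omega, d, hd, hd'⟩
  obtain ⟨C, hC, hfin⟩ := hInd (Pt K G q (B + 1) s) C₁ C₂ κ J hC₁ hC₂ hpos hNor (by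
    rintro D h ⟨k, _, _, _, L, _, _, _, _, _, _, E, _, x, hk, hx, hmp, hw, rfl, rfl⟩
    have hfd : FiniteDimensional k L := Pool.Agent.R829.DL.fd_inter k L
    obtain ⟨P, hP, hP0, hncP, hDP, hN⟩ := hsel k (hmod k hk).deg (finrank k (fod k x))
      finrank_pos
    refine ⟨P.absNorm, by exact_mod_cast (norm_two hP0).trans' (by norm_num), hN, ?_⟩
    refine hdich k L E x hk hx hmp hw P hP0 hncP ?_
    intro p hp hpP u hu hdvd
    obtain ⟨E', hE'⟩ : ∃ E' : IntermediateField k L,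
      E' = E ⊓ IntermediateField.adjoin k {x 0 / x 1} := ⟨_, rfl⟩
    subst hE'
    have hab : IsAbelianGalois k
        (E ⊓ IntermediateField.adjoin k {x 0 / x 1} : IntermediateField k L) :=
      IsAbelianGalois.of_algHom (IntermediateField.inclusion inf_le_left)
    have h1 := ram_dvd hP0 hu
    have h2 : (E ⊓ IntermediateField.adjoin k {x 0 / x 1} : IntermediateField k L) ≤ fod k x := by
      refine inf_le_right.trans ?_
      rw [IntermediateField.adjoin_le_iff]
      intro z hz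
      rw [Set.mem_singleton_iff.mp hz]
      exact ratio_mem le_rfl 0 1
    have h3 := (hdvd.trans h1).trans (IntermediateField.finrank_dvd_of_le_right h2)
    apply hDP
    obtain ⟨m, hm⟩ := h3
    rw [hm, Nat.cast_mul]
    exact Ideal.mul_mem_right _ _ hpP)
  -- the constant
  obtain ⟨C₃, hC₃⟩ := exists_nat_ge (C * (C₁ + 1) ^ (C + 1))
  obtain ⟨C₄, hC₄⟩ : ∃ C₄, C₄ = C + C₃ + J * (C + 1) := ⟨_, rfl⟩
  obtain ⟨C', hC'⟩ : ∃ C', C' = nc * (C₄ + 1) := ⟨_, rfl⟩
  have hCC' : C₄ + 1 ≤ C' := by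
    rw [hC']
    exact Nat.le_mul_of_pos_left _ (Nat.pos_of_ne_zero hnc0)
  refine ⟨C', by omega, ?_⟩
  intro k E₀ L₀ _ _ _ _ _ _ _ _ _ _ _ _ _ _ hk hr x₀ hx₀ hw₀
  have hB' : Bds (fun i => MvPolynomial.C (b : K) * F i) q A a := by
    rw [← hG]
    exact hB
  obtain ⟨hw1, hlim⟩ := Pool.Agent.H627.LR.transfer_scale hb0 hF hq hB' hx₀
  rw [← hG] at hw1 hlim
  refine ⟨canH G q x₀, hlim, ?_⟩
  have hw₀' := hw1 hw₀
  -- the Galois closure
  let L := NC k L₀
  let _ : Algebra K L := ((algebraMap k L).comp (algebraMap K k)).toAlgebra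
  have htow : IsScalarTower K k L := IsScalarTower.of_algebraMap_eq fun z => rfl
  have hfd₀ : FiniteDimensional k L₀ := Pool.Agent.R829.DL.fd_inter k L₀
  have hfd₁ : FiniteDimensional E₀ L₀ := Pool.Agent.R829.DL.fd_inter E₀ L₀
  have hfd : FiniteDimensional k L := Pool.Agent.R829.DL.fd_inter k L
  let φ : L₀ →ₐ[k] L := IsScalarTower.toAlgHom k L₀ L
  let φK : L₀ →ₐ[K] L :=
    { φ.toRingHom with
      commutes' := fun z => by
        change φ (algebraMap K L₀ z) = algebraMap k L (algebraMap K k z)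
        rw [IsScalarTower.algebraMap_apply K k L₀, AlgHom.commutes] }
  have hφφ : ∀ z, φK z = φ z := fun z => rfl
  let x : Fin (1 + 1) → L := fun i => φ (x₀ i)
  have hx : x ≠ 0 := by
    intro h
    apply hx₀
    funext i
    have h1 : φ (x₀ i) = 0 := congrFun h i
    exact (map_eq_zero φ).mp h1
  have hw : Wnd G x := Wnd_up hB φK hx₀ hw₀'
  have hcan : canH G q x = canH G q x₀ := canH_hom φK G q x₀
  have hfod : finrank k (fod k x) = finrank k (fod k x₀) := finrank_fod_map φ x₀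
  let ψ : E₀ →ₐ[k] L := φ.comp (IsScalarTower.toAlgHom k E₀ L₀)
  let E : IntermediateField k L := ψ.fieldRange
  let e : E₀ ≃ₐ[k] E := AlgEquiv.ofInjectiveField ψ
  have hEab : IsAbelianGalois k E := IsAbelianGalois.of_algHom (e.symm : E →ₐ[k] E₀)
  have hmp : ∀ z₀ : L₀, (minpoly E (φ z₀)).natDegree ≤ s := by
    intro z₀
    have hint : IsIntegral E₀ z₀ := Algebra.IsIntegral.isIntegral z₀
    have h1 : Polynomial.aeval (φ z₀) ((minpoly E₀ z₀).map (e : E₀ →+* E)) = 0 := by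
      have h2 : Polynomial.aeval (φ z₀) ((minpoly E₀ z₀).map (e : E₀ →+* E)) =
          φ (Polynomial.aeval z₀ (minpoly E₀ z₀)) := by
        rw [Polynomial.aeval_def, Polynomial.eval₂_map, Polynomial.aeval_def]
        exact (Polynomial.hom_eval₂ (minpoly E₀ z₀) (algebraMap E₀ L₀) (φ : L₀ →+* L) z₀).symm
      rw [h2, minpoly.aeval, map_zero]
    have h3 : ((minpoly E₀ z₀).map (e : E₀ →+* E)) ≠ 0 :=
      (Polynomial.Monic.map _ (minpoly.monic hint)).ne_zero
    have h4 := Polynomial.natDegree_le_natDegree (minpoly.degree_le_of_ne_zero E (φ z₀) h3 h1)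
    have h5 : (minpoly E₀ z₀).natDegree ≤ finrank E₀ L₀ := minpoly.natDegree_le z₀
    rw [Polynomial.natDegree_map] at h4
    omega
  have hmp' : x 1 ≠ 0 → (minpoly E (x 0 / x 1)).natDegree ≤ s := by
    intro _
    have h1 : x 0 / x 1 = φ (x₀ 0 / x₀ 1) := (map_div₀ φ _ _).symm
    rw [h1]
    exact hmp _
  have hk' : finrank K k ≤ B + 1 := by omega
  have hPt : Pt K G q (B + 1) s (finrank k (fod k x₀)) (canH G q x₀) :=
    ⟨k, inferInstance, inferInstance, inferInstance, L, inferInstance, inferInstance,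
      inferInstance, inferInstance, inferInstance, inferInstance, E, hEab, x, hk', hx, hmp', hw,
      hfod, hcan⟩
  refine ⟨(mono_bd hC (by omega)).trans (hfin _ _ hPt), ?_⟩
  intro P hP hP0 hCP htame
  have hncP : (nc : 𝓞 k) ∉ P := by
    intro h
    apply hCP
    rw [hC', Nat.cast_mul]
    exact Ideal.mul_mem_right _ _ h
  have hN2 := norm_two hP0
  have hN1 : (1 : ℝ) ≤ P.absNorm := by exact_mod_cast (by omega : 1 ≤ P.absNorm)
  have hNJ : (1 : ℝ) ≤ (P.absNorm : ℝ) ^ J := one_le_pow₀ hN1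
  have h1 := hdich k L E x hk' hx hmp' hw P hP0 hncP (by
    intro p hp hpP u hu hdvd
    obtain ⟨𝔓, h1, h2, h3⟩ := ram_tower (N := E₀) hP0
      ((e.symm : E →ₐ[k] E₀).comp (IntermediateField.inclusion inf_le_left)) hu
    have h4 := htame 𝔓 h1 h2
    have h5 : p ∣ P.absNorm := by
      have h6 : P.absNorm ∣ p ^ finrank ℚ k := by
        have h7 : Ideal.span {(p : 𝓞 k)} ≤ P := by
          rw [Ideal.span_singleton_le_iff_mem]
          exact hpP
        have h8 := Ideal.absNorm_dvd_absNorm_of_le h7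
        rwa [Ideal.absNorm_span_singleton, Algebra.norm_natCast, Int.natAbs_pow,
          Int.natAbs_natCast, RingOfIntegers.rank] at h8
      obtain ⟨l, -, hl⟩ := (Nat.dvd_prime_pow hp).mp h6
      rw [hl]
      apply dvd_pow_self
      rintro rfl
      rw [pow_zero] at hl
      omega
    exact hp.one_lt.ne' (Nat.dvd_one.mp (h4 ▸ Nat.dvd_gcd (hdvd.trans h3) h5)))
  rw [hcan] at h1
  have hbase : 1 / ((C₄ : ℝ) * (P.absNorm : ℝ) ^ C₄) ≤ canH G q x₀ := by
    have hN0 : (0 : ℝ) < P.absNorm := by linarith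
    have hC₄0 : (0 : ℝ) < C₄ := by
      have : 1 ≤ C₄ := by omega
      exact_mod_cast this
    have hCr : (1 : ℝ) ≤ C := by exact_mod_cast hC
    have hZ1 : (1 : ℝ) ≤ (C₁ + 1) * (P.absNorm : ℝ) ^ J := by nlinarith
    -- the final comparison
    have hcmp : (C : ℝ) * ((C₁ + 1) * (P.absNorm : ℝ) ^ J) ^ (C + 1) ≤
        C₄ * (P.absNorm : ℝ) ^ C₄ := by
      have e1 : (C : ℝ) * ((C₁ + 1) * (P.absNorm : ℝ) ^ J) ^ (C + 1) =
          (C * (C₁ + 1) ^ (C + 1)) * (P.absNorm : ℝ) ^ (J * (C + 1)) := by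
        rw [mul_pow, ← pow_mul]
        ring
      rw [e1]
      apply mul_le_mul _ (pow_le_pow_right₀ hN1 (by omega)) (by positivity) hC₄0.le
      refine hC₃.trans ?_
      exact_mod_cast (by omega : C₃ ≤ C₄)
    have hC₁le : C₁ * (P.absNorm : ℝ) ^ J ≤ (C₁ + 1) * (P.absNorm : ℝ) ^ J :=
      mul_le_mul_of_nonneg_right (by linarith) (by positivity)
    rcases h1 with h1 | ⟨D', h', hD', hh', hPt'⟩
    · refine le_trans ?_ h1
      apply div_le_div_of_nonneg_left zero_le_one (by positivity)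
      refine le_trans ?_ hcmp
      have e2 : (C₁ + 1) * (P.absNorm : ℝ) ^ J ≤ ((C₁ + 1) * (P.absNorm : ℝ) ^ J) ^ (C + 1) :=
        le_self_pow₀ hZ1 (by omega)
      have e3 : 0 ≤ (C₁ + 1) * (P.absNorm : ℝ) ^ J := by linarith
      nlinarith [mul_le_mul hCr e2 e3 (by linarith : (0 : ℝ) ≤ C)]
    · have h2 := hfin _ _ hPt'
      obtain ⟨hD1, hh0⟩ := hpos _ _ hPt'
      have hD1' : (1 : ℝ) ≤ D' := by exact_mod_cast hD1
      have h3 : 1 + Real.log D' ≤ (C₁ + 1) * (P.absNorm : ℝ) ^ J := by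
        have := Real.log_le_sub_one_of_pos (show (0 : ℝ) < D' by linarith)
        linarith
      have h3' : 0 < 1 + Real.log D' := by
        have := Real.log_nonneg hD1'
        linarith
      have h4 : 1 / ((C : ℝ) * ((C₁ + 1) * (P.absNorm : ℝ) ^ J) ^ C) ≤ h' := by
        refine le_trans ?_ h2
        apply div_le_div_of_nonneg_left zero_le_one (by positivity)
        apply mul_le_mul_of_nonneg_left _ (by linarith)
        exact pow_le_pow_left₀ h3'.le h3 C
      have h5 : h' ≤ (C₁ + 1) * (P.absNorm : ℝ) ^ J * canH G q x₀ := by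
        refine hh'.trans ?_
        have h6 : 0 ≤ canH G q x₀ := hB.canH_nonneg hq hx₀
        exact mul_le_mul_of_nonneg_right hC₁le h6
      have hZ0 : 0 < (C₁ + 1) * (P.absNorm : ℝ) ^ J := by linarith
      refine le_trans (div_le_div_of_nonneg_left zero_le_one (by positivity) hcmp) ?_
      rw [div_le_iff₀ (by positivity)] at h4 ⊢
      calc (1 : ℝ) ≤ h' * (C * ((C₁ + 1) * (P.absNorm : ℝ) ^ J) ^ C) := h4
        _ ≤ ((C₁ + 1) * (P.absNorm : ℝ) ^ J * canH G q x₀) *
            (C * ((C₁ + 1) * (P.absNorm : ℝ) ^ J) ^ C) :=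
            mul_le_mul_of_nonneg_right h5 (by positivity)
        _ = canH G q x₀ * (C * ((C₁ + 1) * (P.absNorm : ℝ) ^ J) ^ (C + 1)) := by
            rw [pow_succ]
            ring
  exact (mono_bd' hN1 (by omega) (by omega)).trans hbase

end

end Pool.Agent.N715.AC
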