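import Mathlib
import Pool.Agent.N715.AC.Stm
import Pool.Agent.N715.AB.Sel

/-!
Project AC, parts (IND) and (SEL): the numerical induction; a prime of small norm whose residue
characteristic does not divide a given number.
-/

set_option autoImplicit false

namespace Pool.Agent.N715.AC

open NumberField Module Filter

namespace Ind868

lemma large (A B : ℝ) (m : ℕ) : ∃ D₀ : ℕ, ∀ D : ℕ, D₀ < D →
    A ≤ 1 + Real.log D ∧ (B * (1 + Real.log (1 + Real.log D))) ^ 2 ≤ 1 + Real.log D ∧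
    (1 + Real.log D) ^ (m + 1) < D := by
  have h1 : ∀ᶠ x : ℝ in atTop, A ≤ x := eventually_ge_atTop A
  have h2 : ∀ᶠ x : ℝ in atTop, (B * (1 + Real.log x)) ^ 2 ≤ x := by
    have e1 := (Real.isLittleO_pow_log_id_atTop (n := 2)).bound
      (show (0 : ℝ) < 1 / (4 * B ^ 2 + 1) by positivity)
    have e2 : ∀ᶠ x : ℝ in atTop, 1 ≤ Real.log x :=
      Real.tendsto_log_atTop.eventually (eventually_ge_atTop 1)
    filter_upwards [e1, e2, eventually_ge_atTop (0 : ℝ)] with x e1 e2 e3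
    simp only [id, Real.norm_eq_abs, abs_of_nonneg e3] at e1
    rw [abs_of_nonneg (by positivity)] at e1
    have e4 : (4 * B ^ 2 + 1) * Real.log x ^ 2 ≤ x := by
      have := mul_le_mul_of_nonneg_left e1 (show (0 : ℝ) ≤ 4 * B ^ 2 + 1 by positivity)
      rwa [← mul_assoc, mul_one_div_cancel (by positivity), one_mul] at this
    have e5 : (1 + Real.log x) ^ 2 ≤ 4 * Real.log x ^ 2 := by nlinarith
    have e6 := mul_le_mul_of_nonneg_left e5 (sq_nonneg B)
    nlinarith [sq_nonneg (Real.log x)]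
  have h3 : ∀ᶠ x : ℝ in atTop, x ^ (m + 1) < Real.exp (x - 1) := by
    have e1 := (Real.tendsto_pow_mul_exp_neg_atTop_nhds_zero (m + 1)).eventually
      (gt_mem_nhds (Real.exp_pos (-1)))
    filter_upwards [e1] with x e1
    have e2 := mul_lt_mul_of_pos_right e1 (Real.exp_pos x)
    rw [mul_assoc, ← Real.exp_add, ← Real.exp_add, neg_add_cancel, Real.exp_zero, mul_one] at e2
    rwa [show x - 1 = -1 + x by ring]
  have ht : Tendsto (fun D : ℕ => 1 + Real.log (D : ℝ)) atTop atTop :=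
    tendsto_atTop_add_const_left _ _ (Real.tendsto_log_atTop.comp tendsto_natCast_atTop_atTop)
  obtain ⟨D₀, hD₀⟩ := eventually_atTop.1 (ht.eventually ((h1.and h2).and h3))
  refine ⟨D₀, fun D hD => ?_⟩
  obtain ⟨⟨e1, e2⟩, e3⟩ := hD₀ D hD.le
  refine ⟨e1, e2, ?_⟩
  have hD0 : (0 : ℝ) < D := by
    have : 0 < D := by omega
    exact_mod_cast this
  rwa [add_sub_cancel_left, Real.exp_log hD0] at e3

lemma sum_log_le (K : Type) [Field K] [NumberField K] (D : ℕ) (hD : 1 ≤ D)
    (S : Finset (Ideal (𝓞 K)))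
    (hS : ∀ P ∈ S, P.IsMaximal ∧ P ≠ ⊥ ∧ (D : 𝓞 K) ∈ P) :
    ∑ P ∈ S, Real.log (Ideal.absNorm P) ≤ finrank ℚ K * Real.log D := by
  classical
  have hdvd : ∏ P ∈ S, P ∣ Ideal.span {(D : 𝓞 K)} := by
    apply Finset.prod_primes_dvd
    · intro P hP
      obtain ⟨h1, h2, -⟩ := hS P hP
      exact Ideal.prime_of_isPrime h2 h1.isPrime
    · intro P hP
      rw [Ideal.dvd_span_singleton]
      exact (hS P hP).2.2
  have hnorm : Ideal.absNorm (Ideal.span {(D : 𝓞 K)}) = D ^ finrank ℚ K := by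
    rw [Ideal.absNorm_span_natCast, RingOfIntegers.rank]
  have h1 : ∏ P ∈ S, Ideal.absNorm P ∣ D ^ finrank ℚ K := by
    rw [← hnorm, ← map_prod]
    exact Ideal.absNorm_dvd_absNorm_of_le (Ideal.dvd_iff_le.1 hdvd)
  have h2 : ∏ P ∈ S, Ideal.absNorm P ≤ D ^ finrank ℚ K := Nat.le_of_dvd (by positivity) h1
  have h3 : ∀ P ∈ S, (Ideal.absNorm P : ℝ) ≠ 0 := by
    intro P hP
    have := (hS P hP).2.1
    have : Ideal.absNorm P ≠ 0 := by
      rwa [Ne, Ideal.absNorm_eq_zero_iff]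
    exact_mod_cast this
  rw [← Real.log_prod h3, ← Real.log_pow]
  apply Real.log_le_log
  · have : (0 : ℝ) ≤ ∏ P ∈ S, (Ideal.absNorm P : ℝ) := Finset.prod_nonneg fun _ _ => by positivity
    exact lt_of_le_of_ne this (Ne.symm (Finset.prod_ne_zero_iff.2 h3))
  · exact_mod_cast h2

end Ind868

open Ind868

/-- (IND) the numerical induction -/
theorem numInd2 : NumInd2 := by
  intro R C₁ C₂ κ J hC₁ hC₂ h1 h2 h3
  obtain ⟨m, hm⟩ : ∃ m, m = κ * J := ⟨_, rfl⟩
  obtain ⟨c₁, hc₁⟩ : ∃ c, c = max C₁ 1 := ⟨_, rfl⟩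
  obtain ⟨c₂, hc₂⟩ : ∃ c, c = max C₂ 1 := ⟨_, rfl⟩
  have hc₁1 : 1 ≤ c₁ := hc₁ ▸ le_max_right _ _
  have hc₂1 : 1 ≤ c₂ := hc₂ ▸ le_max_right _ _
  have hc₁C : C₁ ≤ c₁ := hc₁ ▸ le_max_left _ _
  have hc₂C : C₂ ≤ c₂ := hc₂ ▸ le_max_left _ _
  obtain ⟨A, hA⟩ : ∃ A, A = c₁ * c₂ ^ m := ⟨_, rfl⟩
  have hA1 : 1 ≤ A := by
    rw [hA]
    exact one_le_mul_of_one_le_of_one_le hc₁1 (one_le_pow₀ hc₂1)
  have hlA : 0 ≤ Real.log A := Real.log_nonneg hA1
  obtain ⟨B, hB⟩ : ∃ B : ℝ, B = 1 + Real.log A + m := ⟨_, rfl⟩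
  have hB1 : 1 ≤ B := by
    rw [hB]
    have : (0 : ℝ) ≤ m := by positivity
    linarith
  obtain ⟨D₀, hD₀⟩ := large A B m
  obtain ⟨c, hc0, hc⟩ := h2 D₀
  obtain ⟨k, hk⟩ : ∃ k, k = max (m + 1) (max ⌈A⌉₊ ⌈1 / c⌉₊) := ⟨_, rfl⟩
  have hkm : m + 1 ≤ k := hk ▸ le_max_left _ _
  have hkA : A ≤ k := (Nat.le_ceil _).trans (by
    rw [hk]
    exact_mod_cast (le_max_left _ _).trans (le_max_right _ _))
  have hkc : 1 / c ≤ k := (Nat.le_ceil _).trans (by
    rw [hk]
    exact_mod_cast (le_max_right _ _).trans (le_max_right _ _))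
  have hk0 : (0 : ℝ) < k := by linarith
  have hkey : ∀ D h, R D h → ∃ M : ℝ, 0 < M ∧ M ≤ A * (1 + Real.log D) ^ m ∧
      (1 / M ≤ h ∨ ∃ (D' : ℕ) (h' : ℝ), (D' : ℝ) ≤ M ∧ h' ≤ M * h ∧ R D' h') := by
    intro D h hR
    obtain ⟨hD1, hh0⟩ := h1 D h hR
    have hl : 0 ≤ Real.log D := Real.log_nonneg (by exact_mod_cast hD1)
    obtain ⟨N, hN1, hN, hcase⟩ := h3 D h hR
    refine ⟨C₁ * N ^ J, by positivity, ?_, hcase⟩
    have e1 : N ≤ (c₂ * (1 + Real.log D)) ^ κ := by
      refine hN.trans (pow_le_pow_left₀ (by positivity) ?_ _)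
      rw [add_comm]
      exact mul_le_mul_of_nonneg_right hc₂C (by linarith)
    calc C₁ * N ^ J ≤ c₁ * ((c₂ * (1 + Real.log D)) ^ κ) ^ J :=
          mul_le_mul hc₁C (pow_le_pow_left₀ (by linarith) e1 _) (by positivity) (by linarith)
      _ = A * (1 + Real.log D) ^ m := by
          rw [← pow_mul, ← hm, mul_pow, hA]
          ring
  have hk2 : (0 : ℝ) < ((2 * k : ℕ) : ℝ) := by
    push_cast
    linarith
  refine ⟨2 * k, by omega, ?_⟩
  intro D
  induction D using Nat.strong_induction_on with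
  | _ D ih =>
    intro h hR
    obtain ⟨hD1, hh0⟩ := h1 D h hR
    obtain ⟨f, hf⟩ : ∃ f : ℝ, f = 1 + Real.log D := ⟨_, rfl⟩
    have hl : 0 ≤ Real.log D := Real.log_nonneg (by exact_mod_cast hD1)
    have hf1 : 1 ≤ f := by linarith
    have hfp : ∀ n : ℕ, 1 ≤ f ^ n := fun n => one_le_pow₀ hf1
    obtain ⟨M, hM0, hM, hcase⟩ := hkey D h hR
    rw [← hf] at hM ⊢
    have hC2 : ((2 * k : ℕ) : ℝ) = 2 * k := by push_cast; ring
    rcases hcase with hcase | ⟨D', h', hD', hh', hR'⟩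
    · refine le_trans ?_ hcase
      apply one_div_le_one_div_of_le hM0
      refine hM.trans ?_
      apply mul_le_mul _ (pow_le_pow_right₀ hf1 (by omega)) (by positivity) (by positivity)
      rw [hC2]
      linarith
    · rcases le_or_gt D D₀ with hDD | hDD
      · refine le_trans ?_ (hc D h hDD hR)
        rw [div_le_iff₀ hc0] at hkc
        rw [div_le_iff₀ (mul_pos hk2 (by positivity)), hC2]
        have := hfp (2 * k)
        nlinarith [mul_pos hk0 hc0]
      · obtain ⟨g1, g2, g3⟩ := hD₀ D hDD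
        rw [← hf] at g1 g2 g3
        have hMf : M ≤ f ^ (m + 1) := by
          refine hM.trans ?_
          rw [pow_succ, mul_comm]
          exact mul_le_mul_of_nonneg_left g1 (by positivity)
        have hD'D : D' < D := by
          have : (D' : ℝ) < D := (hD'.trans hMf).trans_lt g3
          exact_mod_cast this
        obtain ⟨hD'1, hh'0⟩ := h1 D' h' hR'
        have hD'1' : (1 : ℝ) ≤ D' := by exact_mod_cast hD'1
        have e1 := ih D' hD'D h' hR'
        have hlf : 0 ≤ Real.log f := Real.log_nonneg hf1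
        have e2 : 1 + Real.log D' ≤ B * (1 + Real.log f) := by
          have e3 : Real.log D' ≤ Real.log A + m * Real.log f := by
            rw [← Real.log_pow, ← Real.log_mul (by linarith) (by positivity)]
            exact Real.log_le_log (by linarith) (hD'.trans hM)
          rw [hB]
          have : (0 : ℝ) ≤ m := by positivity
          nlinarith
        have hl' : 0 ≤ Real.log D' := Real.log_nonneg hD'1'
        have e4 : (1 + Real.log D') ^ (2 * k) ≤ f ^ k := by
          rw [pow_mul]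
          apply pow_le_pow_left₀ (by positivity)
          refine le_trans ?_ g2
          exact pow_le_pow_left₀ (by positivity) e2 _
        have e5 : 1 ≤ M * h * ((2 * k : ℕ) * f ^ k) := by
          rw [div_le_iff₀ (mul_pos hk2 (by positivity))] at e1
          refine e1.trans ?_
          apply mul_le_mul hh' _ (by positivity) (by positivity)
          exact mul_le_mul_of_nonneg_left e4 (by positivity)
        rw [div_le_iff₀ (mul_pos hk2 (by positivity))]
        refine e5.trans ?_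
        have e6 : M ≤ f ^ k := hMf.trans (pow_le_pow_right₀ hf1 hkm)
        have e7 : 0 ≤ h * ((2 * k : ℕ) * f ^ k) := by positivity
        have e8 := mul_le_mul_of_nonneg_right e6 e7
        calc M * h * ((2 * k : ℕ) * f ^ k) = M * (h * ((2 * k : ℕ) * f ^ k)) := by ring
          _ ≤ f ^ k * (h * ((2 * k : ℕ) * f ^ k)) := e8
          _ = h * ((2 * k : ℕ) * f ^ (2 * k)) := by
              rw [two_mul k, pow_add]
              ring

/-- (SEL) a prime of small norm whose residue characteristic does not divide `D` -/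
theorem primeSel2 : PrimeSel2 := by
  intro κ nb hκ hnb
  obtain ⟨C, hC0, hC⟩ := AB.primeSel κ nb hκ hnb
  have hκ1 : (1 : ℝ) ≤ κ := by exact_mod_cast hκ
  refine ⟨C * κ, by positivity, ?_⟩
  intro K _ _ hK D hD
  have hl : 0 ≤ Real.log D := Real.log_nonneg (by exact_mod_cast hD)
  obtain ⟨P, h1, h2, h3, h4, h5⟩ := hC K hK (fun P => (D : 𝓞 K) ∈ P) (κ * Real.log D)
    (by positivity) (by
      intro S hS
      refine (sum_log_le K D hD S fun P hP => ⟨(hS P hP).1, (hS P hP).2.1, (hS P hP).2.2.2⟩).trans ?_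
      exact mul_le_mul_of_nonneg_right (by exact_mod_cast hK) hl)
  refine ⟨P, h1, h2, h3, h4, h5.trans (pow_le_pow_left₀ (by positivity) ?_ _)⟩
  rw [mul_assoc]
  apply mul_le_mul_of_nonneg_left _ hC0.le
  nlinarith

end Pool.Agent.N715.AC
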