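import Mathlib
import Pool.Agent.N715.AC.Stm
import Pool.Agent.N715.AB.Sel

/-!
Project AC: the numerical induction and a prime of small norm not above the divisors of `D`.
-/

set_option autoImplicit false

open NumberField Module Filter Topology

namespace Pool.Agent.N715.AC

namespace IndA

lemma ev_sq (A B : ℝ) : ∀ᶠ u : ℝ in atTop, (A + B * Real.log u) ^ 2 ≤ u := by
  have h1 : ∀ᶠ u : ℝ in atTop, ‖Real.log u ^ 2‖ ≤ (1 / (4 * (B ^ 2 + 1))) * ‖(id u : ℝ)‖ :=
    (Real.isLittleO_pow_log_id_atTop (n := 2)).def (by positivity)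
  filter_upwards [h1, eventually_ge_atTop (4 * A ^ 2 + 1)] with u h1 h2
  have hu : 0 < u := by nlinarith [sq_nonneg A]
  rw [Real.norm_of_nonneg (sq_nonneg _), id, Real.norm_of_nonneg hu.le] at h1
  have h3 : (A + B * Real.log u) ^ 2 ≤ 2 * A ^ 2 + 2 * (B ^ 2 * Real.log u ^ 2) := by
    nlinarith [sq_nonneg (A - B * Real.log u)]
  have h4 : B ^ 2 * Real.log u ^ 2 ≤ u / 4 := by
    have h5 : (B ^ 2 + 1) * Real.log u ^ 2 ≤ u / 4 := by
      calc (B ^ 2 + 1) * Real.log u ^ 2 ≤ (B ^ 2 + 1) * (1 / (4 * (B ^ 2 + 1)) * u) :=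
            mul_le_mul_of_nonneg_left h1 (by positivity)
        _ = u / 4 := by
            field_simp
    nlinarith [sq_nonneg (Real.log u)]
  linarith

lemma ev_exp (c : ℝ) (hc : 0 < c) (n : ℕ) : ∀ᶠ u : ℝ in atTop, c * u ^ n < Real.exp (u - 1) := by
  have h1 := Real.tendsto_pow_mul_exp_neg_atTop_nhds_zero n
  have h2 : ∀ᶠ u : ℝ in atTop, u ^ n * Real.exp (-u) < 1 / (c * Real.exp 1) :=
    h1.eventually_lt_const (by positivity)
  filter_upwards [h2] with u h2
  rw [lt_div_iff₀ (by positivity)] at h2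
  have h3 : Real.exp (-u) * Real.exp (u - 1) * Real.exp 1 = 1 := by
    rw [← Real.exp_add, ← Real.exp_add]
    ring_nf
    exact Real.exp_zero
  have h4 : 0 < Real.exp (u - 1) := Real.exp_pos _
  have h5 : (u ^ n * Real.exp (-u) * (c * Real.exp 1)) * Real.exp (u - 1) <
      1 * Real.exp (u - 1) := mul_lt_mul_of_pos_right h2 h4
  calc c * u ^ n = c * u ^ n * (Real.exp (-u) * Real.exp (u - 1) * Real.exp 1) := by
        rw [h3, mul_one]
    _ = (u ^ n * Real.exp (-u) * (c * Real.exp 1)) * Real.exp (u - 1) := by ring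
    _ < 1 * Real.exp (u - 1) := h5
    _ = Real.exp (u - 1) := one_mul _

end IndA

open IndA in
/-- (IND) the numerical induction -/
theorem numIndC : NumInd2 := by
  intro R C₁ C₂ κ J hC₁ hC₂ h1 h2 h3
  obtain ⟨n, hn⟩ : ∃ n, n = κ * J := ⟨_, rfl⟩
  obtain ⟨c, hc⟩ : ∃ c : ℝ, c = max 1 C₁ * (max 1 C₂) ^ n := ⟨_, rfl⟩
  have hc₁ : 1 ≤ max 1 C₁ := le_max_left _ _
  have hc₂ : 1 ≤ max 1 C₂ := le_max_left _ _
  have hc1 : 1 ≤ c := by
    rw [hc]
    exact one_le_mul_of_one_le_of_one_le hc₁ (one_le_pow₀ hc₂)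
  have hc0 : 0 < c := by linarith
  -- the bound for `C₁ * N ^ J`
  have hZ : ∀ D : ℕ, 1 ≤ D → ∀ N : ℝ, 1 ≤ N → N ≤ (C₂ * (Real.log D + 1)) ^ κ →
      C₁ * N ^ J ≤ c * (1 + Real.log D) ^ n := by
    intro D hD N hN hNu
    have hl : 0 ≤ Real.log D := Real.log_natCast_nonneg D
    have e1 : N ≤ (max 1 C₂ * (1 + Real.log D)) ^ κ := by
      refine hNu.trans (pow_le_pow_left₀ (by positivity) ?_ _)
      rw [add_comm]
      exact mul_le_mul_of_nonneg_right (le_max_right _ _) (by linarith)
    have e2 : N ^ J ≤ (max 1 C₂ * (1 + Real.log D)) ^ n := by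
      rw [hn, pow_mul]
      exact pow_le_pow_left₀ (by linarith) e1 _
    calc C₁ * N ^ J ≤ max 1 C₁ * (max 1 C₂ * (1 + Real.log D)) ^ n :=
          mul_le_mul (le_max_right _ _) e2 (by positivity) (by linarith)
      _ = c * (1 + Real.log D) ^ n := by
          rw [hc, mul_pow]
          ring
  -- the thresholds
  have hT : Tendsto (fun D : ℕ => 1 + Real.log D) atTop atTop :=
    tendsto_atTop_add_const_left _ _ (Real.tendsto_log_atTop.comp tendsto_natCast_atTop_atTop)
  have hev := hT.eventually ((ev_sq (1 + Real.log c) n).and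
    ((ev_exp c hc0 n).and (eventually_ge_atTop c)))
  rw [eventually_atTop] at hev
  obtain ⟨D₀, hD₀⟩ := hev
  obtain ⟨c', hc'0, hc'⟩ := h2 D₀
  obtain ⟨C', hC'⟩ : ∃ C' : ℕ, C' = n + 1 + ⌈c⌉₊ + ⌈1 / c'⌉₊ := ⟨_, rfl⟩
  have hC'1 : 1 ≤ C' := by omega
  have hC'n : n + 1 ≤ C' := by omega
  have hC'c : c ≤ C' := by
    refine (Nat.le_ceil c).trans ?_
    exact_mod_cast (by omega : ⌈c⌉₊ ≤ C')
  have hC'c' : 1 / c' ≤ C' := by
    refine (Nat.le_ceil (1 / c')).trans ?_
    exact_mod_cast (by omega : ⌈1 / c'⌉₊ ≤ C')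
  have hC'r : (1 : ℝ) ≤ C' := by exact_mod_cast hC'1
  refine ⟨2 * C', by omega, ?_⟩
  intro D
  induction D using Nat.strong_induction_on with
  | _ D ih =>
    intro h hR
    obtain ⟨hD1, hh0⟩ := h1 D h hR
    obtain ⟨N, hN1, hN, hcase⟩ := h3 D h hR
    have hZD := hZ D hD1 N hN1 hN
    obtain ⟨u, hu⟩ : ∃ u, u = 1 + Real.log D := ⟨_, rfl⟩
    have hu1 : 1 ≤ u := by
      rw [hu]
      have := Real.log_natCast_nonneg D
      linarith
    have hu0 : 0 < u := by linarith
    rw [← hu] at hZD ⊢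
    have hNJ0 : 0 < C₁ * N ^ J := by
      have : 0 < N := by linarith
      positivity
    have hcast : ((2 * C' : ℕ) : ℝ) = 2 * (C' : ℝ) := by push_cast; ring
    rw [hcast]
    rcases hcase with hcase | ⟨D', h', hD', hh', hR'⟩
    · refine le_trans ?_ hcase
      apply div_le_div_of_nonneg_left (by norm_num) hNJ0
      refine hZD.trans (mul_le_mul (by linarith) (pow_le_pow_right₀ hu1 (by omega))
        (by positivity) (by linarith))
    · rcases lt_or_ge D D₀ with hDD | hDD
      · refine le_trans ?_ (hc' D h hDD.le hR)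
        rw [div_le_iff₀ (by positivity)]
        rw [div_le_iff₀ hc'0] at hC'c'
        have e1 : 1 ≤ u ^ (2 * C') := one_le_pow₀ hu1
        have e2 : (C' : ℝ) * c' ≤ 2 * C' * u ^ (2 * C') * c' := by
          have : (C' : ℝ) ≤ 2 * C' * u ^ (2 * C') := by nlinarith
          exact mul_le_mul_of_nonneg_right this hc'0.le
        linarith
      · obtain ⟨g1, g2, g3⟩ := hD₀ D hDD
        rw [← hu] at g1 g2 g3
        obtain ⟨hD'1, hh'0⟩ := h1 D' h' hR'
        have hDu : Real.exp (u - 1) = D := by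
          rw [hu, add_sub_cancel_left, Real.exp_log]
          exact_mod_cast hD1
        have hD'u : (D' : ℝ) ≤ c * u ^ n := hD'.trans hZD
        have hD'D : D' < D := by
          have : (D' : ℝ) < D := by
            rw [← hDu]
            linarith
          exact_mod_cast this
        have e1 := ih D' hD'D h' hR'
        have hl' : 1 ≤ 1 + Real.log D' := by
          have := Real.log_natCast_nonneg D'
          linarith
        have hv : 1 + Real.log D' ≤ 1 + Real.log c + n * Real.log u := by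
          have e2 : Real.log D' ≤ Real.log (c * u ^ n) :=
            Real.log_le_log (by exact_mod_cast hD'1) hD'u
          rw [Real.log_mul hc0.ne' (by positivity), Real.log_pow] at e2
          linarith
        obtain ⟨w, hw⟩ : ∃ w, w = 1 + Real.log D' := ⟨_, rfl⟩
        rw [← hw] at e1 hl' hv
        rw [hcast] at e1
        have hw2 : w ^ 2 ≤ u := (pow_le_pow_left₀ (by linarith) hv 2).trans g1
        have e2 : w ^ (2 * C') ≤ u ^ C' := by
          rw [pow_mul]
          exact pow_le_pow_left₀ (by positivity) hw2 _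
        have e3 : c * u ^ n ≤ u ^ C' := by
          calc c * u ^ n ≤ u * u ^ n := mul_le_mul_of_nonneg_right g3 (by positivity)
            _ = u ^ (n + 1) := by ring
            _ ≤ u ^ C' := pow_le_pow_right₀ hu1 hC'n
        have e4 : h' ≤ u ^ C' * h := hh'.trans
          (mul_le_mul_of_nonneg_right (hZD.trans e3) hh0.le)
        rw [div_le_iff₀ (by positivity)] at e1 ⊢
        calc (1 : ℝ) ≤ h' * (2 * C' * w ^ (2 * C')) := e1
          _ ≤ (u ^ C' * h) * (2 * C' * u ^ C') := by
              apply mul_le_mul e4 _ (by positivity) (by positivity)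
              exact mul_le_mul_of_nonneg_left e2 (by positivity)
          _ = h * (2 * C' * u ^ (2 * C')) := by
              rw [two_mul C', pow_add]
              ring

/-- (SEL) a prime of small norm whose residue characteristic does not divide `D` -/
theorem primeSelC : PrimeSel2 := by
  intro κ nb hκ hnb
  obtain ⟨C, hC, h⟩ := AB.primeSel κ nb hκ hnb
  have hκ0 : (1 : ℝ) ≤ κ := by exact_mod_cast hκ
  refine ⟨C * κ, by positivity, ?_⟩
  intro K _ _ hK D hD
  have hD0 : (D : 𝓞 K) ≠ 0 := by exact_mod_cast (by omega : D ≠ 0)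
  have hl : 0 ≤ Real.log D := Real.log_natCast_nonneg D
  obtain ⟨P, hP1, hP2, hP3, hP4, hP5⟩ := h K hK (fun P => (D : 𝓞 K) ∈ P) (κ * Real.log D)
    (by positivity) (by
      intro S hS
      have hdvd : ∏ P ∈ S, P ∣ Ideal.span {(D : 𝓞 K)} := by
        apply Finset.prod_primes_dvd
        · intro P hP
          obtain ⟨h1, h2, -, -⟩ := hS P hP
          exact Ideal.prime_of_isPrime h2 h1.isPrime
        · intro P hP
          obtain ⟨-, -, -, h4⟩ := hS P hP
          rw [Ideal.dvd_span_singleton]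
          exact h4
      have h2 : Ideal.absNorm (∏ P ∈ S, P) ∣ Ideal.absNorm (Ideal.span {(D : 𝓞 K)}) :=
        map_dvd Ideal.absNorm hdvd
      have h3 : Ideal.absNorm (Ideal.span {(D : 𝓞 K)}) = D ^ finrank ℚ K := by
        rw [Ideal.absNorm_span_singleton]
        have : Algebra.norm ℤ ((D : ℤ) : 𝓞 K) = (D : ℤ) ^ finrank ℚ K := by
          have h5 := Algebra.norm_algebraMap (R := ℤ) (S := 𝓞 K) (D : ℤ)
          rw [RingOfIntegers.rank] at h5
          simpa using h5
        rw [show ((D : 𝓞 K)) = ((D : ℤ) : 𝓞 K) by push_cast; rfl, this, Int.natAbs_pow,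
          Int.natAbs_natCast]
      rw [h3, map_prod] at h2
      have hD' : 0 < D ^ finrank ℚ K := Nat.pow_pos hD
      have h4 := Nat.le_of_dvd hD' h2
      have hpos : ∀ P ∈ S, (Ideal.absNorm P : ℝ) ≠ 0 := by
        intro P hP
        obtain ⟨-, h2, -, -⟩ := hS P hP
        exact_mod_cast (Ideal.absNorm_eq_zero_iff.not.mpr h2)
      rw [← Real.log_prod hpos]
      have h5 : (∏ P ∈ S, (Ideal.absNorm P : ℝ)) ≤ (D : ℝ) ^ finrank ℚ K := by
        exact_mod_cast h4
      have h6 : 0 < ∏ P ∈ S, (Ideal.absNorm P : ℝ) := by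
        apply Finset.prod_pos
        intro P hP
        have := hpos P hP
        positivity
      refine (Real.log_le_log h6 h5).trans ?_
      rw [Real.log_pow]
      exact mul_le_mul_of_nonneg_right (by exact_mod_cast hK) hl)
  refine ⟨P, hP1, hP2, hP3, hP4, hP5.trans (pow_le_pow_left₀ (by positivity) ?_ _)⟩
  rw [mul_assoc]
  apply mul_le_mul_of_nonneg_left _ hC.le
  nlinarith

end Pool.Agent.N715.AC
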